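import Pool.Agent.H534.RS.MKt
import Mathlib.Data.ZMod.ValMinAbs

/-!
# The engine, part A: configurations in a window
-/

set_option autoImplicit false

open Finset

namespace Pool.Agent.H534.RS

open Pool.Agent.H602R3.DHJ
open Pool.Agent.Y727.PSP (sw sl Ind LF rp rp_pos rp_le rp_cast rp_of sum_rp)

/-- the box -/
def bx {r N : ℕ} (y : Fin r → ZMod N) : Prop := ∀ l, N < 3 * rp (y l) ∧ 3 * rp (y l) ≤ 2 * N

theorem vma {N : ℕ} [NeZero N] (u d : ZMod N) (h1 : N < 3 * rp u) (h2 : 3 * rp u ≤ 2 * N)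
    (h3 : N < 3 * rp (u + d)) (h4 : 3 * rp (u + d) ≤ 2 * N) : (rp (u + d) : ℤ) = rp u + d.valMinAbs := by
  have h : d.valMinAbs = (rp (u + d) : ℤ) - rp u := by
    rw [ZMod.valMinAbs_spec]
    constructor
    · push_cast
      rw [rp_cast, rp_cast]
      ring
    · rw [Set.mem_Ioc]
      constructor <;> omega
  rw [h]
  ring

theorem card_third (N : ℕ) [NeZero N] (hN : 12 ≤ N) :
    N ≤ 4 * (univ.filter (fun u : ZMod N => N < 3 * rp u ∧ 3 * rp u ≤ 2 * N)).card := by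
  have h := sum_rp N (fun u => if N < 3 * u ∧ 3 * u ≤ 2 * N then (1 : ℝ) else 0)
  rw [← sum_filter, ← sum_filter, sum_const, sum_const, nsmul_eq_mul, nsmul_eq_mul, mul_one, mul_one] at h
  have h1 : (univ.filter (fun u : ZMod N => N < 3 * rp u ∧ 3 * rp u ≤ 2 * N)).card =
      ((Icc 1 N).filter (fun u => N < 3 * u ∧ 3 * u ≤ 2 * N)).card := by exact_mod_cast h
  rw [h1]
  have h2 : Ioc (N / 3) (2 * N / 3) ⊆ (Icc 1 N).filter (fun u => N < 3 * u ∧ 3 * u ≤ 2 * N) := by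
    intro u hu
    rw [mem_Ioc] at hu
    rw [mem_filter, mem_Icc]
    omega
  have h3 := card_le_card h2
  rw [Nat.card_Ioc] at h3
  omega

open Classical in
theorem card_bx (r N : ℕ) [NeZero N] (hN : 12 ≤ N) :
    N ^ r ≤ 4 ^ r * (univ.filter (fun y : Fin r → ZMod N => bx y)).card := by
  have e : univ.filter (fun y : Fin r → ZMod N => bx y) =
      Fintype.piFinset (fun _ : Fin r => univ.filter (fun u : ZMod N => N < 3 * rp u ∧ 3 * rp u ≤ 2 * N)) := by
    ext y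
    rw [mem_filter, Fintype.mem_piFinset]
    unfold bx
    simp
  rw [e, Fintype.card_piFinset, prod_const, card_univ, Fintype.card_fin, ← mul_pow]
  exact Nat.pow_le_pow_left (card_third N hN) r

open Classical in
/-- the weight of the members of `A` -/
noncomputable def GG (ν : ℕ → ℝ) (A : Finset ℕ) (W b₀ : ℕ) (m : ℤ) : ℝ :=
  if ((W : ℤ) * m + b₀).toNat ∈ A then ν ((W : ℤ) * m + b₀).toNat else 0

open Classical in
/-- the weight of the window `K` -/
noncomputable def fK (ν : ℕ → ℝ) (A : Finset ℕ) (W b₀ : ℕ) {r N : ℕ} (b : Fin r → ℕ) (K : ℕ)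
    (y : Fin r → ZMod N) : ℝ :=
  if bx y ∧ W * (K + tau b y) + b₀ ∈ A then ν (W * (K + tau b y) + b₀) else 0

/-- the shape with the origin -/
def bb {r : ℕ} (b : Fin r → ℕ) : Fin (r + 1) → ℕ := Fin.cons 0 b

theorem GG_nonneg (ν : ℕ → ℝ) (hν : ∀ n, 0 ≤ ν n) (A : Finset ℕ) (W b₀ : ℕ) (m : ℤ) : 0 ≤ GG ν A W b₀ m := by
  unfold GG
  split_ifs
  · exact hν _
  · exact le_rfl

theorem fK_nonneg (ν : ℕ → ℝ) (hν : ∀ n, 0 ≤ ν n) (A : Finset ℕ) (W b₀ : ℕ) {r N : ℕ} (b : Fin r → ℕ) (K : ℕ)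
    (y : Fin r → ZMod N) : 0 ≤ fK ν A W b₀ b K y := by
  unfold fK
  split_ifs
  · exact hν _
  · exact le_rfl

theorem fK_le (ν : ℕ → ℝ) (hν : ∀ n, 0 ≤ ν n) (A : Finset ℕ) (W b₀ : ℕ) {r N : ℕ} (b : Fin r → ℕ) (K : ℕ)
    (y : Fin r → ZMod N) : fK ν A W b₀ b K y ≤ ν (W * (K + tau b y) + b₀) := by
  unfold fK
  split_ifs
  · exact le_rfl
  · exact hν _

/-- the position of a corner point -/
theorem tau_corner {r N : ℕ} [NeZero N] (b : Fin r → ℕ) (y : Fin r → ZMod N) (d : ZMod N) (hy : bx y)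
    (a : Fin (r + 1)) (ha : bx (y + ch r N a d)) :
    (tau b (y + ch r N a d) : ℤ) = tau b y + bb b a * d.valMinAbs := by
  classical
  refine Fin.cases ?_ (fun l => ?_) a ha
  · intro _
    have : ch r N 0 = 0 := rfl
    rw [this, AddMonoidHom.zero_apply, add_zero]
    simp [bb]
  · intro ha
    have e0 : ∀ i, (y + ch r N l.succ d) i = if i = l then y i + d else y i := by
      intro i
      show y i + (Pi.single l d : Fin r → ZMod N) i = _
      by_cases h : i = l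
      · subst h; simp
      · simp [h]
    have e1 : tau b (y + ch r N l.succ d) = b l * rp (y l + d) + ∑ i ∈ univ.erase l, b i * rp (y i) := by
      unfold tau
      simp only [e0]
      rw [← add_sum_erase _ _ (mem_univ l), if_pos rfl]
      congr 1
      apply sum_congr rfl
      intro i hi
      rw [if_neg (mem_erase.1 hi).1]
    have e2 : tau b y = b l * rp (y l) + ∑ i ∈ univ.erase l, b i * rp (y i) := by
      unfold tau
      rw [← add_sum_erase _ _ (mem_univ l)]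
    have h3 := ha l
    rw [e0 l, if_pos rfl] at h3
    have h4 := vma (y l) d (hy l).1 (hy l).2 h3.1 h3.2
    rw [e1, e2]
    have h5 : bb b l.succ = b l := rfl
    rw [h5]
    push_cast
    rw [h4]
    ring

theorem prod_fK_le (ν : ℕ → ℝ) (hν : ∀ n, 0 ≤ ν n) (A : Finset ℕ) (W b₀ : ℕ) {r N : ℕ} [NeZero N]
    (b : Fin r → ℕ) (K : ℕ) (y : Fin r → ZMod N) (d : ZMod N) :
    ∏ a : Fin (r + 1), fK ν A W b₀ b K (y + ch r N a d) ≤
      ∏ a : Fin (r + 1), GG ν A W b₀ (((K + tau b y : ℕ) : ℤ) + bb b a * d.valMinAbs) := by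
  classical
  by_cases h : ∀ a : Fin (r + 1), bx (y + ch r N a d) ∧ W * (K + tau b (y + ch r N a d)) + b₀ ∈ A
  · apply le_of_eq
    apply prod_congr rfl
    intro a _
    have h0 : bx y := by
      have := (h 0).1
      have e : ch r N 0 = 0 := rfl
      rwa [e, AddMonoidHom.zero_apply, add_zero] at this
    have h1 := tau_corner b y d h0 a (h a).1
    have h2 : (W : ℤ) * (((K + tau b y : ℕ) : ℤ) + bb b a * d.valMinAbs) + b₀ =
        ((W * (K + tau b (y + ch r N a d)) + b₀ : ℕ) : ℤ) := by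
      push_cast
      rw [h1]
      ring
    unfold fK GG
    rw [if_pos (h a), h2, Int.toNat_natCast, if_pos (h a).2]
  · push Not at h
    obtain ⟨a, ha⟩ := h
    have : fK ν A W b₀ b K (y + ch r N a d) = 0 := by
      unfold fK
      rw [if_neg]
      rintro ⟨h1, h2⟩
      exact ha h1 h2
    rw [prod_eq_zero (mem_univ a) this]
    exact prod_nonneg fun _ _ => GG_nonneg ν hν A W b₀ _

/-- the number of the configurations with difference `e` -/
noncomputable def CC (ν : ℕ → ℝ) (A : Finset ℕ) (W b₀ M₀ L N' : ℕ) {r : ℕ} (b : Fin r → ℕ) (e : ℤ) : ℝ :=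
  ∑ m ∈ Ioc M₀ (M₀ + L + N'), ∏ a : Fin (r + 1), GG ν A W b₀ ((m : ℤ) + bb b a * e)

theorem CC_nonneg (ν : ℕ → ℝ) (hν : ∀ n, 0 ≤ ν n) (A : Finset ℕ) (W b₀ M₀ L N' : ℕ) {r : ℕ} (b : Fin r → ℕ)
    (e : ℤ) : 0 ≤ CC ν A W b₀ M₀ L N' b e :=
  sum_nonneg fun _ _ => prod_nonneg fun _ _ => GG_nonneg ν hν A W b₀ _

theorem tau_le {r N : ℕ} [NeZero N] (b : Fin r → ℕ) (y : Fin r → ZMod N) : tau b y ≤ (∑ l, b l) * N := by
  unfold tau
  rw [sum_mul]
  exact sum_le_sum fun l _ => Nat.mul_le_mul_left _ (rp_le _)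

theorem sum_av_le (ν : ℕ → ℝ) (hν : ∀ n, 0 ≤ ν n) (A : Finset ℕ) (W b₀ M₀ L N' : ℕ) {r N : ℕ} [NeZero N]
    (b : Fin r → ℕ) (hN' : (∑ l, b l) * N ≤ N') :
    ∑ K ∈ Ioc M₀ (M₀ + L), av (fun x : Option (Fin r) → ZMod N => ∏ j, fK ν A W b₀ b K (P j x)) ≤
      av (fun d : ZMod N => CC ν A W b₀ M₀ L N' b d.valMinAbs) := by
  have h1 : ∀ K, av (fun x : Option (Fin r) → ZMod N => ∏ j, fK ν A W b₀ b K (P j x)) =
      av (fun d : ZMod N => av (fun y : Fin r → ZMod N =>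
        ∏ a : Fin (r + 1), fK ν A W b₀ b K (y + ch r N a d))) := by
    intro K
    have h8 : av (fun x : Option (Fin r) → ZMod N => ∏ j, fK ν A W b₀ b K (P j x)) =
        av (fun p : (Fin r → ZMod N) × ZMod N => ∏ a : Fin (r + 1), fK ν A W b₀ b K (p.1 + ch r N a p.2)) := by
      rw [← Pool.Agent.Y727.PSP.av_hom (Sh r N) (Sh_surj r N)]
      congr 1
      funext x
      exact prod_P x _
    rw [h8, av_prod, av_comm]
  rw [sum_congr rfl fun K _ => h1 K, ← av_sum]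
  apply av_mono
  intro d
  rw [← av_sum]
  have h2 : ∀ y : Fin r → ZMod N, ∑ K ∈ Ioc M₀ (M₀ + L),
      ∏ a : Fin (r + 1), fK ν A W b₀ b K (y + ch r N a d) ≤ CC ν A W b₀ M₀ L N' b d.valMinAbs := by
    intro y
    refine (sum_le_sum fun K _ => prod_fK_le ν hν A W b₀ b K y d).trans ?_
    have ht : tau b y ≤ N' := (tau_le b y).trans hN'
    unfold CC
    have e : ∑ K ∈ Ioc M₀ (M₀ + L), ∏ a : Fin (r + 1), GG ν A W b₀ (((K + tau b y : ℕ) : ℤ) + bb b a * d.valMinAbs) =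
        ∑ m ∈ Ioc (M₀ + tau b y) (M₀ + L + tau b y), ∏ a : Fin (r + 1), GG ν A W b₀ ((m : ℤ) + bb b a * d.valMinAbs) := by
      rw [← Finset.map_add_right_Ioc, sum_map]
      rfl
    rw [e]
    apply sum_le_sum_of_subset_of_nonneg
    · intro m hm
      rw [mem_Ioc] at hm ⊢
      omega
    · intro m _ _
      exact prod_nonneg fun _ _ => GG_nonneg ν hν A W b₀ _
  refine (av_mono h2).trans (le_of_eq (av_const _))

end Pool.Agent.H534.RS
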