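import Pool.Agent.H534.RS.EngA
import Pool.Graph.R_seed8.Y677.RSZ.Eng3

/-!
# The engine, part B: the good windows, and the upper bound for one difference
-/

set_option autoImplicit false

open Finset

namespace Pool.Agent.H534.RS

open Pool.Agent.H602R3.DHJ
open Pool.Agent.Y727.PSP (sw sl Ind LF rp rp_pos rp_le rp_cast rp_of sum_rp)
open Pool.Agent.Y677.RSZ (cntK)

open Classical in
/-- many windows are good -/
theorem good_sum (ν : ℕ → ℝ) (A : Finset ℕ) (Y H W b₀ M₀ L N' r N : ℕ) [NeZero N] (b : Fin r → ℕ)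
    (c v κ δ η : ℝ) (Bd : Finset ℕ) (hν : ∀ n, 0 ≤ ν n) (hW : 1 ≤ W) (hb₀ : b₀ < W) (hA : A ⊆ Ioc Y (Y + H))
    (hM : M₀ = Y / W) (hL : L + N' + 1 = H / W) (hL1 : 1 ≤ L) (hN : 12 ≤ N) (hN' : (∑ l, b l) * N ≤ N')
    (hv : 0 < v) (hc : 0 < c) (hκ : 0 < κ) (hνA : ∀ n ∈ A, c ≤ ν n * v)
    (hAb : κ * (H / W * v) ≤ ((A.filter (fun n => n % W = b₀)).card : ℝ))
    (hbig : 2 * ((N' : ℝ) + 4) ≤ κ * (H / W * v)) (hδ : 0 < δ) (hδ2 : 8 * 4 ^ r * δ ≤ c * κ)
    (h1 : ∑ K ∈ Ioc M₀ (M₀ + L), |av (fun y : Fin r → ZMod N => ν (W * (K + tau b y) + b₀)) - 1| ≤ η * L)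
    (h2 : Bd ⊆ Ioc M₀ (M₀ + L)) (h3 : (Bd.card : ℝ) ≤ η * L) (h4 : η ≤ δ / 2) :
    δ * L ≤ (((Ioc M₀ (M₀ + L) \ Bd).filter (fun K => δ ≤ av (fun y : Fin r → ZMod N => fK ν A W b₀ b K y))).card : ℝ) := by
  have hN0 : (0 : ℝ) < N := by exact_mod_cast (show 0 < N by omega)
  have hL0 : (0 : ℝ) < L := by exact_mod_cast hL1
  have hW0 : (0 : ℝ) < W := by exact_mod_cast hW
  have hLH : (L : ℝ) ≤ H / W := by
    have e1 : ((H / W : ℕ) : ℝ) ≤ H / W := Nat.cast_div_le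
    have e2 : (L : ℝ) ≤ ((H / W : ℕ) : ℝ) := by
      rw [← hL]; push_cast
      have := (Nat.cast_nonneg N' : (0 : ℝ) ≤ N')
      linarith
    linarith
  -- lower bound for the sum
  have hlow : 4 * δ * L ≤ ∑ K ∈ Ioc M₀ (M₀ + L), av (fun y : Fin r → ZMod N => fK ν A W b₀ b K y) := by
    rw [← av_sum]
    have e2 : ∀ y : Fin r → ZMod N, (if bx y then κ * (H / W * v) / 2 * (c / v) else 0) ≤
        ∑ K ∈ Ioc M₀ (M₀ + L), fK ν A W b₀ b K y := by
      intro y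
      split_ifs with hy
      · have e3 : ∑ K ∈ Ioc M₀ (M₀ + L), (if W * (K + tau b y) + b₀ ∈ A then c / v else 0) ≤
            ∑ K ∈ Ioc M₀ (M₀ + L), fK ν A W b₀ b K y := by
          apply sum_le_sum
          intro K _
          unfold fK
          by_cases hp : W * (K + tau b y) + b₀ ∈ A
          · rw [if_pos hp, if_pos ⟨hy, hp⟩, div_le_iff₀ hv]
            exact hνA _ hp
          · rw [if_neg hp, if_neg (fun hc => hp hc.2)]
        refine le_trans ?_ e3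
        rw [← sum_filter, sum_const, nsmul_eq_mul]
        apply mul_le_mul_of_nonneg_right _ (by positivity)
        have := cntK A Y H W b₀ M₀ L N' (tau b y) hW hb₀ hA hM hL ((tau_le b y).trans hN')
        linarith
      · exact sum_nonneg fun K _ => fK_nonneg ν hν A W b₀ b K y
    refine le_trans ?_ (av_mono e2)
    have e5 : av (fun y : Fin r → ZMod N => if bx y then κ * (H / W * v) / 2 * (c / v) else 0) =
        ((univ.filter (fun y : Fin r → ZMod N => bx y)).card : ℝ) * (κ * (H / W * v) / 2 * (c / v)) / N ^ r := by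
      unfold av
      rw [← sum_filter, sum_const, nsmul_eq_mul, Fintype.card_fun, ZMod.card, Fintype.card_fin]
      push_cast
      rfl
    rw [e5, le_div_iff₀ (by positivity)]
    have e6 : ((N : ℝ) ^ r) ≤ 4 ^ r * ((univ.filter (fun y : Fin r → ZMod N => bx y)).card : ℝ) := by
      exact_mod_cast card_bx r N hN
    have e4 : κ * (H / W * v) / 2 * (c / v) = c * κ * (H / W) / 2 := by
      field_simp
    rw [e4]
    calc 4 * δ * L * (N : ℝ) ^ r ≤ 4 * δ * (H / W) * (4 ^ r * ((univ.filter (fun y : Fin r → ZMod N => bx y)).card : ℝ)) := by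
          gcongr
      _ = ((univ.filter (fun y : Fin r → ZMod N => bx y)).card : ℝ) * (8 * 4 ^ r * δ * (H / W) / 2) := by ring
      _ ≤ ((univ.filter (fun y : Fin r → ZMod N => bx y)).card : ℝ) * (c * κ * (H / W) / 2) := by gcongr
  -- the upper bound
  obtain ⟨Gd, hGd⟩ : ∃ Gd : Finset ℕ, Gd = (Ioc M₀ (M₀ + L) \ Bd).filter
    (fun K => δ ≤ av (fun y : Fin r → ZMod N => fK ν A W b₀ b K y)) := ⟨_, rfl⟩
  rw [← hGd]
  have hup1 : ∀ S ⊆ Ioc M₀ (M₀ + L), ∑ K ∈ S, av (fun y : Fin r → ZMod N => fK ν A W b₀ b K y) ≤ S.card + η * L := by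
    intro S hS
    calc ∑ K ∈ S, av (fun y : Fin r → ZMod N => fK ν A W b₀ b K y) ≤
        ∑ K ∈ S, (1 + |av (fun y : Fin r → ZMod N => ν (W * (K + tau b y) + b₀)) - 1|) := by
            apply sum_le_sum
            intro K _
            have h5 : av (fun y : Fin r → ZMod N => fK ν A W b₀ b K y) ≤
              av (fun y : Fin r → ZMod N => ν (W * (K + tau b y) + b₀)) := av_mono (fK_le ν hν A W b₀ b K)
            have h6 := le_abs_self (av (fun y : Fin r → ZMod N => ν (W * (K + tau b y) + b₀)) - 1)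
            linarith
        _ = S.card + ∑ K ∈ S, |av (fun y : Fin r → ZMod N => ν (W * (K + tau b y) + b₀)) - 1| := by
            rw [sum_add_distrib, sum_const, nsmul_eq_mul, mul_one]
        _ ≤ S.card + η * L := by
            gcongr
            exact (sum_le_sum_of_subset_of_nonneg hS fun _ _ _ => abs_nonneg _).trans h1
  have hup2 : ∑ K ∈ (Ioc M₀ (M₀ + L) \ Bd) \ Gd, av (fun y : Fin r → ZMod N => fK ν A W b₀ b K y) ≤ δ * L := by
    calc ∑ K ∈ (Ioc M₀ (M₀ + L) \ Bd) \ Gd, av (fun y : Fin r → ZMod N => fK ν A W b₀ b K y) ≤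
        ∑ K ∈ (Ioc M₀ (M₀ + L) \ Bd) \ Gd, δ := by
          apply sum_le_sum
          intro K hK
          rw [mem_sdiff, hGd, mem_filter, not_and] at hK
          exact (not_le.1 (hK.2 hK.1)).le
      _ ≤ ∑ K ∈ Ioc M₀ (M₀ + L), δ :=
          sum_le_sum_of_subset_of_nonneg (sdiff_subset.trans sdiff_subset) fun _ _ _ => hδ.le
      _ = δ * L := by
          rw [sum_const, nsmul_eq_mul, Nat.card_Ioc]
          have : M₀ + L - M₀ = L := by omega
          rw [this]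
          ring
  have hGs : Gd ⊆ Ioc M₀ (M₀ + L) \ Bd := by rw [hGd]; exact filter_subset _ _
  have hup3 := hup1 Bd h2
  have hup4 := hup1 Gd (hGs.trans sdiff_subset)
  have hsum : ∑ K ∈ Ioc M₀ (M₀ + L), av (fun y : Fin r → ZMod N => fK ν A W b₀ b K y) =
      (∑ K ∈ (Ioc M₀ (M₀ + L) \ Bd) \ Gd, av (fun y : Fin r → ZMod N => fK ν A W b₀ b K y) +
      ∑ K ∈ Gd, av (fun y : Fin r → ZMod N => fK ν A W b₀ b K y)) +
      ∑ K ∈ Bd, av (fun y : Fin r → ZMod N => fK ν A W b₀ b K y) := by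
    rw [sum_sdiff hGs, sum_sdiff h2]
  rw [hsum] at hlow
  nlinarith

theorem bb_inj {r : ℕ} (b : Fin r → ℕ) (hb : Function.Injective b) (hb1 : ∀ l, 1 ≤ b l) :
    Function.Injective (bb b) := by
  unfold bb
  rw [Fin.cons_injective_iff]
  refine ⟨?_, hb⟩
  rintro ⟨l, hl⟩
  have := hb1 l
  omega

theorem bb_le {r : ℕ} (b : Fin r → ℕ) (a : Fin (r + 1)) : bb b a ≤ ∑ l, b l := by
  refine Fin.cases ?_ (fun l => ?_) a
  · exact Nat.zero_le _
  · show b l ≤ _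
    exact single_le_sum (f := b) (fun _ _ => Nat.zero_le _) (mem_univ l)

theorem GG_le (ν : ℕ → ℝ) (A : Finset ℕ) (W b₀ : ℕ) (m : ℤ) (T : ℝ) (hT : 0 ≤ T) (hA : ∀ n ∈ A, ν n ≤ T) :
    GG ν A W b₀ m ≤ T := by
  unfold GG
  split_ifs with h
  · exact hA _ h
  · exact hT

theorem CC_zero (ν : ℕ → ℝ) (hν : ∀ n, 0 ≤ ν n) (A : Finset ℕ) (W b₀ M₀ L N' : ℕ) {r : ℕ} (b : Fin r → ℕ)
    (T : ℝ) (hT : 0 ≤ T) (hA : ∀ n ∈ A, ν n ≤ T) (e : ℤ) :
    CC ν A W b₀ M₀ L N' b e ≤ ((L : ℝ) + N') * T ^ (r + 1) := by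
  unfold CC
  calc ∑ m ∈ Ioc M₀ (M₀ + L + N'), ∏ a : Fin (r + 1), GG ν A W b₀ ((m : ℤ) + bb b a * e) ≤
      ∑ m ∈ Ioc M₀ (M₀ + L + N'), T ^ (r + 1) := by
        apply sum_le_sum
        intro m _
        calc ∏ a : Fin (r + 1), GG ν A W b₀ ((m : ℤ) + bb b a * e) ≤ ∏ _a : Fin (r + 1), T :=
              prod_le_prod (fun _ _ => GG_nonneg ν hν A W b₀ _) (fun _ _ => GG_le ν A W b₀ _ T hT hA)
          _ = _ := by rw [prod_const, card_univ, Fintype.card_fin]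
    _ = _ := by
        rw [sum_const, nsmul_eq_mul, Nat.card_Ioc]
        have : M₀ + L + N' - M₀ = L + N' := by omega
        rw [this]
        push_cast
        ring

theorem CC_upper (ν : ℕ → ℝ) (hν : ∀ n, 0 ≤ ν n) (A : Finset ℕ) (W b₀ M₀ L N' N : ℕ) {r : ℕ} (b : Fin r → ℕ)
    (hb : Function.Injective b) (hb1 : ∀ l, 1 ≤ b l) (hL1 : 1 ≤ L) (hN' : 1 + 2 * ((∑ l, b l) * N) ≤ N')
    (T η : ℝ) (hT : 0 ≤ T) (hA : ∀ n ∈ A, ν n ≤ T)
    (hcor : ∀ t : Fin (r + 1) → ℕ, Function.Injective t → (∀ i, 1 ≤ t i ∧ t i ≤ N') →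
      |(∑ K ∈ Ioc M₀ (M₀ + L), ∏ i, ν (W * (K + t i) + b₀)) / L - 1| ≤ η)
    (e : ℤ) (he : e ≠ 0) (he2 : |e| ≤ N) :
    CC ν A W b₀ M₀ L N' b e ≤ (1 + η) * L + N' * T ^ (r + 1) := by
  have hL0 : (0 : ℝ) < L := by exact_mod_cast hL1
  obtain ⟨B, hB⟩ : ∃ B : ℕ, B = (∑ l, b l) * N := ⟨_, rfl⟩
  rw [← hB] at hN'
  obtain ⟨s, hs⟩ : ∃ s : ℕ, s = 1 + B := ⟨_, rfl⟩
  have hbe : ∀ a, |(bb b a : ℤ) * e| ≤ B := by
    intro a
    rw [abs_mul, hB]
    have h1 : |(bb b a : ℤ)| ≤ ((∑ l, b l : ℕ) : ℤ) := by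
      rw [Nat.abs_cast]
      exact_mod_cast bb_le b a
    push_cast at h1 ⊢
    exact mul_le_mul h1 he2 (abs_nonneg _) (by positivity)
  have ht1 : ∀ a, ((((bb b a : ℤ) * e + s).toNat : ℕ) : ℤ) = (bb b a : ℤ) * e + s := by
    intro a
    apply Int.toNat_of_nonneg
    have := (abs_le.1 (hbe a)).1
    omega
  have hinj : Function.Injective (fun a => ((bb b a : ℤ) * e + s).toNat) := by
    intro a a' h
    apply bb_inj b hb hb1
    have h1 := ht1 a
    have h2 := ht1 a'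
    simp only at h
    rw [h, h2] at h1
    have h3 : (bb b a' : ℤ) * e = (bb b a : ℤ) * e := by linarith
    have h4 := mul_right_cancel₀ he h3
    exact_mod_cast h4.symm
  have hc := hcor (fun a => ((bb b a : ℤ) * e + s).toNat) hinj (by
    intro a
    have h1 := ht1 a
    have h2 := abs_le.1 (hbe a)
    beta_reduce
    constructor <;> omega)
  have hc2 : ∑ K ∈ Ioc M₀ (M₀ + L), ∏ i, ν (W * (K + ((bb b i : ℤ) * e + s).toNat) + b₀) ≤ (1 + η) * L := by
    have h1 := (abs_le.1 hc).2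
    have h2 : (∑ K ∈ Ioc M₀ (M₀ + L), ∏ i, ν (W * (K + ((bb b i : ℤ) * e + s).toNat) + b₀)) / L ≤ 1 + η := by
      linarith
    rwa [div_le_iff₀ hL0] at h2
  unfold CC
  have hsub : Ioc (M₀ + s) (M₀ + s + L) ⊆ Ioc M₀ (M₀ + L + N') := by
    intro m hm
    rw [mem_Ioc] at hm ⊢
    omega
  rw [← sum_sdiff hsub, add_comm]
  apply add_le_add
  · refine le_trans ?_ hc2
    rw [show M₀ + s + L = M₀ + L + s by ring, ← Finset.map_add_right_Ioc, sum_map]
    apply sum_le_sum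
    intro K _
    apply prod_le_prod
    · intro _ _
      exact GG_nonneg ν hν A W b₀ _
    · intro a _
      have e1 : (W : ℤ) * ((((addRightEmbedding s) K : ℕ) : ℤ) + bb b a * e) + b₀ =
          ((W * (K + ((bb b a : ℤ) * e + s).toNat) + b₀ : ℕ) : ℤ) := by
        push_cast
        rw [ht1 a]
        simp only [addRightEmbedding_apply]
        push_cast
        ring
      unfold GG
      rw [e1, Int.toNat_natCast]
      split_ifs
      · exact le_rfl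
      · exact hν _
  · calc ∑ m ∈ Ioc M₀ (M₀ + L + N') \ Ioc (M₀ + s) (M₀ + s + L), ∏ a : Fin (r + 1), GG ν A W b₀ ((m : ℤ) + bb b a * e) ≤
      ∑ m ∈ Ioc M₀ (M₀ + L + N') \ Ioc (M₀ + s) (M₀ + s + L), T ^ (r + 1) := by
          apply sum_le_sum
          intro m _
          calc ∏ a : Fin (r + 1), GG ν A W b₀ ((m : ℤ) + bb b a * e) ≤ ∏ _a : Fin (r + 1), T :=
                prod_le_prod (fun _ _ => GG_nonneg ν hν A W b₀ _) (fun _ _ => GG_le ν A W b₀ _ T hT hA)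
            _ = _ := by rw [prod_const, card_univ, Fintype.card_fin]
    _ = _ := by
        rw [sum_const, nsmul_eq_mul, card_sdiff_of_subset hsub, Nat.card_Ioc, Nat.card_Ioc]
        have : M₀ + L + N' - M₀ - (M₀ + s + L - (M₀ + s)) = N' := by omega
        rw [this]

end Pool.Agent.H534.RS
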