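import Pool.Agent.H534.RS.EngB
import Pool.Graph.R_seed8.Y677.RSZ.Eng4

/-!
# The engine, part C: the classes modulo `W`, and the numerical conditions
-/

set_option autoImplicit false

open Finset

namespace Pool.Agent.H534.RS

open Pool.Agent.H602R3.DHJ
open Pool.Agent.TH423.SH (PS)
open Pool.Agent.Y727.PSP (sw sl Ind LF rp rp_pos rp_le rp_cast rp_of sum_rp)
open Pool.Agent.Y677.RSZ

/-- the density of the classes modulo `W` without common prime factor -/
noncomputable def dW (F : ℤ → ℤ) (W : ℕ) : ℝ := ∏ p ∈ W.primeFactors, (1 - (rt F p : ℝ) / p)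

open Classical in
/-- the rich classes modulo `W` -/
noncomputable def rich (F : ℤ → ℤ) (W H : ℕ) (A : Finset ℕ) (κ : ℝ) : Finset ℕ :=
  (range W).filter (fun b => κ / 2 * (H / W * V F W H) ≤ ((A.filter (fun n => n % W = b)).card : ℝ))

theorem classes {g : ℕ} {F : ℤ → ℤ} (hF : Sys g F) (W H : ℕ) (hW : Squarefree W)
    (hWH : ∀ p : ℕ, p.Prime → p ∣ W → p ≤ H) (A : Finset ℕ) (κ C₁ : ℝ) (hκ : 0 < κ) (hC₁ : 0 < C₁) (hH : 1 ≤ H)
    (hA : ∀ n ∈ A, ∀ p ∈ W.primeFactors, ¬ (p : ℤ) ∣ F (n : ℤ))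
    (hAc : κ * (H * V F 1 H) ≤ A.card)
    (hup : ∀ b < W, ((A.filter (fun n => n % W = b)).card : ℝ) ≤ C₁ * (H / W * V F W H)) :
    κ / (2 * C₁) * (W * dW F W) ≤ ((rich F W H A κ).card : ℝ) := by
  classical
  have hW0 : 0 < W := Nat.pos_of_ne_zero hW.ne_zero
  have hW0' : (0 : ℝ) < W := by exact_mod_cast hW0
  have hH0 : (0 : ℝ) < H := by exact_mod_cast hH
  set Bs := (range W).filter (fun b : ℕ => ∀ p ∈ W.primeFactors, ¬ (p : ℤ) ∣ F b) with hBs
  have hBc : (Bs.card : ℝ) = W * dW F W := by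
    have h1 : Bs.card = ∏ p ∈ W.primeFactors, (p - rt F p) := by
      rw [hBs]
      have := pig F hF.per W hW
      convert this
    rw [h1, Nat.cast_prod]
    have h2 : (W : ℝ) = ∏ p ∈ W.primeFactors, (p : ℝ) := by
      conv_lhs => rw [← Nat.prod_primeFactors_of_squarefree hW]
      push_cast
      rfl
    conv_rhs => rw [h2]
    unfold dW
    rw [← prod_mul_distrib]
    apply prod_congr rfl
    intro p hp
    have hp0 : (p : ℝ) ≠ 0 := by
      have := (Nat.prime_of_mem_primeFactors hp).pos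
      positivity
    rw [Nat.cast_sub (rt_le p)]
    field_simp
  have hmaps : ∀ n ∈ A, n % W ∈ Bs := by
    intro n hn
    rw [hBs, mem_filter, mem_range]
    refine ⟨Nat.mod_lt _ hW0, fun p hp h => ?_⟩
    apply hA n hn p hp
    have hpp := Nat.prime_of_mem_primeFactors hp
    refine (per_mod hF.per hpp n (n % W) ?_).2 h
    exact (Nat.mod_modEq n W).symm.of_dvd (Nat.dvd_of_mem_primeFactors hp)
  have hVW : 0 < V F W H := V_pos hF W H
  have h3 : (A.card : ℝ) = ∑ b ∈ Bs, ((A.filter (fun n => n % W = b)).card : ℝ) := by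
    rw [card_eq_sum_card_fiberwise hmaps]
    push_cast
    rfl
  obtain ⟨X, hX⟩ : ∃ X : ℝ, X = H / W * V F W H := ⟨_, rfl⟩
  have hX0 : 0 < X := by rw [hX]; positivity
  have h5 := V_split (F := F) W H hW0.ne' hWH
  have h6 : κ * (H * V F 1 H) = κ * ((Bs.card : ℝ) * X) := by
    rw [h5, hBc, hX]
    unfold dW
    field_simp
  rw [h6, h3] at hAc
  have h7 : ∑ b ∈ Bs, ((A.filter (fun n => n % W = b)).card : ℝ) ≤
      ∑ b ∈ Bs, ((if b ∈ rich F W H A κ then C₁ * X else 0) + κ / 2 * X) := by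
    apply sum_le_sum
    intro b hb
    rw [hBs, mem_filter, mem_range] at hb
    by_cases h : b ∈ rich F W H A κ
    · rw [if_pos h]
      have := hup b hb.1
      rw [← hX] at this
      have h8 : 0 ≤ κ / 2 * X := by positivity
      linarith
    · rw [if_neg h, zero_add]
      unfold rich at h
      rw [mem_filter, mem_range, not_and, ← hX] at h
      exact (not_le.1 (h hb.1)).le
  rw [sum_add_distrib, sum_const, nsmul_eq_mul, ← sum_filter, sum_const, nsmul_eq_mul] at h7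
  have h8 : (((Bs.filter (fun b => b ∈ rich F W H A κ)).card : ℕ) : ℝ) ≤ ((rich F W H A κ).card : ℝ) := by
    have : Bs.filter (fun b => b ∈ rich F W H A κ) ⊆ rich F W H A κ := fun b hb => (mem_filter.1 hb).2
    exact_mod_cast card_le_card this
  have h9 : κ / 2 * (Bs.card * X) ≤ (rich F W H A κ).card * (C₁ * X) := by
    have h10 : ((Bs.filter (fun b => b ∈ rich F W H A κ)).card : ℝ) * (C₁ * X) ≤
        (rich F W H A κ).card * (C₁ * X) := by gcongr
    nlinarith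
  rw [← hBc]
  have h11 : κ / 2 * Bs.card ≤ (rich F W H A κ).card * C₁ := by
    have : (κ / 2 * Bs.card) * X ≤ ((rich F W H A κ).card * C₁) * X := by linarith
    exact le_of_mul_le_mul_right this hX0
  calc κ / (2 * C₁) * (Bs.card : ℝ) = (κ / 2 * Bs.card) / C₁ := by field_simp
    _ ≤ ((rich F W H A κ).card * C₁) / C₁ := by gcongr
    _ = _ := by field_simp

/-- the modulus -/
noncomputable def WW (ε : ℝ) (H : ℕ) : ℕ := primorial ⌊ε * Real.log H⌋₊

theorem WW_pos (ε : ℝ) (H : ℕ) : 0 < WW ε H := primorial_pos _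

theorem WW_sqf (ε : ℝ) (H : ℕ) : Squarefree (WW ε H) := by
  unfold WW primorial
  exact Finset.squarefree_prod_of_pairwise_isCoprime (by
    intro a ha b hb hab
    rw [mem_coe, mem_filter] at ha hb
    exact Nat.coprime_iff_isRelPrime.1 ((Nat.coprime_primes ha.2 hb.2).2 hab)) (by
    intro p hp
    rw [mem_filter] at hp
    exact hp.2.prime.squarefree)

theorem WW_dvd (ε : ℝ) (hε : 0 ≤ ε) (H : ℕ) (p : ℕ) (hp : p.Prime) : p ∣ WW ε H ↔ (p : ℝ) ≤ ε * Real.log H := by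
  unfold WW
  rw [hp.dvd_primorial_iff, Nat.le_floor_iff (mul_nonneg hε (Real.log_natCast_nonneg H))]

theorem WW_le (ε : ℝ) (hε : 0 ≤ ε) (H : ℕ) (hH : 1 ≤ H) : (WW ε H : ℝ) ≤ ((H : ℝ) ^ ε) ^ 2 := by
  have hH0 : (0 : ℝ) < H := by exact_mod_cast hH
  have h1 : (WW ε H : ℝ) ≤ (4 : ℝ) ^ ⌊ε * Real.log H⌋₊ := by
    unfold WW
    exact_mod_cast primorial_le_four_pow _
  refine h1.trans ?_
  have hlog4 : Real.log 4 ≤ 2 := by
    have : Real.log 4 = 2 * Real.log 2 := by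
      rw [show (4 : ℝ) = 2 ^ 2 by norm_num, Real.log_pow]; push_cast; ring
    rw [this]
    linarith [Real.log_two_lt_d9]
  have hlog40 : 0 < Real.log 4 := Real.log_pos (by norm_num)
  have h0 : 0 ≤ ε * Real.log H := mul_nonneg hε (Real.log_natCast_nonneg H)
  calc (4 : ℝ) ^ ⌊ε * Real.log H⌋₊ = Real.exp (Real.log 4 * (⌊ε * Real.log H⌋₊ : ℕ)) := by
        rw [Real.exp_mul, Real.exp_log (by norm_num), Real.rpow_natCast]
    _ ≤ Real.exp (2 * (ε * Real.log H)) := by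
        apply Real.exp_le_exp.2
        have := Nat.floor_le h0
        calc Real.log 4 * (⌊ε * Real.log H⌋₊ : ℕ) ≤ 2 * (⌊ε * Real.log H⌋₊ : ℕ) := by gcongr
          _ ≤ _ := by gcongr
    _ = ((H : ℝ) ^ ε) ^ 2 := by
        rw [Real.rpow_def_of_pos hH0, ← Real.exp_nat_mul]
        congr 1
        push_cast
        ring

/-- the numerical conditions -/
theorem numE (D : ℕ) (C ε : ℝ) (hε : 0 < ε) : ∃ H₀ : ℕ, ∀ H : ℕ, H₀ ≤ H → 16 ≤ H ∧ 1 ≤ Real.log H ∧
    C * Real.log H ^ D ≤ (H : ℝ) ^ ε := by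
  apply Filter.eventually_atTop.1
  have hlog : Filter.Tendsto (fun H : ℕ => Real.log H) Filter.atTop Filter.atTop :=
    Real.tendsto_log_atTop.comp tendsto_natCast_atTop_atTop
  filter_upwards [Filter.eventually_ge_atTop 16, hlog.eventually_ge_atTop 1, ev_log D C ε hε]
    with H h1 h2 h3
  exact ⟨h1, h2, h3⟩

/-- consequences of the numerical conditions -/
theorem numF (x H W N' r T KV κ v : ℝ) (hx : 0 < x) (hW : 1 ≤ W) (hWx : W ≤ x ^ 2) (hxH : x ^ 8 ≤ H) (hr : 1 ≤ r)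
    (hN' : N' ≤ 1 + 2 * (r * (H / x ^ 5) * x)) (hN'0 : 0 ≤ N') (hT : 1 ≤ T) (hKV : 1 ≤ KV) (hκ : 0 < κ) (hv : 1 / KV ≤ v)
    (h1 : (10 + 100 * r) * T ≤ x) (h2 : (10 + 100 * r) / κ * KV ≤ x) (hH16 : 16 ≤ H) :
    W * N' ≤ H ∧ N' + 2 ≤ H / W / 2 ∧ N' * T ≤ H / W / 4 ∧ 2 * (N' + 4) ≤ κ * (H / W * v) ∧
      H ^ (1 / 2 : ℝ) + 1 ≤ H / W / 2 ∧ 12 ≤ x := by
  have hr0 : 0 < r := by linarith
  have hx110 : 110 ≤ x := by nlinarith
  have hx1 : 1 ≤ x := by linarith
  have hH0 : 0 < H := by linarith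
  have hW0 : 0 < W := by linarith
  have hT0 : 0 < T := by linarith
  have e1 : r * (H / x ^ 5) * x = r * H / x ^ 4 := by field_simp
  rw [e1] at hN'
  -- `1 ≤ H / x ^ 8`
  have hHx : 1 ≤ H / x ^ 8 := by rw [le_div_iff₀ (by positivity)]; linarith
  have hq : 0 < H / x ^ 4 := by positivity
  have e2 : H / x ^ 4 = H / x ^ 8 * x ^ 4 := by field_simp
  have hq1 : x ^ 4 ≤ H / x ^ 4 := by
    rw [e2]
    nlinarith [pow_pos hx 4]
  have hx4 : x ≤ x ^ 4 := le_self_pow₀ hx1 (by norm_num)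
  have hq2 : 110 ≤ H / x ^ 4 := by linarith
  -- `N' + 5 ≤ 3 r H / x ^ 4`
  have hN2 : N' + 5 ≤ 3 * r * (H / x ^ 4) := by
    have : 2 * (r * H / x ^ 4) = 2 * r * (H / x ^ 4) := by ring
    nlinarith
  have hHW : H / x ^ 2 ≤ H / W := by gcongr
  have e3 : H / x ^ 2 = H / x ^ 4 * x ^ 2 := by field_simp
  have hrx : (10 + 100 * r) ≤ x := by nlinarith
  have hqx : H / x ^ 4 * x ^ 2 ≤ H / W := by rw [← e3]; exact hHW
  have hx2 : x ≤ x ^ 2 := le_self_pow₀ hx1 (by norm_num)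
  refine ⟨?_, ?_, ?_, ?_, ?_, by linarith⟩
  · have h3 : N' ≤ H / W := by
      refine le_trans ?_ hqx
      have : 3 * r * (H / x ^ 4) ≤ H / x ^ 4 * x ^ 2 := by
        rw [mul_comm]; gcongr; nlinarith
      linarith
    rwa [le_div_iff₀ hW0, mul_comm] at h3
  · have : 3 * r * (H / x ^ 4) ≤ H / x ^ 4 * x ^ 2 / 2 := by
      have : 3 * r ≤ x ^ 2 / 2 := by nlinarith
      calc 3 * r * (H / x ^ 4) ≤ x ^ 2 / 2 * (H / x ^ 4) := by gcongr
        _ = _ := by ring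
    linarith
  · have h3 : 3 * r * T ≤ x ^ 2 / 4 := by nlinarith
    have h4 : N' * T ≤ 3 * r * (H / x ^ 4) * T := by
      apply mul_le_mul_of_nonneg_right _ hT0.le
      linarith
    have h5 : 3 * r * (H / x ^ 4) * T ≤ H / x ^ 4 * x ^ 2 / 4 := by
      calc 3 * r * (H / x ^ 4) * T = (3 * r * T) * (H / x ^ 4) := by ring
        _ ≤ x ^ 2 / 4 * (H / x ^ 4) := by gcongr
        _ = _ := by ring
    linarith
  · have h3 : 2 * (N' + 4) ≤ 6 * r * (H / x ^ 4) := by linarith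
    have hKV0 : 0 < KV := by linarith
    have h4 : (10 + 100 * r) * KV ≤ κ * x := by
      rw [div_mul_eq_mul_div, div_le_iff₀ hκ] at h2
      linarith
    have h5 : 6 * r * KV ≤ κ * x ^ 2 := by
      have : κ * x ≤ κ * x ^ 2 := by gcongr
      nlinarith
    have h6 : 6 * r ≤ κ * x ^ 2 * v := by
      calc 6 * r = (6 * r * KV) * (1 / KV) := by field_simp
        _ ≤ (κ * x ^ 2) * v := by gcongr
    have hv0 : 0 < v := lt_of_lt_of_le (by positivity) hv
    calc 2 * (N' + 4) ≤ 6 * r * (H / x ^ 4) := h3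
      _ ≤ (κ * x ^ 2 * v) * (H / x ^ 4) := by gcongr
      _ = κ * (H / x ^ 4 * x ^ 2 * v) := by ring
      _ ≤ _ := by gcongr
  · have h3 : x ^ 2 ≤ H ^ (1 / 4 : ℝ) := by
      have : x ^ 2 = (x ^ 8) ^ (1 / 4 : ℝ) := by
        rw [← Real.rpow_natCast, ← Real.rpow_natCast, ← Real.rpow_mul hx.le]
        norm_num
      rw [this]
      exact Real.rpow_le_rpow (by positivity) hxH (by norm_num)
    have hq4 : 0 < H ^ (1 / 4 : ℝ) := Real.rpow_pos_of_pos hH0 _
    have e5 : H = (H ^ (1 / 4 : ℝ)) ^ 4 := by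
      rw [← Real.rpow_natCast, ← Real.rpow_mul hH0.le]
      norm_num
    have e6 : H ^ (1 / 2 : ℝ) = (H ^ (1 / 4 : ℝ)) ^ 2 := by
      rw [← Real.rpow_natCast, ← Real.rpow_mul hH0.le]
      norm_num
    have h7 : 110 ≤ H ^ (1 / 4 : ℝ) := by linarith
    have h8 : H / H ^ (1 / 4 : ℝ) ≤ H / W := by
      gcongr
      linarith
    have h9 : H / H ^ (1 / 4 : ℝ) = (H ^ (1 / 4 : ℝ)) ^ 3 := by
      rw [div_eq_iff hq4.ne']
      conv_lhs => rw [e5]
      ring
    rw [h9] at h8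
    rw [e6]
    nlinarith [pow_pos hq4 2, pow_pos hq4 3]

end Pool.Agent.H534.RS
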