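import Pool.Graph.R_seed8.Y833.RSZ.LOC

/-!
# The local factors (adapted from `Y833/RSZ/LOC.lean`: the modulus is at most `exp (Q s)`)
-/

set_option autoImplicit false

open Finset

namespace Pool.Agent.H534.RS

open Pool.Agent.Y677.RSZ
open Pool.Agent.Y833.RSZ
open Pool.Agent.TH423.SH (PS)
open Pool.Agent.Y394.PSP (sum_inv_le sum_inv_sq_le pow_le_quad)

/-- the local factors -/
theorem LOCq (Q : ℝ) (hQ : 0 ≤ Q) (g m : ℕ) (η : ℝ) (hη : 0 < η) : ∃ s₀ : ℝ, ∀ s : ℝ, s₀ ≤ s → ∀ W N : ℕ,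
  1 ≤ W → g ≤ W → 1 ≤ N → (∀ p : ℕ, p.Prime → (p : ℝ) ≤ s → p ∣ W) → Real.log (W * N) ≤ Q * s →
  ∀ F : ℤ → ℤ, Sys g F → ∀ (t : Fin m → ℕ) (b : ℕ), Function.Injective t →
  (∀ i, 1 ≤ t i ∧ t i ≤ N) → ∀ R : ℕ,
    |∏ p ∈ PS W R, (1 - (rhoT F W b t p : ℝ) / p) - V F W R ^ m| ≤ η * V F W R ^ m := by
  classical
  set θ : ℝ := Real.log (1 + η) with hθ
  have hθ0 : 0 < θ := Real.log_pos (by linarith)
  set E : ℝ := 4 * (m : ℝ) ^ 2 * (g : ℝ) ^ 2 + 2 * Q * (m : ℝ) ^ 3 * (g : ℝ) ^ 2 with hE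
  have hE0 : 0 ≤ E := by rw [hE]; positivity
  refine ⟨max (Real.exp (E / θ + 1)) (2 * m * g + 2 * g + 2), ?_⟩
  intro s hs W N hW1 hgW hN1 hWs hWN F hF t b ht ht1 R
  have hs1 : Real.exp (E / θ + 1) ≤ s := (le_max_left _ _).trans hs
  have hs2 : 2 * (m : ℝ) * g + 2 * g + 2 ≤ s := (le_max_right _ _).trans hs
  have hm0 : (0 : ℝ) ≤ m := Nat.cast_nonneg m
  have hg0 : (0 : ℝ) ≤ g := Nat.cast_nonneg g
  have hmg0 : (0 : ℝ) ≤ (m : ℝ) * g := mul_nonneg hm0 hg0
  have hs1' : 1 < s := by linarith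
  have hs0 : 0 < s := by linarith
  have hlog : E / θ + 1 ≤ Real.log s := by
    rw [Real.le_log_iff_exp_le hs0]
    exact hs1
  have hlog0 : 0 < Real.log s := Real.log_pos hs1'
  -- the primes in `PS W R` are larger than `s`
  have hPS : ∀ p ∈ PS W R, p.Prime ∧ ¬ p ∣ W ∧ s < (p : ℝ) := by
    intro p hp
    unfold PS at hp
    rw [mem_filter] at hp
    refine ⟨hp.2.1, hp.2.2, ?_⟩
    by_contra h
    exact hp.2.2 (hWs p hp.2.1 (not_lt.1 h))
  set a : ℕ → ℝ := fun p => 1 - (rhoT F W b t p : ℝ) / p with ha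
  set x : ℕ → ℝ := fun p => (rt F p : ℝ) / p with hxdef
  set bb : ℕ → ℝ := fun p => (1 - x p) ^ m with hb
  obtain ⟨Δ, hΔ⟩ := hF.coll
  -- the differences
  set hh : Fin m × Fin m → ℕ := fun q => W * ((t q.1 : ℤ) - (t q.2 : ℤ)).natAbs with hhh
  have hhpos : ∀ q ∈ (univ : Finset (Fin m)).offDiag, g ≤ hh q ∧ 1 ≤ hh q ∧ hh q ≤ W * N := by
    intro q hq
    rw [mem_offDiag] at hq
    have h1 : 1 ≤ ((t q.1 : ℤ) - (t q.2 : ℤ)).natAbs := by
      rw [Nat.one_le_iff_ne_zero]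
      intro h
      apply hq.2.2
      apply ht
      omega
    have h2 : ((t q.1 : ℤ) - (t q.2 : ℤ)).natAbs ≤ N := by
      have := ht1 q.1
      have := ht1 q.2
      omega
    refine ⟨?_, ?_, ?_⟩
    · calc g ≤ W := hgW
        _ = W * 1 := (mul_one W).symm
        _ ≤ _ := Nat.mul_le_mul_left W h1
    · calc 1 ≤ W := hW1
        _ = W * 1 := (mul_one W).symm
        _ ≤ _ := Nat.mul_le_mul_left W h1
    · exact Nat.mul_le_mul_left W h2
  set D : ℕ := ∏ q ∈ (univ : Finset (Fin m)).offDiag, Δ (hh q) with hD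
  have hD0 : D ≠ 0 := by
    rw [hD, Finset.prod_ne_zero_iff]
    intro q hq
    have := (hΔ (hh q) (hhpos q hq).1).1
    omega
  have hlogD : Real.log D ≤ Q * (m : ℝ) ^ 2 * g * s := by
    rw [hD, Nat.cast_prod, Real.log_prod]
    · have h1 : ∀ q ∈ (univ : Finset (Fin m)).offDiag, Real.log (Δ (hh q)) ≤ g * (Q * s) := by
        intro q hq
        obtain ⟨q1, q2, q3⟩ := hhpos q hq
        obtain ⟨h2, h3, _⟩ := hΔ (hh q) q1
        have h4 : Δ (hh q) ≤ (W * N) ^ g := h3.trans (Nat.pow_le_pow_left q3 g)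
        have h5 : Real.log (Δ (hh q)) ≤ Real.log (((W * N) ^ g : ℕ) : ℝ) := by
          apply Real.log_le_log
          · exact_mod_cast h2
          · exact_mod_cast h4
        refine h5.trans ?_
        push_cast
        rw [Real.log_pow]
        apply mul_le_mul_of_nonneg_left hWN hg0
      calc ∑ q ∈ (univ : Finset (Fin m)).offDiag, Real.log (Δ (hh q))
          ≤ ∑ _q ∈ (univ : Finset (Fin m)).offDiag, (g : ℝ) * (Q * s) := Finset.sum_le_sum h1
        _ = ((univ : Finset (Fin m)).offDiag.card : ℝ) * (g * (Q * s)) := by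
            rw [Finset.sum_const, nsmul_eq_mul]
        _ ≤ (m : ℝ) ^ 2 * (g * (Q * s)) := by
            apply mul_le_mul_of_nonneg_right _ (by positivity)
            rw [offDiag_card]
            simp only [card_univ, Fintype.card_fin]
            have : m * m - m ≤ m ^ 2 := by
              rw [sq]; omega
            exact_mod_cast this
        _ = _ := by ring
    · intro q hq
      have := (Finset.prod_ne_zero_iff.1 hD0) q hq
      exact_mod_cast this
  -- bounds for the factors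
  have hx : ∀ p ∈ PS W R, 0 ≤ x p ∧ x p ≤ g / p ∧ x p ≤ 1 / 2 ∧ (m : ℝ) * x p ≤ 1 / 2 := by
    intro p hp
    obtain ⟨h1, h2, h3⟩ := hPS p hp
    have hp0 : (0 : ℝ) < p := by linarith
    have hr : (rt F p : ℝ) ≤ g := by exact_mod_cast (hF.root p h1).1
    have hr0 : (0 : ℝ) ≤ rt F p := Nat.cast_nonneg _
    have hxp : x p ≤ g / p := div_le_div_of_nonneg_right hr hp0.le
    refine ⟨div_nonneg hr0 hp0.le, hxp, ?_, ?_⟩
    · refine hxp.trans ?_
      rw [div_le_iff₀ hp0]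
      linarith
    · calc (m : ℝ) * x p ≤ m * (g / p) := mul_le_mul_of_nonneg_left hxp hm0
        _ = (m * g) / p := by ring
        _ ≤ 1 / 2 := by
          rw [div_le_iff₀ hp0]
          linarith
  have hb1 : ∀ p ∈ PS W R, 1 - (m : ℝ) * x p ≤ bb p := by
    intro p hp
    obtain ⟨h0, _, h1, h2⟩ := hx p hp
    have := one_add_mul_le_pow (a := -(x p)) (by linarith) m
    simp only [hb]
    calc 1 - (m : ℝ) * x p = 1 + (m : ℝ) * (-(x p)) := by ring
      _ ≤ (1 + -(x p)) ^ m := this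
      _ = (1 - x p) ^ m := by ring
  have hb2 : ∀ p ∈ PS W R, 1 / 2 ≤ bb p := by
    intro p hp
    have := (hx p hp).2.2.2
    have := hb1 p hp
    linarith
  have hb3 : ∀ p ∈ PS W R, bb p ≤ 1 - (m : ℝ) * x p + (m : ℝ) ^ 2 * (x p) ^ 2 := by
    intro p hp
    obtain ⟨h0, _, h1, h2⟩ := hx p hp
    exact pow_le_quad m (x p) h0 (by linarith)
  have hb4 : ∀ p ∈ PS W R, bb p ≤ 1 := by
    intro p hp
    obtain ⟨h0, _, h1, h2⟩ := hx p hp
    simp only [hb]
    exact pow_le_one₀ (by linarith) (by linarith)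
  have ha1 : ∀ p ∈ PS W R, 1 - (m : ℝ) * x p ≤ a p ∧ a p ≤ 1 := by
    intro p hp
    obtain ⟨h1, h2, h3⟩ := hPS p hp
    have hp0 : (0 : ℝ) < p := by linarith
    have hr : (rhoT F W b t p : ℝ) ≤ m * rt F p := by
      exact_mod_cast rhoT_le h1 (hF.per p h1) W b t h2
    have hr0 : (0 : ℝ) ≤ rhoT F W b t p := Nat.cast_nonneg _
    simp only [ha, hxdef]
    constructor
    · have : (rhoT F W b t p : ℝ) / p ≤ (m * rt F p) / p := div_le_div_of_nonneg_right hr hp0.le
      rw [mul_div_assoc] at this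
      linarith
    · have := div_nonneg hr0 hp0.le
      linarith
  have ha2 : ∀ p ∈ PS W R, ¬ p ∣ D → a p = 1 - (m : ℝ) * x p := by
    intro p hp hd
    obtain ⟨hp1, hp2, hp3⟩ := hPS p hp
    have hr : rhoT F W b t p = m * rt F p := by
      apply rhoT_eq hp1 (hF.per p hp1) W b t hp2
      intro i j hij r h1 h2
      apply hd
      have hq : (i, j) ∈ (univ : Finset (Fin m)).offDiag := by
        rw [mem_offDiag]; exact ⟨mem_univ _, mem_univ _, hij⟩
      have hΔd : p ∣ Δ (hh (i, j)) := by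
        obtain ⟨q1, q2, q3⟩ := hhpos (i, j) hq
        obtain ⟨_, _, h3⟩ := hΔ (hh (i, j)) q1
        rcases le_total (t i) (t j) with hle | hle
        · apply h3 p hp1 _ h1
          have e : ((W * (r + t i) + b : ℕ) : ℤ) + (hh (i, j) : ℤ) =
              ((W * (r + t j) + b : ℕ) : ℤ) := by
            simp only [hhh]
            have e1 : ((((t i : ℤ) - (t j : ℤ)).natAbs : ℕ) : ℤ) = (t j : ℤ) - t i := by omega
            push_cast [e1]
            ring
          rw [e]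
          exact h2
        · apply h3 p hp1 _ h2
          have e : ((W * (r + t j) + b : ℕ) : ℤ) + (hh (i, j) : ℤ) =
              ((W * (r + t i) + b : ℕ) : ℤ) := by
            simp only [hhh]
            have e1 : ((((t i : ℤ) - (t j : ℤ)).natAbs : ℕ) : ℤ) = (t i : ℤ) - t j := by omega
            push_cast [e1]
            ring
          rw [e]
          exact h1
      exact hΔd.trans (Finset.dvd_prod_of_mem (fun q => Δ (hh q)) hq)
    simp only [ha, hr, hxdef]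
    push_cast
    ring
  -- the relative error
  set f : ℕ → ℝ := fun p => a p / bb p - 1 with hf
  have hbpos : ∀ p ∈ PS W R, 0 < bb p := fun p hp => by
    have := hb2 p hp
    linarith
  have hf1 : ∀ p ∈ PS W R, |f p| ≤ 2 * |a p - bb p| := by
    intro p hp
    have h0 := hbpos p hp
    have h1 : f p = (a p - bb p) / bb p := by
      simp only [hf]
      field_simp
    rw [h1, abs_div, abs_of_pos h0, div_le_iff₀ h0]
    have h2 := hb2 p hp
    have h3 := abs_nonneg (a p - bb p)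
    nlinarith
  have hf2 : ∀ p ∈ PS W R, |f p| ≤ 2 * (m : ℝ) ^ 2 * (g : ℝ) ^ 2 * (1 / (p : ℝ) ^ 2) +
      (if p ∣ D then 2 * (m : ℝ) * g * (1 / p) else 0) := by
    intro p hp
    obtain ⟨h0, hg1, h1, h2⟩ := hx p hp
    have hp0 : (0 : ℝ) < p := by have := (hPS p hp).2.2; linarith
    have e1 := hb1 p hp
    have e3 := hb3 p hp
    have e4 := hb4 p hp
    obtain ⟨e5, e6⟩ := ha1 p hp
    refine (hf1 p hp).trans ?_
    have hsq : (m : ℝ) ^ 2 * (x p) ^ 2 ≤ (m : ℝ) ^ 2 * (g : ℝ) ^ 2 * (1 / (p : ℝ) ^ 2) := by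
      have : (x p) ^ 2 ≤ (g / p : ℝ) ^ 2 := pow_le_pow_left₀ h0 hg1 2
      calc (m : ℝ) ^ 2 * (x p) ^ 2 ≤ (m : ℝ) ^ 2 * (g / p : ℝ) ^ 2 :=
            mul_le_mul_of_nonneg_left this (by positivity)
        _ = _ := by ring
    split_ifs with hd
    · have h3 : |a p - bb p| ≤ (m : ℝ) * x p := by
        rw [abs_le]
        constructor <;> linarith
      have h4 : 0 ≤ 2 * (m : ℝ) ^ 2 * (g : ℝ) ^ 2 * (1 / (p : ℝ) ^ 2) := by positivity
      have h5 : (m : ℝ) * x p ≤ m * g * (1 / p) := by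
        calc (m : ℝ) * x p ≤ m * (g / p) := mul_le_mul_of_nonneg_left hg1 hm0
          _ = _ := by ring
      linarith
    · have e7 := ha2 p hp hd
      have h3 : |a p - bb p| ≤ (m : ℝ) ^ 2 * (x p) ^ 2 := by
        rw [abs_le]
        constructor
        · linarith
        · have : 0 ≤ (m : ℝ) ^ 2 * (x p) ^ 2 := by positivity
          linarith
      linarith
  have hsum : ∑ p ∈ PS W R, ‖f p‖ ≤ θ := by
    have h1 : ∑ p ∈ PS W R, ‖f p‖ ≤ ∑ p ∈ PS W R, (2 * (m : ℝ) ^ 2 * (g : ℝ) ^ 2 *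
        (1 / (p : ℝ) ^ 2) + (if p ∣ D then 2 * (m : ℝ) * g * (1 / p) else 0)) := by
      apply Finset.sum_le_sum
      intro p hp
      rw [Real.norm_eq_abs]
      exact hf2 p hp
    rw [Finset.sum_add_distrib, ← Finset.mul_sum, ← Finset.sum_filter, ← Finset.mul_sum] at h1
    have h2 : ∑ p ∈ PS W R, (1 : ℝ) / (p : ℝ) ^ 2 ≤ 2 / s :=
      sum_inv_sq_le hs1' _ (fun p hp => (hPS p hp).2.2)
    have h3 : ∑ p ∈ (PS W R).filter (fun p => p ∣ D), (1 : ℝ) / p ≤
        Real.log D / (s * Real.log s) := by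
      apply sum_inv_le hs1' D hD0
      intro p hp
      rw [mem_filter] at hp
      exact ⟨(hPS p hp.1).1, (hPS p hp.1).2.2, hp.2⟩
    have h4 : Real.log D / (s * Real.log s) ≤ (Q * (m : ℝ) ^ 2 * g) / Real.log s := by
      rw [div_le_div_iff₀ (by positivity) hlog0]
      calc Real.log D * Real.log s ≤ (Q * (m : ℝ) ^ 2 * g * s) * Real.log s :=
            mul_le_mul_of_nonneg_right hlogD hlog0.le
        _ = _ := by ring
    have h5 : 2 / s ≤ 2 / Real.log s := by
      apply div_le_div_of_nonneg_left (by norm_num) hlog0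
      have := Real.log_le_sub_one_of_pos hs0
      linarith
    have h6 : 2 * (m : ℝ) ^ 2 * (g : ℝ) ^ 2 * (∑ p ∈ PS W R, (1 : ℝ) / (p : ℝ) ^ 2) ≤
        2 * (m : ℝ) ^ 2 * (g : ℝ) ^ 2 * (2 / Real.log s) :=
      mul_le_mul_of_nonneg_left (h2.trans h5) (by positivity)
    have h7 : 2 * (m : ℝ) * g * (∑ p ∈ (PS W R).filter (fun p => p ∣ D), (1 : ℝ) / p) ≤
        2 * (m : ℝ) * g * ((Q * (m : ℝ) ^ 2 * g) / Real.log s) :=
      mul_le_mul_of_nonneg_left (h3.trans h4) (by positivity)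
    have h8 : 2 * (m : ℝ) ^ 2 * (g : ℝ) ^ 2 * (2 / Real.log s) +
        2 * (m : ℝ) * g * ((Q * (m : ℝ) ^ 2 * g) / Real.log s) = E / Real.log s := by
      rw [hE]
      field_simp
      ring
    have h9 : E / Real.log s ≤ θ := by
      rw [div_le_iff₀ hlog0, mul_comm θ]
      rw [← div_le_iff₀ hθ0]
      linarith
    linarith
  have hprod1 : ∏ p ∈ PS W R, (1 + f p) = (∏ p ∈ PS W R, a p) / ∏ p ∈ PS W R, bb p := by
    rw [← Finset.prod_div_distrib]
    apply Finset.prod_congr rfl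
    intro p _
    simp only [hf]
    ring
  have hprodb : ∏ p ∈ PS W R, bb p = V F W R ^ m := by
    unfold V
    rw [← Finset.prod_pow]
  have hpos : 0 < V F W R ^ m := by
    rw [← hprodb]
    exact Finset.prod_pos hbpos
  have hnorm := Finset.norm_prod_one_add_sub_one_le (PS W R) f
  rw [hprod1, hprodb, Real.norm_eq_abs] at hnorm
  have hexp : Real.exp (∑ p ∈ PS W R, ‖f p‖) - 1 ≤ η := by
    have : Real.exp (∑ p ∈ PS W R, ‖f p‖) ≤ Real.exp θ := Real.exp_le_exp.2 hsum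
    rw [hθ, Real.exp_log (by linarith)] at this
    linarith
  have hfin : |∏ p ∈ PS W R, a p - V F W R ^ m| =
      |(∏ p ∈ PS W R, a p) / V F W R ^ m - 1| * V F W R ^ m := by
    rw [← abs_of_pos hpos, ← abs_mul, abs_of_pos hpos, sub_mul, one_mul,
      div_mul_cancel₀ _ hpos.ne']
  change |∏ p ∈ PS W R, a p - V F W R ^ m| ≤ η * V F W R ^ m
  rw [hfin]
  exact mul_le_mul_of_nonneg_right (hnorm.trans hexp) hpos.le

end Pool.Agent.H534.RS
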