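import Pool.Agent.H534.RS.EngC
import Pool.Agent.H534.RS.MajW

/-!
# The engine, part D: one class, the solutions
-/

set_option autoImplicit false

open Finset

namespace Pool.Agent.H534.RS

open Pool.Agent.H602R3.DHJ
open Pool.Agent.TH423.SH (PS)
open Pool.Agent.Y727.PSP (sw sl Ind LF rp rp_pos rp_le rp_cast rp_of sum_rp LF_mono)
open Pool.Agent.Y677.RSZ

open Classical in
/-- the solutions with the difference `e` -/
noncomputable def sol (A : Finset ℕ) (W : ℕ) {r : ℕ} (b : Fin r → ℕ) (e : ℤ) : Finset ℕ :=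
  A.filter (fun n => ∀ l, ∃ n' ∈ A, (n' : ℤ) = n + W * b l * e)

open Classical in
theorem sol_ge (ν : ℕ → ℝ) (A : Finset ℕ) (W M₀ L N' : ℕ) {r : ℕ} (b : Fin r → ℕ)
    (v : ℝ) (hv : 0 < v) (hA0 : 0 ∉ A) (hA : ∀ n ∈ A, ν n * v ≤ 1) (hν : ∀ n, 0 ≤ ν n) (Bs : Finset ℕ)
    (hBs : ∀ b₀ ∈ Bs, b₀ < W) (e : ℤ) :
    (∑ b₀ ∈ Bs, CC ν A W b₀ M₀ L N' b e) * v ^ (r + 1) ≤ ((sol A W b e).card : ℝ) := by
  have h1 : ∀ b₀ ∈ Bs, CC ν A W b₀ M₀ L N' b e * v ^ (r + 1) ≤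
      ∑ m ∈ Ioc M₀ (M₀ + L + N'), (if ∀ a : Fin (r + 1), ((W : ℤ) * ((m : ℤ) + bb b a * e) + b₀).toNat ∈ A then (1 : ℝ) else 0) := by
    intro b₀ _
    unfold CC
    rw [sum_mul]
    apply sum_le_sum
    intro m _
    by_cases h : ∀ a : Fin (r + 1), ((W : ℤ) * ((m : ℤ) + bb b a * e) + b₀).toNat ∈ A
    · rw [if_pos h]
      have e1 : v ^ (r + 1) = ∏ _a : Fin (r + 1), v := by rw [prod_const, card_univ, Fintype.card_fin]
      rw [e1, ← prod_mul_distrib]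
      apply prod_le_one
      · intro a _
        exact mul_nonneg (GG_nonneg ν hν A W b₀ _) hv.le
      · intro a _
        unfold GG
        rw [if_pos (h a)]
        exact hA _ (h a)
    · rw [if_neg h]
      push Not at h
      obtain ⟨a, ha⟩ := h
      have : GG ν A W b₀ ((m : ℤ) + bb b a * e) = 0 := by
        unfold GG
        rw [if_neg ha]
      rw [prod_eq_zero (mem_univ a) this, zero_mul]
  rw [sum_mul]
  refine (sum_le_sum h1).trans ?_
  have h2 : ∑ b₀ ∈ Bs, ∑ m ∈ Ioc M₀ (M₀ + L + N'),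
      (if ∀ a : Fin (r + 1), ((W : ℤ) * ((m : ℤ) + bb b a * e) + b₀).toNat ∈ A then (1 : ℝ) else 0) =
      (((Bs ×ˢ Ioc M₀ (M₀ + L + N')).filter (fun p => ∀ a : Fin (r + 1),
        ((W : ℤ) * ((p.2 : ℤ) + bb b a * e) + p.1).toNat ∈ A)).card : ℝ) := by
    rw [card_filter, sum_product]
    push_cast
    rfl
  rw [h2]
  have h3 : ((Bs ×ˢ Ioc M₀ (M₀ + L + N')).filter (fun p => ∀ a : Fin (r + 1),
        ((W : ℤ) * ((p.2 : ℤ) + bb b a * e) + p.1).toNat ∈ A)).card ≤ (sol A W b e).card := by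
    apply card_le_card_of_injOn (fun p => W * p.2 + p.1)
    · intro p hp
      rw [mem_coe, mem_filter] at hp
      rw [mem_coe]
      unfold sol
      have e0 : (W : ℤ) * ((p.2 : ℤ) + bb b 0 * e) + p.1 = ((W * p.2 + p.1 : ℕ) : ℤ) := by
        have : bb b 0 = 0 := rfl
        rw [this]
        push_cast
        ring
      rw [mem_filter]
      refine ⟨?_, fun l => ?_⟩
      · have := hp.2 0
        rw [e0, Int.toNat_natCast] at this
        exact this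
      · refine ⟨_, hp.2 l.succ, ?_⟩
        have h4 := hp.2 l.succ
        have h5 : ((W : ℤ) * ((p.2 : ℤ) + bb b l.succ * e) + p.1).toNat ≠ 0 := fun h => hA0 (h ▸ h4)
        have e1 : bb b l.succ = b l := rfl
        rw [e1] at h4 h5 ⊢
        rw [Int.toNat_of_nonneg (by omega)]
        push_cast
        ring
    · intro p hp q hq h
      rw [mem_coe, mem_filter, mem_product] at hp hq
      simp only at h
      have hp1 := hBs _ hp.1.1
      have hq1 := hBs _ hq.1.1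
      have h6 : p.1 = q.1 := by
        have := congrArg (· % W) h
        simp only [Nat.mul_add_mod, Nat.mod_eq_of_lt hp1, Nat.mod_eq_of_lt hq1] at this
        exact this
      have h7 : p.2 = q.2 := by
        have h8 : W * p.2 = W * q.2 := by omega
        exact Nat.eq_of_mul_eq_mul_left (by omega) h8
      exact Prod.ext h6 h7
  exact_mod_cast h3

open Classical in
/-- one class -/
theorem cls (r : ℕ) (ν : ℕ → ℝ) (A : Finset ℕ) (Y H W b₀ M₀ L N' N : ℕ) [NeZero N] (b : Fin r → ℕ)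
    (c v κ δ η cR ηR : ℝ) (hν : ∀ n, 0 ≤ ν n) (hW : 1 ≤ W) (hb₀ : b₀ < W) (hA : A ⊆ Ioc Y (Y + H))
    (hM : M₀ = Y / W) (hL : L + N' + 1 = H / W) (hL1 : 1 ≤ L) (hN : 12 ≤ N) (hN' : (∑ l, b l) * N ≤ N')
    (hv : 0 < v) (hc : 0 < c) (hκ : 0 < κ) (hνA : ∀ n ∈ A, c ≤ ν n * v)
    (hAb : κ * (H / W * v) ≤ ((A.filter (fun n => n % W = b₀)).card : ℝ))
    (hbig : 2 * ((N' : ℝ) + 4) ≤ κ * (H / W * v)) (hδ : 0 < δ) (hδ2 : 8 * 4 ^ r * δ ≤ c * κ)
    (h4 : η ≤ δ / 2) (h5 : η ≤ ηR) (hcR : 0 < cR)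
    (hRC : ∀ ν f : (Fin r → ZMod N) → ℝ, (∀ a, 0 ≤ f a ∧ f a ≤ ν a) →
      LF (fun (j : Option (Fin r)) (x : Option (Fin r) → ZMod N) => ν (P j x)) ηR → BX ν ηR →
      δ ≤ av f → cR ≤ av (fun x : Option (Fin r) → ZMod N => ∏ j, f (P j x)))
    (h1 : ∑ K ∈ Ioc M₀ (M₀ + L), |av (fun y : Fin r → ZMod N => ν (W * (K + tau b y) + b₀)) - 1| ≤ η * L)
    (h3 : (((Ioc M₀ (M₀ + L)).filter (fun K => ¬ (LF (fun (j : Option (Fin r)) (x : Option (Fin r) → ZMod N) =>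
      ν (W * (K + tau b (P j x)) + b₀)) η ∧ BX (fun y : Fin r → ZMod N => ν (W * (K + tau b y) + b₀)) η))).card : ℝ) ≤ η * L) :
    cR * δ * L ≤ av (fun d : ZMod N => CC ν A W b₀ M₀ L N' b d.valMinAbs) := by
  refine le_trans ?_ (sum_av_le ν hν A W b₀ M₀ L N' b hN')
  obtain ⟨Bd, hBd⟩ : ∃ Bd : Finset ℕ, Bd = (Ioc M₀ (M₀ + L)).filter (fun K => ¬ (LF (fun (j : Option (Fin r))
    (x : Option (Fin r) → ZMod N) => ν (W * (K + tau b (P j x)) + b₀)) η ∧
      BX (fun y : Fin r → ZMod N => ν (W * (K + tau b y) + b₀)) η)) := ⟨_, rfl⟩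
  rw [← hBd] at h3
  have hg := good_sum ν A Y H W b₀ M₀ L N' r N b c v κ δ η Bd hν hW hb₀ hA hM hL hL1 hN hN' hv hc hκ hνA
    hAb hbig hδ hδ2 h1 (by rw [hBd]; exact filter_subset _ _) h3 h4
  obtain ⟨Gd, hGd⟩ : ∃ Gd : Finset ℕ, Gd = (Ioc M₀ (M₀ + L) \ Bd).filter
    (fun K => δ ≤ av (fun y : Fin r → ZMod N => fK ν A W b₀ b K y)) := ⟨_, rfl⟩
  rw [← hGd] at hg
  have hsub : Gd ⊆ Ioc M₀ (M₀ + L) := by
    rw [hGd]
    exact (filter_subset _ _).trans sdiff_subset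
  calc cR * δ * L = cR * (δ * L) := by ring
    _ ≤ cR * Gd.card := by gcongr
    _ = ∑ K ∈ Gd, cR := by rw [sum_const, nsmul_eq_mul, mul_comm]
    _ ≤ ∑ K ∈ Gd, av (fun x : Option (Fin r) → ZMod N => ∏ j, fK ν A W b₀ b K (P j x)) := by
        apply sum_le_sum
        intro K hK
        rw [hGd, mem_filter, mem_sdiff, hBd, mem_filter, not_and, not_not] at hK
        have h6 := hK.1.2 hK.1.1
        apply hRC (fun y => ν (W * (K + tau b y) + b₀)) _
          (fun y => ⟨fK_nonneg ν hν A W b₀ b K y, fK_le ν hν A W b₀ b K y⟩) (LF_mono h6.1 h5)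
          (fun S => (h6.2 S).trans h5) hK.2
    _ ≤ _ := sum_le_sum_of_subset_of_nonneg hsub (fun K _ _ => av_nonneg fun x =>
        prod_nonneg fun j _ => fK_nonneg ν hν A W b₀ b K _)

/-- the counting of the good differences -/
theorem final_count {N : ℕ} [NeZero N] (f : ZMod N → ℝ) (L c₂ : ℝ) (hL : 0 < L) (hc₂ : 0 < c₂)
    (hf : ∀ d, 0 ≤ f d) (h0 : f 0 ≤ c₂ / 4 * L * N) (hup : ∀ d, d ≠ 0 → f d ≤ 3 * L) (hlow : c₂ * L ≤ av f) :
    c₂ / 6 * N ≤ ((univ.filter (fun d : ZMod N => d ≠ 0 ∧ c₂ / 4 * L ≤ f d)).card : ℝ) := by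
  classical
  have hN0 : (0 : ℝ) < N := by
    have := Nat.pos_of_ne_zero (NeZero.ne N)
    exact_mod_cast this
  unfold av at hlow
  rw [ZMod.card, le_div_iff₀ hN0] at hlow
  have h1 : ∑ d : ZMod N, f d ≤ f 0 + ∑ d : ZMod N, ((if d ≠ 0 ∧ c₂ / 4 * L ≤ f d then 3 * L else 0) + c₂ / 4 * L) := by
    rw [← add_sum_erase univ f (mem_univ 0)]
    apply add_le_add le_rfl
    refine (sum_le_sum (g := fun d => ((if d ≠ 0 ∧ c₂ / 4 * L ≤ f d then 3 * L else 0) + c₂ / 4 * L)) ?_).trans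
      (sum_le_sum_of_subset_of_nonneg (erase_subset _ _) ?_)
    · intro d hd
      rw [mem_erase] at hd
      beta_reduce
      by_cases h : c₂ / 4 * L ≤ f d
      · rw [if_pos ⟨hd.1, h⟩]
        have := hup d hd.1
        have : 0 ≤ c₂ / 4 * L := by positivity
        linarith
      · rw [if_neg (fun h2 => h h2.2), zero_add]
        exact (not_le.1 h).le
    · intro d _ _
      split_ifs <;> positivity
  rw [sum_add_distrib, ← sum_filter, sum_const, sum_const, nsmul_eq_mul, nsmul_eq_mul, card_univ, ZMod.card] at h1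
  have h2 : c₂ / 2 * L * N ≤ ((univ.filter (fun d : ZMod N => d ≠ 0 ∧ c₂ / 4 * L ≤ f d)).card : ℝ) * (3 * L) := by
    linarith
  have h3 : (c₂ / 6 * N) * (3 * L) ≤ ((univ.filter (fun d : ZMod N => d ≠ 0 ∧ c₂ / 4 * L ≤ f d)).card : ℝ) * (3 * L) := by
    linarith
  exact le_of_mul_le_mul_right h3 (by positivity)

end Pool.Agent.H534.RS
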