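import Pool.Agent.H534.RS.RCp

/-!
# The relative multidimensional Szemerédi theorem with a nonnegative difference
-/

set_option autoImplicit false

open Finset

namespace Pool.Agent.H534.RS

open Pool.Agent.H602R3.DHJ
open Pool.Agent.Y727.PSP (sw sl Ind LF Cut S_CS S_SLF S_CNT S_DMT av_sl rp rp_pos rp_le rp_cast rp_of)

open Classical in
/-- the indicator of the nonnegative differences -/
noncomputable def sg {N : ℕ} (d : ZMod N) : ℝ := if 0 ≤ d.valMinAbs then 1 else 0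

theorem sg_eq {N : ℕ} (d : ZMod N) : sg d = 0 ∨ sg d = 1 ∧ 0 ≤ d.valMinAbs := by
  unfold sg
  split_ifs with h
  · exact Or.inr ⟨rfl, h⟩
  · exact Or.inl rfl

theorem sg01 {N : ℕ} (d : ZMod N) : 0 ≤ sg d ∧ sg d ≤ 1 := by
  rcases sg_eq d with h | h
  · rw [h]; norm_num
  · rw [h.1]; norm_num

theorem sg_neg {N : ℕ} [NeZero N] (d : ZMod N) : 1 ≤ sg d + sg (-d) := by
  have h0 := sg01 d
  have h1 := sg01 (-d)
  by_cases h : 0 ≤ d.valMinAbs
  · have : sg d = 1 := by unfold sg; rw [if_pos h]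
    linarith
  · have h5 : (-d).valMinAbs = -d.valMinAbs := by
      rw [ZMod.valMinAbs_spec]
      have := ZMod.valMinAbs_mem_Ioc d
      rw [Set.mem_Ioc] at this ⊢
      refine ⟨by simp, ?_, ?_⟩ <;> omega
    have : sg (-d) = 1 := by unfold sg; rw [if_pos (by omega)]
    linarith

/-- the relative theorem with a nonnegative difference -/
theorem rcN (r : ℕ) (hr : 1 ≤ r) (δ : ℝ) (hδ : 0 < δ) : ∃ (c η : ℝ) (N₀ : ℕ), 0 < c ∧ 0 < η ∧
    ∀ (N : ℕ) [NeZero N], N₀ ≤ N → ∀ ν f : (Fin r → ZMod N) → ℝ, (∀ a, 0 ≤ f a ∧ f a ≤ ν a) →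
      (∀ a, ¬ bx a → f a = 0) →
      LF (fun (j : Option (Fin r)) (x : Option (Fin r) → ZMod N) => ν (P j x)) η → BX ν η →
      δ ≤ av f → c ≤ av (fun p : (Fin r → ZMod N) × ZMod N => sg p.2 *
        ∏ a : Fin (r + 1), f (p.1 + ch r N a p.2)) := by
  classical
  rcases Nat.lt_or_ge r 2 with h2 | h2
  · have hr1 : r = 1 := by omega
    subst hr1
    obtain ⟨c, η, hc, hη, h⟩ := rc 1 le_rfl δ hδ
    refine ⟨c / 2, η, 0, by positivity, hη, ?_⟩
    intro N _ _ ν f hf _ hLF hBX hav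
    have h1 := h N ν f hf hLF hBX hav
    have h3 : av (fun x : Option (Fin 1) → ZMod N => ∏ j, f (P j x)) =
        av (fun p : (Fin 1 → ZMod N) × ZMod N => ∏ a : Fin (1 + 1), f (p.1 + ch 1 N a p.2)) := by
      rw [← Pool.Agent.Y727.PSP.av_hom (Sh 1 N) (Sh_surj 1 N)]
      congr 1
      funext x
      exact prod_P x f
    rw [h3] at h1
    obtain ⟨G, hG⟩ : ∃ G : (Fin 1 → ZMod N) × ZMod N → ℝ, G = fun p => sg p.2 *
      ∏ a : Fin (1 + 1), f (p.1 + ch 1 N a p.2) := ⟨_, rfl⟩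
    rw [← hG]
    let e : (Fin 1 → ZMod N) × ZMod N ≃ (Fin 1 → ZMod N) × ZMod N :=
      { toFun := fun p => (p.1 + ch 1 N 1 p.2, -p.2)
        invFun := fun p => (p.1 + ch 1 N 1 p.2, -p.2)
        left_inv := fun p => by
          show (p.1 + ch 1 N 1 p.2 + ch 1 N 1 (-p.2), - -p.2) = p
          rw [map_neg, neg_neg, add_neg_cancel_right]
        right_inv := fun p => by
          show (p.1 + ch 1 N 1 p.2 + ch 1 N 1 (-p.2), - -p.2) = p
          rw [map_neg, neg_neg, add_neg_cancel_right] }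
    have h4 : av (fun p => G (e p)) = av G := av_equiv e G
    have h5 : ∀ p : (Fin 1 → ZMod N) × ZMod N, ∏ a : Fin (1 + 1), f (p.1 + ch 1 N a p.2) ≤ G p + G (e p) := by
      intro p
      have e1 : ∀ p : (Fin 1 → ZMod N) × ZMod N, ∏ a : Fin (1 + 1), f (p.1 + ch 1 N a p.2) =
          f p.1 * f (p.1 + ch 1 N 1 p.2) := by
        intro p
        rw [Fin.prod_univ_two]
        have e0 : ch 1 N 0 = 0 := rfl
        rw [e0, AddMonoidHom.zero_apply, add_zero]
      rw [hG]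
      beta_reduce
      rw [e1 p, e1 (e p)]
      show _ ≤ sg p.2 * _ + sg (-p.2) * (f (p.1 + ch 1 N 1 p.2) * f (p.1 + ch 1 N 1 p.2 + ch 1 N 1 (-p.2)))
      rw [map_neg, add_neg_cancel_right, mul_comm (f (p.1 + ch 1 N 1 p.2)), ← add_mul]
      exact le_mul_of_one_le_left (mul_nonneg (hf _).1 (hf _).1) (sg_neg p.2)
    have h6 := h1.trans (av_mono h5)
    rw [av_add, h4] at h6
    linarith
  · obtain ⟨c, η, N₀, hc, hη, h⟩ := rcP r h2 δ hδ
    refine ⟨c, η, N₀, hc, hη, ?_⟩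
    intro N _ hN ν f hf hfb hLF hBX hav
    refine (h N hN ν f hf hfb hLF hBX hav).trans (av_mono fun p => ?_)
    apply mul_le_mul_of_nonneg_right _ (prod_nonneg fun a _ => (hf _).1)
    unfold sg
    split_ifs with h3 h4
    · exact le_rfl
    · exact absurd h3.le h4
    · norm_num
    · exact le_rfl

theorem sum_av_leP (ν : ℕ → ℝ) (hν : ∀ n, 0 ≤ ν n) (A : Finset ℕ) (W b₀ M₀ L N' : ℕ) {r N : ℕ} [NeZero N]
    (b : Fin r → ℕ) (hN' : (∑ l, b l) * N ≤ N') :
    ∑ K ∈ Ioc M₀ (M₀ + L), av (fun p : (Fin r → ZMod N) × ZMod N => sg p.2 *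
      ∏ a : Fin (r + 1), fK ν A W b₀ b K (p.1 + ch r N a p.2)) ≤
      av (fun d : ZMod N => sg d * CC ν A W b₀ M₀ L N' b d.valMinAbs) := by
  have h1 : ∀ K, av (fun p : (Fin r → ZMod N) × ZMod N => sg p.2 *
      ∏ a : Fin (r + 1), fK ν A W b₀ b K (p.1 + ch r N a p.2)) =
      av (fun d : ZMod N => av (fun y : Fin r → ZMod N =>
        sg d * ∏ a : Fin (r + 1), fK ν A W b₀ b K (y + ch r N a d))) := by
    intro K
    rw [av_prod, av_comm]
  rw [sum_congr rfl fun K _ => h1 K, ← av_sum]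
  apply av_mono
  intro d
  rw [← av_sum]
  have h2 : ∀ y : Fin r → ZMod N, ∑ K ∈ Ioc M₀ (M₀ + L),
      sg d * ∏ a : Fin (r + 1), fK ν A W b₀ b K (y + ch r N a d) ≤ sg d * CC ν A W b₀ M₀ L N' b d.valMinAbs := by
    intro y
    rw [← mul_sum]
    apply mul_le_mul_of_nonneg_left _ (sg01 d).1
    refine (sum_le_sum fun K _ => prod_fK_le ν hν A W b₀ b K y d).trans ?_
    have ht : tau b y ≤ N' := (tau_le b y).trans hN'
    unfold CC
    have e : ∑ K ∈ Ioc M₀ (M₀ + L), ∏ a : Fin (r + 1), GG ν A W b₀ (((K + tau b y : ℕ) : ℤ) + bb b a * d.valMinAbs) =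
        ∑ m ∈ Ioc (M₀ + tau b y) (M₀ + L + tau b y), ∏ a : Fin (r + 1), GG ν A W b₀ ((m : ℤ) + bb b a * d.valMinAbs) := by
      rw [← Finset.map_add_right_Ioc, sum_map]
      rfl
    rw [e]
    apply sum_le_sum_of_subset_of_nonneg
    · intro m hm
      rw [mem_Ioc] at hm ⊢
      omega
    · intro m _ _
      exact prod_nonneg fun _ _ => GG_nonneg ν hν A W b₀ _
  refine (av_mono h2).trans (le_of_eq (av_const _))

end Pool.Agent.H534.RS
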