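import Pool.Agent.H534.RS.EngD
import Pool.Agent.H534.RS.RCn
import Pool.Graph.R_seed8.Y677.RSZ.Top

/-!
# The engine, part E: the theorem for one shape
-/

set_option autoImplicit false

open Finset

namespace Pool.Agent.H534.RS

open Pool.Agent.H602R3.DHJ
open Pool.Agent.TH423.SH (PS)
open Pool.Agent.Y727.PSP (sw sl Ind LF rp rp_pos rp_le rp_cast rp_of sum_rp LF_mono)
open Pool.Agent.Y677.RSZ

theorem Po_bd {r N : ℕ} [NeZero N] (hr : 1 ≤ r) (b : Fin r → ℕ) (hb1 : ∀ l, 1 ≤ b l) (t : ℕ)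
    (ht : t ∈ Po N b) : 1 ≤ t ∧ t ≤ (∑ l, b l) * N := by
  obtain ⟨y, rfl⟩ := ht
  refine ⟨?_, tau_le b y⟩
  show 1 ≤ tau b y
  unfold tau
  have h1 : b ⟨0, by omega⟩ * rp (y ⟨0, by omega⟩) ≤ ∑ l, b l * rp (y l) :=
    single_le_sum (f := fun l => b l * rp (y l)) (fun _ _ => Nat.zero_le _) (mem_univ _)
  have h2 := Nat.mul_pos (hb1 ⟨0, by omega⟩) (rp_pos (y ⟨0, by omega⟩))
  omega

/-- the windows lie in the interval -/
theorem win (Y H W b₀ M₀ L N' : ℕ) (hW : 1 ≤ W) (hb₀ : b₀ < W) (hM : M₀ = Y / W) (hL : L + N' + 1 = H / W)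
    (K : ℕ) (hK : K ∈ Ioc M₀ (M₀ + L)) (t : ℕ) (ht1 : 1 ≤ t) (ht2 : t ≤ N') :
    W * (K + t) + b₀ ∈ Ioc Y (Y + H) := by
  rw [mem_Ioc] at hK ⊢
  have h1 : W * (Y / W) ≤ Y := Nat.mul_div_le Y W
  have h2 : Y < W * (Y / W) + W := Nat.lt_mul_div_succ Y hW |>.trans_eq (by ring)
  have h3 : W * (H / W) ≤ H := Nat.mul_div_le H W
  constructor
  · have h4 : W * (M₀ + 2) ≤ W * (K + t) := Nat.mul_le_mul_left _ (by omega)
    have h5 : W * (M₀ + 2) = W * (Y / W) + W + W := by rw [hM]; ring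
    omega
  · have h4 : W * (K + t) ≤ W * (M₀ + L + N') := Nat.mul_le_mul_left _ (by omega)
    have h5 : W * (M₀ + L + N') + W = W * (Y / W) + W * (L + N' + 1) := by rw [hM]; ring
    rw [hL] at h5
    omega

open Classical in
/-- the solutions with the difference `d` -/
noncomputable def solN (A : Finset ℕ) (W : ℕ) {r : ℕ} (b : Fin r → ℕ) (d : ℕ) : Finset ℕ :=
  A.filter (fun n => ∀ l, n + W * b l * d ∈ A)

theorem sol_nat (A : Finset ℕ) (W : ℕ) {r : ℕ} (b : Fin r → ℕ) (d : ℕ) :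
    (sol A W b (d : ℤ)).card ≤ (solN A W b d).card := by
  classical
  apply card_le_card
  intro n hn
  unfold sol at hn
  unfold solN
  rw [mem_filter] at hn ⊢
  refine ⟨hn.1, fun l => ?_⟩
  obtain ⟨n', h1, h2⟩ := hn.2 l
  have : n' = n + W * b l * d := by exact_mod_cast h2
  rw [← this]
  exact h1

open Classical in
/-- one class -/
theorem clsP (r : ℕ) (ν : ℕ → ℝ) (A : Finset ℕ) (Y H W b₀ M₀ L N' N : ℕ) [NeZero N] (b : Fin r → ℕ)
    (c v κ δ η cR ηR : ℝ) (hν : ∀ n, 0 ≤ ν n) (hW : 1 ≤ W) (hb₀ : b₀ < W) (hA : A ⊆ Ioc Y (Y + H))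
    (hM : M₀ = Y / W) (hL : L + N' + 1 = H / W) (hL1 : 1 ≤ L) (hN : 12 ≤ N) (hN' : (∑ l, b l) * N ≤ N')
    (hv : 0 < v) (hc : 0 < c) (hκ : 0 < κ) (hνA : ∀ n ∈ A, c ≤ ν n * v)
    (hAb : κ * (H / W * v) ≤ ((A.filter (fun n => n % W = b₀)).card : ℝ))
    (hbig : 2 * ((N' : ℝ) + 4) ≤ κ * (H / W * v)) (hδ : 0 < δ) (hδ2 : 8 * 4 ^ r * δ ≤ c * κ)
    (h4 : η ≤ δ / 2) (h5 : η ≤ ηR) (hcR : 0 < cR)
    (hRC : ∀ ν f : (Fin r → ZMod N) → ℝ, (∀ a, 0 ≤ f a ∧ f a ≤ ν a) → (∀ a, ¬ bx a → f a = 0) →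
      LF (fun (j : Option (Fin r)) (x : Option (Fin r) → ZMod N) => ν (P j x)) ηR → BX ν ηR →
      δ ≤ av f → cR ≤ av (fun p : (Fin r → ZMod N) × ZMod N => sg p.2 *
        ∏ a : Fin (r + 1), f (p.1 + ch r N a p.2)))
    (h1 : ∑ K ∈ Ioc M₀ (M₀ + L), |av (fun y : Fin r → ZMod N => ν (W * (K + tau b y) + b₀)) - 1| ≤ η * L)
    (h3 : (((Ioc M₀ (M₀ + L)).filter (fun K => ¬ (LF (fun (j : Option (Fin r)) (x : Option (Fin r) → ZMod N) =>
      ν (W * (K + tau b (P j x)) + b₀)) η ∧ BX (fun y : Fin r → ZMod N => ν (W * (K + tau b y) + b₀)) η))).card : ℝ) ≤ η * L) :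
    cR * δ * L ≤ av (fun d : ZMod N => sg d * CC ν A W b₀ M₀ L N' b d.valMinAbs) := by
  refine le_trans ?_ (sum_av_leP ν hν A W b₀ M₀ L N' b hN')
  obtain ⟨Bd, hBd⟩ : ∃ Bd : Finset ℕ, Bd = (Ioc M₀ (M₀ + L)).filter (fun K => ¬ (LF (fun (j : Option (Fin r))
    (x : Option (Fin r) → ZMod N) => ν (W * (K + tau b (P j x)) + b₀)) η ∧
      BX (fun y : Fin r → ZMod N => ν (W * (K + tau b y) + b₀)) η)) := ⟨_, rfl⟩
  rw [← hBd] at h3
  have hg := good_sum ν A Y H W b₀ M₀ L N' r N b c v κ δ η Bd hν hW hb₀ hA hM hL hL1 hN hN' hv hc hκ hνA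
    hAb hbig hδ hδ2 h1 (by rw [hBd]; exact filter_subset _ _) h3 h4
  obtain ⟨Gd, hGd⟩ : ∃ Gd : Finset ℕ, Gd = (Ioc M₀ (M₀ + L) \ Bd).filter
    (fun K => δ ≤ av (fun y : Fin r → ZMod N => fK ν A W b₀ b K y)) := ⟨_, rfl⟩
  rw [← hGd] at hg
  have hsub : Gd ⊆ Ioc M₀ (M₀ + L) := by
    rw [hGd]
    exact (filter_subset _ _).trans sdiff_subset
  calc cR * δ * L = cR * (δ * L) := by ring
    _ ≤ cR * Gd.card := by gcongr
    _ = ∑ K ∈ Gd, cR := by rw [sum_const, nsmul_eq_mul, mul_comm]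
    _ ≤ ∑ K ∈ Gd, av (fun p : (Fin r → ZMod N) × ZMod N => sg p.2 *
        ∏ a : Fin (r + 1), fK ν A W b₀ b K (p.1 + ch r N a p.2)) := by
        apply sum_le_sum
        intro K hK
        rw [hGd, mem_filter, mem_sdiff, hBd, mem_filter, not_and, not_not] at hK
        have h6 := hK.1.2 hK.1.1
        apply hRC (fun y => ν (W * (K + tau b y) + b₀)) _
          (fun y => ⟨fK_nonneg ν hν A W b₀ b K y, fK_le ν hν A W b₀ b K y⟩)
          (fun y hy => by unfold fK; rw [if_neg (fun h => hy h.1)]) (LF_mono h6.1 h5)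
          (fun S => (h6.2 S).trans h5) hK.2
    _ ≤ _ := sum_le_sum_of_subset_of_nonneg hsub (fun K _ _ => av_nonneg fun p =>
        mul_nonneg (sg01 _).1 (prod_nonneg fun j _ => fK_nonneg ν hν A W b₀ b K _))

open Classical in
theorem engP (r g : ℕ) (δ κ ε : ℝ) (hr : 1 ≤ r) (hδ : 0 < δ) (hκ : 0 < κ) (hε : 0 < ε) (hε8 : 8 * ε ≤ 1) :
    ∃ (c : ℝ) (H₀ : ℕ), 0 < c ∧ ∀ (F : ℤ → ℤ) (Y H : ℕ) (A : Finset ℕ) (b : Fin r → ℕ), Sys g F → H₀ ≤ H →
    (∀ n ∈ Ioc Y (Y + H), F (n : ℤ) ≠ 0 ∧ |F (n : ℤ)| ≤ (H : ℤ) ^ g) → A ⊆ Ioc Y (Y + H) →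
    (∀ n ∈ A, ∀ p : ℕ, p.Prime → (p : ℝ) ≤ (H : ℝ) ^ δ → ¬ (p : ℤ) ∣ F (n : ℤ)) →
    κ * (H * V F 1 H) ≤ A.card → Function.Injective b → (∀ l, 1 ≤ b l) →
    (∀ l, (b l : ℝ) ≤ H / ((H : ℝ) ^ ε) ^ 5) →
    ∃ D : Finset ℕ, c * (H : ℝ) ^ ε ≤ D.card ∧ ∀ d ∈ D, 1 ≤ d ∧ (d : ℝ) ≤ (H : ℝ) ^ ε ∧
      c * (H * dW F (WW ε H) * V F (WW ε H) H ^ (r + 1)) ≤ ((solN A (WW ε H) b d).card : ℝ) := by
  have hrr : (1 : ℝ) ≤ r := by exact_mod_cast hr
  obtain ⟨M₁, hM₁⟩ : ∃ M₁ : ℕ, M₁ = Mr r + (r + 1) := ⟨_, rfl⟩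
  obtain ⟨c, hc, hmaj⟩ := majW Pool.Agent.Y852.RSZ.c1 Pool.Agent.Y328.RSZ.sel Pool.Agent.Y833.RSZ.CLS mer
    g M₁ δ ε hδ hε
  obtain ⟨κ₁, hκ₁d⟩ : ∃ κ₁ : ℝ, κ₁ = κ / 2 := ⟨_, rfl⟩
  have hκ₁ : 0 < κ₁ := by rw [hκ₁d]; positivity
  obtain ⟨δ₀, hδ₀d⟩ : ∃ δ₀ : ℝ, δ₀ = c * κ₁ / (8 * 4 ^ r) := ⟨_, rfl⟩
  have hδ₀ : 0 < δ₀ := by rw [hδ₀d]; positivity
  have hδ₀2 : 8 * 4 ^ r * δ₀ ≤ c * κ₁ := by
    rw [hδ₀d]
    apply le_of_eq
    field_simp
  obtain ⟨cR, ηR, N₀, hcR, hηR, hRC⟩ := rcN r hr δ₀ hδ₀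
  obtain ⟨η, hηd⟩ : ∃ η : ℝ, η = min ηR (δ₀ / 2) := ⟨_, rfl⟩
  have hη : 0 < η := by rw [hηd]; exact lt_min hηR (by positivity)
  have hηR' : η ≤ ηR := by rw [hηd]; exact min_le_left _ _
  have hηδ : η ≤ δ₀ / 2 := by rw [hηd]; exact min_le_right _ _
  obtain ⟨η', hη', hMK⟩ := mkr r hr η hη
  obtain ⟨B, H₁, hmaj⟩ := hmaj (min η' 1) (lt_min hη' one_pos)
  obtain ⟨c₂, hc₂d⟩ : ∃ c₂ : ℝ, c₂ = cR * δ₀ := ⟨_, rfl⟩
  have hc₂ : 0 < c₂ := by rw [hc₂d]; positivity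
  obtain ⟨C₁, hC₁d⟩ : ∃ C₁ : ℝ, C₁ = 2 / c + κ := ⟨_, rfl⟩
  have hC₁ : 0 < C₁ := by rw [hC₁d]; positivity
  obtain ⟨KV, hKV1, hKV⟩ := V_lower
  -- the numerical conditions
  obtain ⟨Ha, hHa⟩ := numE (B * (r + 1)) (10 + 100 * r) ε hε
  obtain ⟨Hb, hHb⟩ := numE (2 * g) ((10 + 100 * r) / κ₁ * KV ^ (2 * g)) ε hε
  obtain ⟨Hc, hHc⟩ := numE (B * Mr r) (4 / η') ε hε
  obtain ⟨Hd, hHd⟩ := numE (B * (r + 1)) (32 / c₂) ε hε
  obtain ⟨He, hHe⟩ := numE 1 1 δ hδ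
  obtain ⟨Hg, hHg⟩ := numE 0 (4 * N₀) ε hε
  obtain ⟨Hf, hHf⟩ : ∃ Hf : ℕ, ∀ H : ℕ, Hf ≤ H → (2 * (g : ℝ) + 2) / ε ≤ Real.log H := by
    apply Filter.eventually_atTop.1
    have hlog : Filter.Tendsto (fun H : ℕ => Real.log H) Filter.atTop Filter.atTop :=
      Real.tendsto_log_atTop.comp tendsto_natCast_atTop_atTop
    exact hlog.eventually_ge_atTop _
  refine ⟨min (c₂ / 24) (c₂ * κ / (16 * C₁)), H₁ + Ha + Hb + Hc + Hd + He + Hf + Hg, by
    apply lt_min <;> positivity, ?_⟩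
  intro F Y H A b hF hH hsize hAsub hArough hAcard hb hb1 hbB
  obtain ⟨hH16, hl1, na⟩ := hHa H (by omega)
  obtain ⟨_, _, nb⟩ := hHb H (by omega)
  obtain ⟨_, _, nc⟩ := hHc H (by omega)
  obtain ⟨_, _, nd⟩ := hHd H (by omega)
  obtain ⟨_, _, ne⟩ := hHe H (by omega)
  have nf := hHf H (by omega)
  obtain ⟨_, _, ng⟩ := hHg H (by omega)
  rw [pow_zero, mul_one] at ng
  obtain ⟨l, hl⟩ : ∃ l : ℝ, l = Real.log H := ⟨_, rfl⟩
  obtain ⟨x, hx⟩ : ∃ x : ℝ, x = (H : ℝ) ^ ε := ⟨_, rfl⟩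
  obtain ⟨W, hW⟩ : ∃ W : ℕ, W = WW ε H := ⟨_, rfl⟩
  rw [← hl] at na nb nc nd ne nf hl1
  rw [← hx] at na nb nc nd ng hbB ⊢
  rw [← hW]
  have hl0 : 0 < l := by linarith
  have hH0 : (0 : ℝ) < H := by exact_mod_cast (show 0 < H by omega)
  have hx0 : 0 < x := by rw [hx]; positivity
  have hWpos : 0 < W := by rw [hW]; exact WW_pos ε H
  have hW0 : (0 : ℝ) < W := by exact_mod_cast hWpos
  have hW1 : (1 : ℝ) ≤ W := by exact_mod_cast hWpos
  have hWx : (W : ℝ) ≤ x ^ 2 := by rw [hW, hx]; exact WW_le ε hε.le H (by omega)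
  have hxH : x ^ 8 ≤ H := by
    rw [hx, ← Real.rpow_natCast, ← Real.rpow_mul hH0.le]
    calc (H : ℝ) ^ (ε * (8 : ℕ)) ≤ (H : ℝ) ^ (1 : ℝ) := by
          apply Real.rpow_le_rpow_of_exponent_le
          · exact_mod_cast (show 1 ≤ H by omega)
          · push_cast
            linarith
      _ = H := Real.rpow_one _
  obtain ⟨T, hT⟩ : ∃ T : ℝ, T = l ^ B := ⟨_, rfl⟩
  have hT1 : 1 ≤ T := by rw [hT]; exact one_le_pow₀ hl1
  have hTr : T ^ (r + 1) = l ^ (B * (r + 1)) := by rw [hT, ← pow_mul]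
  have hTM : T ^ Mr r = l ^ (B * Mr r) := by rw [hT, ← pow_mul]
  rw [← hTr] at na nd
  rw [← hTM] at nc
  have hT1r : 1 ≤ T ^ (r + 1) := one_le_pow₀ hT1
  have hx110 : 110 ≤ x := by
    refine le_trans ?_ na
    nlinarith
  -- the prime `N`
  obtain ⟨N, hNp, hN12, hN1, hN2⟩ := exN 4 (x / 4) (by push_cast; linarith)
  have : NeZero N := ⟨hNp.ne_zero⟩
  have hNx : (N : ℝ) ≤ x := by linarith
  have hN0 : (0 : ℝ) < N := by exact_mod_cast hNp.pos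
  have hNN₀ : N₀ ≤ N := by
    have : (N₀ : ℝ) ≤ N := by linarith
    exact_mod_cast this
  obtain ⟨N', hN'⟩ : ∃ N' : ℕ, N' = 1 + 2 * ((∑ l, b l) * N) := ⟨_, rfl⟩
  have hN'1 : (∑ l, b l) * N ≤ N' := by omega
  have hN'r : (N' : ℝ) ≤ 1 + 2 * (r * (H / x ^ 5) * x) := by
    rw [hN']
    push_cast
    have h1 : ∑ l, (b l : ℝ) ≤ r * (H / x ^ 5) := by
      calc ∑ l, (b l : ℝ) ≤ ∑ _l : Fin r, H / x ^ 5 := sum_le_sum fun l _ => hbB l
        _ = _ := by rw [sum_const, card_univ, Fintype.card_fin, nsmul_eq_mul]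
    gcongr
  have hVpos : 0 < V F W H := V_pos hF W H
  have hWdvd : ∀ p : ℕ, p.Prime → (p ∣ W ↔ (p : ℝ) ≤ ε * l) := by
    intro p hp
    rw [hW, hl]
    exact WW_dvd ε hε.le H p hp
  have hgl : 2 * (g : ℝ) + 2 ≤ ε * l := by
    rw [div_le_iff₀ hε] at nf
    linarith
  have hεl : ε * l ≤ l := by nlinarith
  have hVlow : 1 / (KV * l) ^ (2 * g) ≤ V F W H := by
    rw [hl]
    apply hKV g F W H hF (by omega)
    intro p hp hpg
    rw [hWdvd p hp]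
    refine le_trans ?_ hgl
    exact_mod_cast hpg
  have hKVl : 1 ≤ (KV * l) ^ (2 * g) := by
    apply one_le_pow₀
    nlinarith
  obtain ⟨m1, m2, m3, m4, m5, _⟩ := numF x H W N' r (T ^ (r + 1)) ((KV * l) ^ (2 * g)) κ₁ (V F W H) hx0 hW1
    hWx hxH hrr hN'r (Nat.cast_nonneg _) hT1r hKVl hκ₁ hVlow na (by
      rw [mul_pow, ← mul_assoc]
      exact nb) (by exact_mod_cast hH16)
  -- the windows
  have hHW : (H : ℝ) / W - 1 ≤ ((H / W : ℕ) : ℝ) := by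
    have h1 := Nat.lt_div_mul_add (a := H) hWpos
    have h2 : (H : ℝ) < (H / W : ℕ) * W + W := by exact_mod_cast h1
    rw [sub_le_iff_le_add, div_le_iff₀ hW0]
    linarith
  have hHW2 : ((H / W : ℕ) : ℝ) ≤ H / W := Nat.cast_div_le
  have hHWpos : (0 : ℝ) < H / W := by positivity
  obtain ⟨L, hL⟩ : ∃ L : ℕ, L + N' + 1 = H / W := by
    refine ⟨H / W - N' - 1, ?_⟩
    have h1 : (N' : ℝ) + 1 ≤ ((H / W : ℕ) : ℝ) := by linarith
    have h2 : N' + 1 ≤ H / W := by exact_mod_cast h1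
    omega
  have hLreal : (L : ℝ) + N' + 1 = ((H / W : ℕ) : ℝ) := by exact_mod_cast hL
  have hLlow : (H : ℝ) / W / 2 ≤ L := by linarith
  have hN'0 := (Nat.cast_nonneg N' : (0 : ℝ) ≤ N')
  have hLup : (L : ℝ) ≤ H / W := by linarith
  have hL12 : (H : ℝ) ^ (1 / 2 : ℝ) ≤ L := by linarith
  have hL0 : (0 : ℝ) < L := by
    have : 0 ≤ (H : ℝ) ^ (1 / 2 : ℝ) := by positivity
    linarith
  have hL1 : 1 ≤ L := by exact_mod_cast hL0
  obtain ⟨M₀, hM₀⟩ : ∃ M₀ : ℕ, M₀ = Y / W := ⟨_, rfl⟩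
  -- the majorant
  obtain ⟨ν, hν0, hνB, hνA, hνc⟩ := hmaj F Y H W N' hF (by omega) hsize hWpos (by omega)
    (by exact_mod_cast m1) (fun p hp hpl => (hWdvd p hp).2 (by rw [hl]; exact hpl))
    (fun p hp hpl => by
      rw [← hl]
      exact ((hWdvd p hp).1 hpl).trans hεl)
  rw [← hl, ← hT] at hνB
  have hA0 : 0 ∉ A := fun h => by
    have := hAsub h
    rw [mem_Ioc] at this
    omega
  have hνA1 : ∀ n ∈ A, c ≤ ν n * V F W H := fun n hn => (hνA n (hAsub hn) (hArough n hn)).1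
  have hνA2 : ∀ n ∈ A, ν n * V F W H ≤ 1 := fun n hn => (hνA n (hAsub hn) (hArough n hn)).2
  have hνT : ∀ n ∈ A, ν n ≤ T := fun n hn => hνB n (hAsub hn)
  have hcor : ∀ b₀ < W, ∀ m ≤ M₁, ∀ t : Fin m → ℕ, Function.Injective t → (∀ i, 1 ≤ t i ∧ t i ≤ N') →
      |(∑ K ∈ Ioc M₀ (M₀ + L), ∏ i, ν (W * (K + t i) + b₀)) / L - 1| ≤ min η' 1 := by
    intro b₀ hb₀ m hm t ht ht2
    exact hνc m hm t ht ht2 b₀ M₀ L hL12 (fun K hK i => win Y H W b₀ M₀ L N' hWpos hb₀ hM₀ hL K hK (t i)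
      (ht2 i).1 (ht2 i).2)
  have hcardI : (Ioc M₀ (M₀ + L)).card = L := by rw [Nat.card_Ioc]; omega
  have hWH : ∀ p : ℕ, p.Prime → p ∣ W → p ≤ H := by
    intro p hp hpW
    have h1 := ((hWdvd p hp).1 hpW).trans hεl
    have h2 : l ≤ H := by
      rw [hl]
      linarith [Real.log_le_sub_one_of_pos hH0]
    exact_mod_cast h1.trans h2
  -- the classes
  have hclass := classes hF W H (by rw [hW]; exact WW_sqf ε H) hWH A κ C₁ hκ hC₁ (by omega)
    (by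
      intro n hn p hp
      have hpp := Nat.prime_of_mem_primeFactors hp
      apply hArough n hn p hpp
      have h1 := (hWdvd p hpp).1 (Nat.dvd_of_mem_primeFactors hp)
      rw [one_mul, pow_one] at ne
      linarith) hAcard
    (by
      intro b₀ hb₀
      have h1 := cntK A Y H W b₀ M₀ L N' 1 hWpos hb₀ hAsub hM₀ hL (by omega)
      have h2 := hcor b₀ hb₀ 1 (by omega) (fun _ => 1) (fun i j _ => Subsingleton.elim i j)
        (fun _ => ⟨le_rfl, by omega⟩)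
      have h3 : ∑ K ∈ Ioc M₀ (M₀ + L), ν (W * (K + 1) + b₀) ≤ 2 * L := by
        have h4 := (abs_le.1 h2).2
        have h5 : min η' 1 ≤ 1 := min_le_right _ _
        have h6 : (∑ K ∈ Ioc M₀ (M₀ + L), ∏ i : Fin 1, ν (W * (K + (fun _ => 1 : Fin 1 → ℕ) i) + b₀)) / L ≤ 2 := by
          linarith
        rw [div_le_iff₀ hL0] at h6
        simpa using h6
      have h4 : (((Ioc M₀ (M₀ + L)).filter (fun K => W * (K + 1) + b₀ ∈ A)).card : ℝ) * (c / V F W H) ≤ 2 * L := by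
        refine le_trans ?_ h3
        calc (((Ioc M₀ (M₀ + L)).filter (fun K => W * (K + 1) + b₀ ∈ A)).card : ℝ) * (c / V F W H) =
              ∑ K ∈ (Ioc M₀ (M₀ + L)).filter (fun K => W * (K + 1) + b₀ ∈ A), c / V F W H := by
              rw [sum_const, nsmul_eq_mul]
          _ ≤ ∑ K ∈ (Ioc M₀ (M₀ + L)).filter (fun K => W * (K + 1) + b₀ ∈ A), ν (W * (K + 1) + b₀) := by
              apply sum_le_sum
              intro K hK
              rw [mem_filter] at hK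
              rw [div_le_iff₀ hVpos]
              exact hνA1 _ hK.2
          _ ≤ _ := sum_le_sum_of_subset_of_nonneg (filter_subset _ _) (fun _ _ _ => hν0 _)
      have h5 : (((Ioc M₀ (M₀ + L)).filter (fun K => W * (K + 1) + b₀ ∈ A)).card : ℝ) ≤ 2 / c * (H / W * V F W H) := by
        rw [mul_div_assoc', div_le_iff₀ hVpos] at h4
        calc (((Ioc M₀ (M₀ + L)).filter (fun K => W * (K + 1) + b₀ ∈ A)).card : ℝ) =
              ((((Ioc M₀ (M₀ + L)).filter (fun K => W * (K + 1) + b₀ ∈ A)).card : ℝ) * c) / c := by field_simp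
          _ ≤ (2 * L * V F W H) / c := by gcongr
          _ ≤ (2 * (H / W) * V F W H) / c := by gcongr
          _ = _ := by ring
      have h6 : (N' : ℝ) + 4 ≤ κ * (H / W * V F W H) := by
        rw [hκ₁d] at m4
        have : 0 ≤ κ * (H / W * V F W H) := by positivity
        linarith
      rw [hC₁d, add_mul]
      linarith)
  obtain ⟨Bs, hBs⟩ : ∃ Bs : Finset ℕ, Bs = rich F W H A κ := ⟨_, rfl⟩
  rw [← hBs] at hclass
  have hdW : 0 < dW F W := by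
    unfold dW
    apply prod_pos
    intro p hp
    exact fac_pos hF (Nat.prime_of_mem_primeFactors hp)
  have hBs0 : (0 : ℝ) < Bs.card := lt_of_lt_of_le (by positivity) hclass
  have hBsW : ∀ b₀ ∈ Bs, b₀ < W := by
    intro b₀ hb₀
    rw [hBs] at hb₀
    unfold rich at hb₀
    rw [mem_filter, mem_range] at hb₀
    exact hb₀.1
  -- one class
  have hone : ∀ b₀ ∈ Bs, c₂ * L ≤ av (fun d : ZMod N => sg d * CC ν A W b₀ M₀ L N' b d.valMinAbs) := by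
    intro b₀ hb₀
    have hb₀W := hBsW b₀ hb₀
    have hrich : κ₁ * (H / W * V F W H) ≤ ((A.filter (fun n => n % W = b₀)).card : ℝ) := by
      rw [hBs] at hb₀
      unfold rich at hb₀
      rw [mem_filter] at hb₀
      rw [hκ₁d]
      exact hb₀.2
    obtain ⟨h1, h2⟩ := hMK N b hb hb1 (Ioc M₀ (M₀ + L)) (fun K t => ν (W * (K + t) + b₀)) T
      (by rw [← card_pos, hcardI]; omega) hT1 (fun K t => hν0 _)
      (by
        intro K hK t ht
        have := Po_bd hr b hb1 t ht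
        exact hνB _ (win Y H W b₀ M₀ L N' hWpos hb₀W hM₀ hL K hK t this.1 (this.2.trans hN'1)))
      (by
        rw [div_le_iff₀ hN0]
        rw [div_mul_eq_mul_div, div_le_iff₀ hη'] at nc
        nlinarith)
      (by
        intro m hm u hu huP
        rw [hcardI]
        refine (hcor b₀ hb₀W m (by omega) u hu (fun i => ?_)).trans (min_le_left _ _)
        have := Po_bd hr b hb1 _ (huP i)
        exact ⟨this.1, this.2.trans hN'1⟩)
    rw [hcardI] at h1 h2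
    rw [hc₂d]
    exact clsP r ν A Y H W b₀ M₀ L N' N b c (V F W H) κ₁ δ₀ η cR ηR hν0 hWpos hb₀W hAsub hM₀ hL hL1
      (by omega) hN'1 hVpos hc hκ₁ hνA1 hrich m4 hδ₀ hδ₀2 hηδ hηR' hcR
      (fun ν f hf hfb h3 h4 h5 => hRC N hNN₀ ν f hf hfb h3 h4 h5) h1 h2
  -- the differences
  have hfc := final_count (N := N) (fun d : ZMod N => ∑ b₀ ∈ Bs, sg d * CC ν A W b₀ M₀ L N' b d.valMinAbs)
    (L * Bs.card) c₂ (by positivity) hc₂
    (fun d => sum_nonneg fun b₀ _ => mul_nonneg (sg01 d).1 (CC_nonneg ν hν0 A W b₀ M₀ L N' b _))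
    (by
      calc ∑ b₀ ∈ Bs, sg (0 : ZMod N) * CC ν A W b₀ M₀ L N' b (0 : ZMod N).valMinAbs ≤
            ∑ b₀ ∈ Bs, ((L : ℝ) + N') * T ^ (r + 1) :=
            sum_le_sum fun b₀ _ => (mul_le_of_le_one_left (CC_nonneg ν hν0 A W b₀ M₀ L N' b _) (sg01 _).2).trans
              (CC_zero ν hν0 A W b₀ M₀ L N' b T (by linarith) hνT _)
        _ = Bs.card * (((L : ℝ) + N') * T ^ (r + 1)) := by rw [sum_const, nsmul_eq_mul]
        _ ≤ Bs.card * (c₂ / 4 * L * N) := by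
            apply mul_le_mul_of_nonneg_left _ hBs0.le
            have h1 : (N' : ℝ) ≤ L := by
              have : (N' : ℝ) * 1 ≤ N' * T ^ (r + 1) := by gcongr
              linarith
            have h2 : 32 * T ^ (r + 1) ≤ c₂ * x := by
              rw [div_mul_eq_mul_div, div_le_iff₀ hc₂] at nd
              linarith
            have h3 : 8 * T ^ (r + 1) ≤ c₂ * N := by
              have : c₂ * (x / 4) ≤ c₂ * N := by gcongr
              linarith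
            calc ((L : ℝ) + N') * T ^ (r + 1) ≤ ((L : ℝ) + L) * T ^ (r + 1) := by gcongr
              _ = L / 4 * (8 * T ^ (r + 1)) := by ring
              _ ≤ L / 4 * (c₂ * N) := by gcongr
              _ = _ := by ring
        _ = c₂ / 4 * (L * Bs.card) * N := by ring)
    (by
      intro d hd
      have hd0 : d.valMinAbs ≠ 0 := fun h => hd ((ZMod.valMinAbs_eq_zero d).1 h)
      have hdN : |d.valMinAbs| ≤ N := by
        have := ZMod.valMinAbs_mem_Ioc d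
        rw [Set.mem_Ioc] at this
        rw [abs_le]
        constructor <;> omega
      calc ∑ b₀ ∈ Bs, sg d * CC ν A W b₀ M₀ L N' b d.valMinAbs ≤ ∑ b₀ ∈ Bs, 3 * (L : ℝ) := by
            apply sum_le_sum
            intro b₀ hb₀
            refine (mul_le_of_le_one_left (CC_nonneg ν hν0 A W b₀ M₀ L N' b _) (sg01 _).2).trans ?_
            have h1 := CC_upper ν hν0 A W b₀ M₀ L N' N b hb hb1 hL1 (by omega) T (min η' 1) (by linarith) hνT
              (fun t ht ht2 => hcor b₀ (hBsW b₀ hb₀) (r + 1) (by omega) t ht ht2) d.valMinAbs hd0 hdN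
            have h2 : min η' 1 ≤ 1 := min_le_right _ _
            have h3 : (1 + min η' 1) * (L : ℝ) ≤ 2 * L := by gcongr; linarith
            linarith
        _ = 3 * (L * Bs.card) := by rw [sum_const, nsmul_eq_mul]; ring)
    (by
      rw [av_sum]
      calc c₂ * (L * Bs.card) = ∑ b₀ ∈ Bs, c₂ * L := by rw [sum_const, nsmul_eq_mul]; ring
        _ ≤ _ := sum_le_sum hone)
  have hpos : ∀ d : ZMod N, d ≠ 0 → c₂ / 4 * (L * Bs.card) ≤
      ∑ b₀ ∈ Bs, sg d * CC ν A W b₀ M₀ L N' b d.valMinAbs → 0 < d.valMinAbs ∧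
      c₂ / 4 * (L * Bs.card) ≤ ∑ b₀ ∈ Bs, CC ν A W b₀ M₀ L N' b d.valMinAbs := by
    intro d hd0 hd
    have hq : 0 < c₂ / 4 * (L * Bs.card) := by positivity
    rcases sg_eq d with h | h
    · simp only [h, zero_mul, sum_const_zero] at hd
      linarith
    · simp only [h.1, one_mul] at hd
      refine ⟨?_, hd⟩
      have : d.valMinAbs ≠ 0 := fun h => hd0 ((ZMod.valMinAbs_eq_zero d).1 h)
      omega
  refine ⟨(univ.filter (fun d : ZMod N => d ≠ 0 ∧ c₂ / 4 * (L * Bs.card) ≤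
    ∑ b₀ ∈ Bs, sg d * CC ν A W b₀ M₀ L N' b d.valMinAbs)).image (fun d => d.valMinAbs.toNat), ?_, ?_⟩
  · rw [card_image_of_injOn]
    · refine le_trans ?_ (hfc.trans (le_of_eq ?_))
      · calc min (c₂ / 24) (c₂ * κ / (16 * C₁)) * x ≤ c₂ / 24 * x := by
              gcongr
              exact min_le_left _ _
          _ = c₂ / 6 * (x / 4) := by ring
          _ ≤ _ := by gcongr
      · congr!
    · intro d hd d' hd' h
      rw [mem_coe, mem_filter] at hd hd'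
      have h1 := (hpos d hd.2.1 hd.2.2).1
      have h2 := (hpos d' hd'.2.1 hd'.2.2).1
      simp only at h
      apply ZMod.injective_valMinAbs
      omega
  · intro e he
    rw [mem_image] at he
    obtain ⟨d, hd, rfl⟩ := he
    rw [mem_filter] at hd
    obtain ⟨_, hd0, hd2⟩ := hd
    obtain ⟨hd3, hd1⟩ := hpos d hd0 hd2
    have he : ((d.valMinAbs.toNat : ℕ) : ℤ) = d.valMinAbs := Int.toNat_of_nonneg hd3.le
    refine ⟨by omega, ?_, ?_⟩
    · have h1 := ZMod.valMinAbs_mem_Ioc d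
      rw [Set.mem_Ioc] at h1
      have h2 : d.valMinAbs.toNat ≤ N := by omega
      have h3 : ((d.valMinAbs.toNat : ℕ) : ℝ) ≤ N := by exact_mod_cast h2
      linarith
    · have h1 := sol_ge ν A W M₀ L N' b (V F W H) hVpos hA0 hνA2 hν0 Bs hBsW d.valMinAbs
      have h0 := sol_nat A W b d.valMinAbs.toNat
      rw [he] at h0
      have h0' : ((sol A W b d.valMinAbs).card : ℝ) ≤ ((solN A W b d.valMinAbs.toNat).card : ℝ) := by
        exact_mod_cast h0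
      refine le_trans ?_ (h1.trans h0')
      have h2 : c₂ * κ / (16 * C₁) * (H * dW F W) ≤ c₂ / 4 * (L * Bs.card) := by
        calc c₂ * κ / (16 * C₁) * (H * dW F W) = c₂ / 4 * ((H / W / 2) * (κ / (2 * C₁) * (W * dW F W))) := by
              field_simp
              ring
          _ ≤ c₂ / 4 * (L * Bs.card) := by gcongr
      calc min (c₂ / 24) (c₂ * κ / (16 * C₁)) * (H * dW F W * V F W H ^ (r + 1)) ≤
            c₂ * κ / (16 * C₁) * (H * dW F W * V F W H ^ (r + 1)) := by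
              gcongr
              exact min_le_right _ _
        _ = c₂ * κ / (16 * C₁) * (H * dW F W) * V F W H ^ (r + 1) := by ring
        _ ≤ (∑ b₀ ∈ Bs, CC ν A W b₀ M₀ L N' b d.valMinAbs) * V F W H ^ (r + 1) := by
              have := h2.trans hd1
              gcongr

end Pool.Agent.H534.RS
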