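import Pool.Agent.H534.RS.RC
import Pool.Graph.R_seed8.Y852.RSZ.MK
import Pool.Graph.R_seed8.Y727.PSP.Fa

/-!
# The linear forms conditions for most members of a family of weights on `(ZMod N)^r`
-/

set_option autoImplicit false

open Finset

namespace Pool.Agent.H534.RS

open Pool.Agent.H602R3.DHJ
open Pool.Agent.Y727.PSP (sw sl Ind LF rp rp_pos rp_le rp_cast rp_of)

theorem av_abs_le' {Z : Type} [Fintype Z] (f : Z → ℝ) : |av f| ≤ av (fun y => |f y|) := by
  unfold av
  rw [abs_div, Nat.abs_cast]
  exact div_le_div_of_nonneg_right (abs_sum_le_sum_abs _ _) (by positivity)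

/-- the position -/
def tau {r N : ℕ} (b : Fin r → ℕ) (y : Fin r → ZMod N) : ℕ := ∑ l, b l * rp (y l)

theorem rp_inj {N : ℕ} [NeZero N] {a a' : ZMod N} (h : rp a = rp a') : a = a' := by
  have := congrArg (fun n : ℕ => (n : ZMod N)) h
  simp only [rp_cast] at this
  exact this

theorem rp_add {N : ℕ} [NeZero N] (a c : ZMod N) : rp a + rp c = rp (a + c) ∨ rp a + rp c = rp (a + c) + N := by
  have h1 := rp_pos a
  have h2 := rp_pos c
  have h3 := rp_le a
  have h4 := rp_le c
  by_cases h : rp a + rp c ≤ N
  · left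
    have := rp_of (N := N) (rp a + rp c) (by omega) h
    rw [← this]
    congr 1
    push_cast
    rw [rp_cast, rp_cast]
  · right
    have := rp_of (N := N) (rp a + rp c - N) (by omega) (by omega)
    have e : ((rp a + rp c - N : ℕ) : ZMod N) = a + c := by
      rw [Nat.cast_sub (by omega)]
      push_cast
      rw [rp_cast, rp_cast]
      simp
    rw [e] at this
    omega

theorem line {r N : ℕ} [NeZero N] (b : Fin r → ℕ) (hb : Function.Injective b) (hb1 : ∀ l, 1 ≤ b l)
    (v : Fin r × Option (Fin r)) (y : Fin r → ZMod N) (a : ℕ) :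
    (univ.filter (fun s : ZMod N => a = tau b (y + s • dir v))).card ≤ 2 := by
  classical
  obtain ⟨l, o⟩ := v
  suffices h : ∃ β : ZMod N → Bool, ∀ s s', β s = β s' → tau b (y + s • dir (l, o)) = tau b (y + s' • dir (l, o)) →
      s = s' by
    obtain ⟨β, hβ⟩ := h
    have := card_le_card_of_injOn (s := univ.filter (fun s : ZMod N => a = tau b (y + s • dir (l, o))))
      (t := (univ : Finset Bool)) β (fun _ _ => mem_coe.2 (mem_univ _)) (by
        intro s hs s' hs' he
        rw [mem_coe, mem_filter] at hs hs'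
        exact hβ s s' he (hs.2.symm.trans hs'.2))
    simpa using this
  by_cases ho : o = none ∨ o = some l
  · refine ⟨fun _ => true, fun s s' _ h => ?_⟩
    have e0 : ∀ s : ZMod N, ∀ i, (y + s • (dir (l, o) : Fin r → ZMod N)) i = if i = l then y i + s else y i := by
      intro s i
      rw [Pi.add_apply, Pi.smul_apply, smul_eq_mul]
      unfold dir
      rcases ho with rfl | rfl
      · by_cases hi : i = l <;> simp [hi]
      · by_cases hi : i = l <;> simp [hi]
    unfold tau at h
    simp only [e0] at h
    rw [← add_sum_erase _ _ (mem_univ l), ← add_sum_erase univ (fun i => b i * rp (if i = l then y i + s' else y i))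
      (mem_univ l), if_pos rfl, if_pos rfl] at h
    have e1 : ∀ s : ZMod N, ∑ i ∈ univ.erase l, b i * rp (if i = l then y i + s else y i) =
        ∑ i ∈ univ.erase l, b i * rp (y i) := by
      intro s
      apply sum_congr rfl
      intro i hi
      rw [if_neg (mem_erase.1 hi).1]
    rw [e1, e1] at h
    have h2 := Nat.add_right_cancel h
    have h3 := Nat.eq_of_mul_eq_mul_left (hb1 l) h2
    exact add_left_cancel (rp_inj h3)
  · push Not at ho
    obtain ⟨m, hm⟩ : ∃ m, o = some m := Option.ne_none_iff_exists'.1 ho.1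
    subst hm
    have hlm : m ≠ l := fun h => ho.2 (by rw [h])
    refine ⟨fun s => decide (rp (y l + s) + rp (y m - s) = rp (y l + y m)), fun s s' hβ h => ?_⟩
    have e0 : ∀ s : ZMod N, ∀ i, (y + s • (dir (l, some m) : Fin r → ZMod N)) i = if i = l then y i + s else if i = m then y i - s else y i := by
      intro s i
      rw [Pi.add_apply, Pi.smul_apply, smul_eq_mul]
      unfold dir
      by_cases hi : i = l
      · simp [hi]
      · by_cases hi2 : i = m
        · subst hi2
          simp [hlm]
          ring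
        · simp [hi, hi2]
    unfold tau at h
    simp only [e0] at h
    have e2 : ∀ s : ZMod N, ∑ i, b i * rp (if i = l then y i + s else if i = m then y i - s else y i) =
        b l * rp (y l + s) + (b m * rp (y m - s) + ∑ i ∈ (univ.erase l).erase m, b i * rp (y i)) := by
      intro s
      rw [← add_sum_erase _ _ (mem_univ l), if_pos rfl, ← add_sum_erase _ _ (mem_erase.2 ⟨hlm, mem_univ m⟩),
        if_neg hlm, if_pos rfl]
      congr 2
      apply sum_congr rfl
      intro i hi
      rw [mem_erase, mem_erase] at hi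
      rw [if_neg hi.2.1, if_neg hi.1]
    rw [e2, e2] at h
    have h3 : ∀ s : ZMod N, rp (y l + s) + rp (y m - s) = rp (y l + y m) ∨
        rp (y l + s) + rp (y m - s) = rp (y l + y m) + N := by
      intro s
      have := rp_add (y l + s) (y m - s)
      rwa [show y l + s + (y m - s) = y l + y m by ring] at this
    have h4 : rp (y l + s) + rp (y m - s) = rp (y l + s') + rp (y m - s') := by
      have hN : 0 < N := Nat.pos_of_ne_zero (NeZero.ne N)
      simp only [decide_eq_decide] at hβ
      rcases h3 s with h5 | h5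
      · rw [h5, (hβ.1 h5)]
      · rcases h3 s' with h6 | h6
        · rw [h6, hβ.2 h6]
        · rw [h5, h6]
    have h5 : (b l : ℤ) * rp (y l + s) + b m * rp (y m - s) = b l * rp (y l + s') + b m * rp (y m - s') := by
      have : b l * rp (y l + s) + b m * rp (y m - s) = b l * rp (y l + s') + b m * rp (y m - s') := by omega
      exact_mod_cast this
    have h6 : (rp (y l + s) : ℤ) + rp (y m - s) = rp (y l + s') + rp (y m - s') := by exact_mod_cast h4
    have h7 : ((b l : ℤ) - b m) * ((rp (y l + s) : ℤ) - rp (y l + s')) = 0 := by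
      linear_combination h5 - (b m : ℤ) * h6
    rcases mul_eq_zero.1 h7 with h8 | h8
    · exact absurd (hb (show b m = b l by omega)) hlm
    · have h9 : rp (y l + s) = rp (y l + s') := by omega
      exact add_left_cancel (rp_inj h9)

/-- `L'` moves and `L` does not -/
def Mov {r N : ℕ} {Z : Type} (L L' : Z → Fin r → ZMod N) : Prop :=
  ∃ (v : Fin r × Option (Fin r)) (mv : ZMod N → Z ≃ Z), (∀ s z, L (mv s z) = L z) ∧
    ∀ s z, L' (mv s z) = L' z + s • dir v

/-- `L'` moves -/
def Mov1 {r N : ℕ} {Z : Type} (L' : Z → Fin r → ZMod N) : Prop :=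
  ∃ (v : Fin r × Option (Fin r)) (mv : ZMod N → Z ≃ Z), ∀ s z, L' (mv s z) = L' z + s • dir v

theorem coll {r N : ℕ} [NeZero N] (b : Fin r → ℕ) (hb : Function.Injective b) (hb1 : ∀ l, 1 ≤ b l)
    {Z : Type} [Fintype Z] (L L' : Z → Fin r → ZMod N) (h : Mov L L') :
    (univ.filter (fun z => tau b (L z) = tau b (L' z))).card * N ≤ 2 * Fintype.card Z := by
  classical
  obtain ⟨v, mv, h1, h2⟩ := h
  have e1 : ∀ s : ZMod N, (univ.filter (fun z => tau b (L z) = tau b (L' z))).card =
      (univ.filter (fun z => tau b (L z) = tau b (L' z + s • dir v))).card := by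
    intro s
    symm
    apply card_bij (fun z _ => mv s z)
    · intro z hz
      rw [mem_filter] at hz ⊢
      refine ⟨mem_univ _, ?_⟩
      rw [h1, h2]
      exact hz.2
    · intro z _ z' _ h
      exact (mv s).injective h
    · intro z hz
      refine ⟨(mv s).symm z, ?_, (mv s).apply_symm_apply z⟩
      rw [mem_filter] at hz ⊢
      refine ⟨mem_univ _, ?_⟩
      have h3 := h1 s ((mv s).symm z)
      have h4 := h2 s ((mv s).symm z)
      rw [(mv s).apply_symm_apply z] at h3 h4
      rw [← h3, ← h4]
      exact hz.2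
  have e2 : (univ.filter (fun z => tau b (L z) = tau b (L' z))).card * N =
      ∑ s : ZMod N, (univ.filter (fun z => tau b (L z) = tau b (L' z + s • dir v))).card := by
    rw [← sum_congr rfl fun s _ => e1 s, sum_const, card_univ, ZMod.card, smul_eq_mul, mul_comm]
  rw [e2]
  simp only [card_filter]
  rw [sum_comm]
  simp only [← card_filter]
  calc ∑ z : Z, (univ.filter (fun s : ZMod N => tau b (L z) = tau b (L' z + s • dir v))).card ≤ ∑ _z : Z, 2 :=
        sum_le_sum fun z _ => line b hb hb1 v (L' z) (tau b (L z))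
    _ = 2 * Fintype.card Z := by rw [sum_const, card_univ, smul_eq_mul, mul_comm]

/-- the properties of the family of weights -/
structure Mj (g : ℕ → ℕ → ℝ) (S : Finset ℕ) (M : ℕ) (Po : Set ℕ) (η L : ℝ) : Prop where
  nonneg : ∀ K t, 0 ≤ g K t
  maj : ∀ (I : Type) [Fintype I], Fintype.card I ≤ M → ∀ u : I → ℕ, Function.Injective u → (∀ i, u i ∈ Po) →
    |(∑ K ∈ S, ∏ i, g K (u i)) / S.card - 1| ≤ η
  bound : ∀ (I : Type) [Fintype I], Fintype.card I ≤ M → ∀ u : I → ℕ, (∀ i, u i ∈ Po) →
    ∀ K ∈ S, ∏ i, g K (u i) ≤ L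

open Classical in
theorem card_badP {I Z : Type} [Fintype I] [Fintype Z] (N : ℕ) (f : I → Z → ℕ)
    (hf : ∀ i j, i ≠ j → (univ.filter (fun z => f i z = f j z)).card * N ≤ 2 * Fintype.card Z) :
    ((univ.filter (fun z => ¬ Function.Injective (fun i => f i z))).card : ℝ) * N ≤
      2 * (Fintype.card I : ℝ) ^ 2 * Fintype.card Z := by
  have h1 : (univ.filter (fun z => ¬ Function.Injective (fun i => f i z))) ⊆
      ((univ : Finset I).offDiag).biUnion fun p => univ.filter fun z => f p.1 z = f p.2 z := by
    intro z hz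
    rw [mem_filter] at hz
    have h2 := hz.2
    simp only [Function.Injective, not_forall] at h2
    obtain ⟨i, j, hij, hne⟩ := h2
    rw [mem_biUnion]
    refine ⟨(i, j), by simpa using hne, ?_⟩
    rw [mem_filter]
    exact ⟨mem_univ _, hij⟩
  have h3 : (univ.filter (fun z => ¬ Function.Injective (fun i => f i z))).card * N ≤
      2 * (Fintype.card I) ^ 2 * Fintype.card Z := by
    calc (univ.filter (fun z => ¬ Function.Injective (fun i => f i z))).card * N
        ≤ (∑ p ∈ (univ : Finset I).offDiag,
            (univ.filter fun z => f p.1 z = f p.2 z).card) * N :=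
          Nat.mul_le_mul_right _ ((card_le_card h1).trans card_biUnion_le)
      _ = ∑ p ∈ (univ : Finset I).offDiag,
            (univ.filter fun z => f p.1 z = f p.2 z).card * N := by rw [sum_mul]
      _ ≤ ∑ p ∈ (univ : Finset I).offDiag, 2 * Fintype.card Z := by
          apply sum_le_sum
          intro p hp
          exact hf p.1 p.2 (by simpa using hp)
      _ ≤ 2 * (Fintype.card I) ^ 2 * Fintype.card Z := by
          rw [sum_const, smul_eq_mul]
          have : (univ : Finset I).offDiag.card ≤ Fintype.card I ^ 2 := by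
            rw [offDiag_card, card_univ, pow_two]
            exact Nat.sub_le _ _
          calc (univ : Finset I).offDiag.card * (2 * Fintype.card Z) ≤
              Fintype.card I ^ 2 * (2 * Fintype.card Z) := Nat.mul_le_mul_right _ this
            _ = _ := by ring
  exact_mod_cast h3

theorem lemB {g : ℕ → ℕ → ℝ} {S : Finset ℕ} {M : ℕ} {Po : Set ℕ} {η L : ℝ} {N : ℕ} (hN1 : 1 ≤ N)
    (h : Mj g S M Po η L) (hL : 1 ≤ L) (hη : 0 ≤ η) (hX : S.Nonempty) {I Z : Type}
    [Fintype I] [Fintype Z] [Nonempty Z]
    (hI : Fintype.card I ≤ M) (f : I → Z → ℕ) (hfP : ∀ i z, f i z ∈ Po)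
    (hf : ∀ i j, i ≠ j → (univ.filter (fun z => f i z = f j z)).card * N ≤ 2 * Fintype.card Z) :
    |(∑ K ∈ S, av (fun z : Z => ∏ i, g K (f i z))) / S.card - 1| ≤
      η + 2 * (Fintype.card I : ℝ) ^ 2 * L / N := by
  classical
  have hX' : (0 : ℝ) < S.card := by exact_mod_cast hX.card_pos
  have hN : (0 : ℝ) < N := by exact_mod_cast hN1
  have hY : (0 : ℝ) < Fintype.card Z := by exact_mod_cast Fintype.card_pos
  set P : Z → ℝ := fun y => (∑ K ∈ S, ∏ i, g K (f i y)) / S.card - 1 with hP
  have h1 : (∑ K ∈ S, av (fun y : Z => ∏ i, g K (f i y))) / S.card - 1 = av P := by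
    rw [hP, av_sub, av_const, ← av_sum]
    congr 1
    simp_rw [div_eq_inv_mul]
    rw [av_mul]
  have hgood : ∀ y, Function.Injective (fun i => f i y) → |P y| ≤ η := by
    intro y hy
    exact h.maj I hI (fun i => f i y) hy (fun i => hfP i y)
  have hbad : ∀ y, |P y| ≤ L := by
    intro y
    have h2 : 0 ≤ (∑ K ∈ S, ∏ i, g K (f i y)) / S.card :=
      div_nonneg (sum_nonneg fun K _ => prod_nonneg fun i _ => h.nonneg _ _) hX'.le
    have h3 : (∑ K ∈ S, ∏ i, g K (f i y)) / S.card ≤ L := by
      rw [div_le_iff₀ hX']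
      calc ∑ K ∈ S, ∏ i, g K (f i y)
          ≤ ∑ K ∈ S, L :=
            sum_le_sum fun K hK => h.bound I hI (fun i => f i y) (fun i => hfP i y) K hK
        _ = L * S.card := by rw [sum_const, nsmul_eq_mul, mul_comm]
    rw [abs_le]
    constructor <;> simp only [hP] <;> linarith
  rw [h1]
  refine (av_abs_le' P).trans ?_
  have h4 : av (fun y => |P y|) ≤ av (fun y => η +
      if ¬ Function.Injective (fun i => f i y) then L else 0) := by
    apply av_mono
    intro y
    by_cases hy : Function.Injective (fun i => f i y)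
    · rw [if_neg (not_not_intro hy)]
      have := hgood y hy
      linarith
    · rw [if_pos hy]
      have := hbad y
      linarith
  refine h4.trans ?_
  rw [av_add, av_const]
  have h5 : av (fun y : Z => if ¬ Function.Injective (fun i => f i y) then L else 0) =
      ((univ.filter (fun y => ¬ Function.Injective (fun i => f i y))).card : ℝ) * L /
        Fintype.card Z := by
    unfold av
    rw [← sum_filter, sum_const, nsmul_eq_mul]
  rw [h5]
  have h6 := card_badP N f (fun i j hij => by convert hf i j hij)
  have h7 : ((univ.filter (fun y => ¬ Function.Injective (fun i => f i y))).card : ℝ) * L /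
        Fintype.card Z ≤ 2 * (Fintype.card I : ℝ) ^ 2 * L / N := by
    rw [div_le_div_iff₀ hY hN]
    nlinarith
  linarith

end Pool.Agent.H534.RS
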