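import Pool.Agent.H534.RS.MKr

/-!
# The linear forms conditions for most members of a family of weights on `(ZMod N)^r`, part 2
-/

set_option autoImplicit false

open Finset

namespace Pool.Agent.H534.RS

open Pool.Agent.H602R3.DHJ
open Pool.Agent.Y727.PSP (sw sl Ind LF rp rp_pos rp_le rp_cast rp_of)

/-- the forms of a system -/
structure Fam {r N : ℕ} {I Z : Type} (L : I → Z → Fin r → ZMod N) : Prop where
  mov : ∀ i j, i ≠ j → Mov (L i) (L j)
  mov1 : ∀ i, Mov1 (L i)

theorem Mov_cross {r N : ℕ} {Z : Type} {L L' : Z → Fin r → ZMod N} (h : Mov1 L') :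
    Mov (fun z : Z × Z => L z.1) (fun z : Z × Z => L' z.2) := by
  obtain ⟨v, mv, h1⟩ := h
  exact ⟨v, fun s => Equiv.prodCongr (Equiv.refl Z) (mv s), fun s z => rfl, fun s z => h1 s z.2⟩

theorem Mov_cross' {r N : ℕ} {Z : Type} {L L' : Z → Fin r → ZMod N} (h : Mov1 L') :
    Mov (fun z : Z × Z => L z.2) (fun z : Z × Z => L' z.1) := by
  obtain ⟨v, mv, h1⟩ := h
  exact ⟨v, fun s => Equiv.prodCongr (mv s) (Equiv.refl Z), fun s z => rfl, fun s z => h1 s z.1⟩

theorem Mov_fst {r N : ℕ} {Z : Type} {L L' : Z → Fin r → ZMod N} (h : Mov L L') :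
    Mov (fun z : Z × Z => L z.1) (fun z : Z × Z => L' z.1) := by
  obtain ⟨v, mv, h0, h1⟩ := h
  exact ⟨v, fun s => Equiv.prodCongr (mv s) (Equiv.refl Z), fun s z => h0 s z.1, fun s z => h1 s z.1⟩

theorem Mov_snd {r N : ℕ} {Z : Type} {L L' : Z → Fin r → ZMod N} (h : Mov L L') :
    Mov (fun z : Z × Z => L z.2) (fun z : Z × Z => L' z.2) := by
  obtain ⟨v, mv, h0, h1⟩ := h
  exact ⟨v, fun s => Equiv.prodCongr (Equiv.refl Z) (mv s), fun s z => h0 s z.2, fun s z => h1 s z.2⟩

/-- the range of the positions -/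
def Po {r : ℕ} (N : ℕ) (b : Fin r → ℕ) : Set ℕ := Set.range (fun y : Fin r → ZMod N => tau b y)

theorem lemC {r : ℕ} {b : Fin r → ℕ} (hb : Function.Injective b) (hb1 : ∀ l, 1 ≤ b l)
    {g : ℕ → ℕ → ℝ} {S : Finset ℕ} {M : ℕ} {η T : ℝ} {N : ℕ} [NeZero N]
    (h : Mj g S M (Po N b) η T) (hT : 1 ≤ T) (hη : 0 ≤ η) (hX : S.Nonempty) {I Z : Type}
    [Fintype I] [Fintype Z] [Nonempty Z]
    (hI : 2 * Fintype.card I ≤ M) (L : I → Z → Fin r → ZMod N) (hL : Fam L) :
    ∑ K ∈ S, (av (fun z : Z => ∏ i, g K (tau b (L i z))) - 1) ^ 2 ≤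
      (3 * η + 4 * (M : ℝ) ^ 2 * T / N) * S.card := by
  classical
  have hX' : (0 : ℝ) < S.card := by exact_mod_cast hX.card_pos
  have hN1 : 1 ≤ N := Nat.pos_of_ne_zero (NeZero.ne N)
  have hN : (0 : ℝ) < N := by exact_mod_cast hN1
  have h1 := lemB hN1 h hT hη hX (by omega) (fun i z => tau b (L i z)) (fun i z => ⟨L i z, rfl⟩)
    (fun i j hij => coll b hb hb1 _ _ (hL.mov i j hij))
  -- the family on `Z × Z`
  let f : I ⊕ I → Z × Z → Fin r → ZMod N := Sum.elim (fun i z => L i z.1) (fun i z => L i z.2)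
  have hf : ∀ i j, i ≠ j → Mov (f i) (f j) := by
    rintro (i | i) (j | j) hij
    · exact Mov_fst (hL.mov i j (fun h => hij (by rw [h])))
    · exact Mov_cross (hL.mov1 j)
    · exact Mov_cross' (hL.mov1 j)
    · exact Mov_snd (hL.mov i j (fun h => hij (by rw [h])))
  have h2 := lemB hN1 h hT hη hX (by rw [Fintype.card_sum]; omega) (fun i z => tau b (f i z))
    (fun i z => ⟨f i z, rfl⟩) (fun i j hij => coll b hb hb1 _ _ (hf i j hij))
  have h3 : ∀ K, av (fun y : Z × Z => ∏ i, g K (tau b (f i y))) =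
      (av (fun y : Z => ∏ i, g K (tau b (L i y)))) ^ 2 := by
    intro K
    rw [av_prod]
    have h4 : ∀ x y : Z, ∏ i, g K (tau b (f i (x, y))) =
        (∏ i, g K (tau b (L i x))) * ∏ i, g K (tau b (L i y)) := by
      intro x y
      rw [Fintype.prod_sum_type]
      rfl
    simp_rw [h4]
    simp_rw [av_mul]
    have h5 : av (fun x : Z => (∏ i, g K (tau b (L i x))) *
        av (fun y : Z => ∏ i, g K (tau b (L i y)))) =
        av (fun x : Z => av (fun y : Z => ∏ i, g K (tau b (L i y))) *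
          ∏ i, g K (tau b (L i x))) := by
      congr 1
      funext x
      rw [mul_comm]
    rw [h5, av_mul, pow_two]
  simp_rw [h3] at h2
  rw [Fintype.card_sum] at h2
  set F : ℕ → ℝ := fun K => av (fun y : Z => ∏ i, g K (tau b (L i y))) with hF
  change |(∑ K ∈ S, F K) / S.card - 1| ≤ _ at h1
  change |(∑ K ∈ S, F K ^ 2) / S.card - 1| ≤ _ at h2
  change ∑ K ∈ S, (F K - 1) ^ 2 ≤ _
  have h6 : ∑ K ∈ S, (F K - 1) ^ 2 =
      (((∑ K ∈ S, F K ^ 2) / S.card - 1) - 2 * ((∑ K ∈ S, F K) / S.card - 1)) * S.card := by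
    have h7 : ∑ K ∈ S, (F K - 1) ^ 2 =
        ∑ K ∈ S, F K ^ 2 - 2 * ∑ K ∈ S, F K + S.card := by
      simp_rw [sub_sq]
      rw [sum_add_distrib, sum_sub_distrib, mul_sum]
      simp only [mul_one, one_pow, sum_const, nsmul_eq_mul]
    rw [h7]
    field_simp
    ring
  rw [h6]
  apply mul_le_mul_of_nonneg_right _ hX'.le
  have h8 := (abs_le.1 h1).1
  have h9 := (abs_le.1 h2).2
  have hm : (Fintype.card I : ℝ) * 2 ≤ M := by
    have : Fintype.card I * 2 ≤ M := by omega
    exact_mod_cast this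
  have hm0 : (0 : ℝ) ≤ Fintype.card I := by positivity
  have hLN : 0 ≤ T / N := by positivity
  have h10 : 2 * (Fintype.card I : ℝ) ^ 2 * T / N ≤ (M : ℝ) ^ 2 / 2 * (T / N) := by
    rw [mul_div_assoc]
    apply mul_le_mul_of_nonneg_right _ hLN
    nlinarith
  have h11 : 2 * ((Fintype.card I + Fintype.card I : ℕ) : ℝ) ^ 2 * T / N ≤ 2 * (M : ℝ) ^ 2 * (T / N) := by
    rw [mul_div_assoc]
    apply mul_le_mul_of_nonneg_right _ hLN
    push_cast
    nlinarith
  have h12 : 4 * (M : ℝ) ^ 2 * T / N = 4 * ((M : ℝ) ^ 2 * (T / N)) := by ring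
  rw [h12]
  have h13 : 0 ≤ (M : ℝ) ^ 2 * (T / N) := by positivity
  linarith

open Classical in
/-- the number of the bad members for one system -/
theorem badK {r : ℕ} {b : Fin r → ℕ} (hb : Function.Injective b) (hb1 : ∀ l, 1 ≤ b l)
    {g : ℕ → ℕ → ℝ} {S : Finset ℕ} {M : ℕ} {η T : ℝ} {N : ℕ} [NeZero N]
    (h : Mj g S M (Po N b) η T) (hT : 1 ≤ T) (hη : 0 ≤ η) (hX : S.Nonempty) {I Z : Type}
    [Fintype I] [Fintype Z] [Nonempty Z]
    (hI : 2 * Fintype.card I ≤ M) (L : I → Z → Fin r → ZMod N) (hL : Fam L) (ε : ℝ) (hε : 0 < ε) :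
    ((S.filter (fun K => ε < |av (fun z : Z => ∏ i, g K (tau b (L i z))) - 1|)).card : ℝ) * ε ^ 2 ≤
      (3 * η + 4 * (M : ℝ) ^ 2 * T / N) * S.card := by
  refine le_trans ?_ (lemC hb hb1 h hT hη hX hI L hL)
  set bad := S.filter (fun K => ε < |av (fun z : Z => ∏ i, g K (tau b (L i z))) - 1|) with hbad
  calc (bad.card : ℝ) * ε ^ 2 = ∑ K ∈ bad, ε ^ 2 := by
        rw [sum_const, nsmul_eq_mul]
    _ ≤ ∑ K ∈ bad, (av (fun z : Z => ∏ i, g K (tau b (L i z))) - 1) ^ 2 := by
        apply sum_le_sum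
        intro K hK
        rw [hbad, mem_filter] at hK
        rw [← sq_abs (av _ - 1)]
        exact pow_le_pow_left₀ hε.le hK.2.le 2
    _ ≤ _ := sum_le_sum_of_subset_of_nonneg (filter_subset _ _)
        (fun K _ _ => sq_nonneg _)

/-! ### the moves of cubes -/

theorem sl_add {J V : Type} [DecidableEq J] [AddCommGroup V] (ω : Finset J) (z : J → V × V) (i : J)
    (p : V × V) : sl ω (z + Pi.single i p) = Function.update (sl ω z) i (sl ω z i + if i ∈ ω then p.2 else p.1) := by
  funext k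
  unfold sl
  by_cases hk : k = i
  · subst hk
    by_cases hω : k ∈ ω <;> simp [hω]
  · simp [hk]

/-- the move of one coordinate -/
def mvE {J V : Type} [DecidableEq J] [AddCommGroup V] (i : J) (p : V × V) : (J → V × V) ≃ (J → V × V) :=
  Equiv.addRight (Pi.single i p)

theorem mvE_apply {J V : Type} [DecidableEq J] [AddCommGroup V] (i : J) (p : V × V) (z : J → V × V) :
    mvE i p z = z + Pi.single i p := rfl

/-- the corner systems -/
theorem fam_corner (r N : ℕ) (hr : 1 ≤ r) (T : Finset (Option (Fin r) × Finset (Option (Fin r))))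
    (hT : ∀ t ∈ T, t.1 ∉ t.2) :
    Fam (fun (t : T) (z : Option (Fin r) → ZMod N × ZMod N) => P t.1.1 (sl t.1.2 z)) := by
  classical
  have l₀ : Fin r := ⟨0, by omega⟩
  constructor
  · rintro ⟨⟨j, ω⟩, ht⟩ ⟨⟨j', ω'⟩, ht'⟩ hne
    have h1 := hT _ ht
    have h2 := hT _ ht'
    simp only at h1 h2 ⊢
    by_cases hj : j = j'
    · subst hj
      have hω : ω ≠ ω' := fun h => hne (by subst h; rfl)
      obtain ⟨i, hi⟩ : ∃ i, ¬ (i ∈ ω ↔ i ∈ ω') := by
        by_contra hcon
        push Not at hcon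
        exact hω (Finset.ext hcon)
      have hij : i ≠ j := by
        rintro rfl
        exact hi ⟨fun h => absurd h h1, fun h => absurd h h2⟩
      by_cases hiω : i ∈ ω
      · have hiω' : i ∉ ω' := fun h => hi ⟨fun _ => h, fun _ => hiω⟩
        refine ⟨dj j i l₀, fun s => mvE i (s, 0), ?_, ?_⟩
        · intro s z
          beta_reduce
          rw [mvE_apply, sl_add, if_pos hiω]
          simp
        · intro s z
          beta_reduce
          rw [mvE_apply, sl_add, if_neg hiω']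
          exact P_move l₀ j i hij _ s
      · have hiω' : i ∈ ω' := by
          by_contra h
          exact hi ⟨fun h' => absurd h' hiω, fun h' => absurd h' h⟩
        refine ⟨dj j i l₀, fun s => mvE i (0, s), ?_, ?_⟩
        · intro s z
          beta_reduce
          rw [mvE_apply, sl_add, if_neg hiω]
          simp
        · intro s z
          beta_reduce
          rw [mvE_apply, sl_add, if_pos hiω']
          exact P_move l₀ j i hij _ s
    · refine ⟨dj j' j l₀, fun s => mvE j (s, s), ?_, ?_⟩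
      · intro s z
        beta_reduce
        rw [mvE_apply, sl_add]
        exact P_update_self j _ _
      · intro s z
        beta_reduce
        rw [mvE_apply, sl_add]
        have : (if j ∈ ω' then ((s, s) : ZMod N × ZMod N).2 else ((s, s) : ZMod N × ZMod N).1) = s := by
          split_ifs <;> rfl
        rw [this]
        exact P_move l₀ j' j hj _ s
  · rintro ⟨⟨j, ω⟩, ht⟩
    simp only
    obtain ⟨i, hij⟩ : ∃ i : Option (Fin r), i ≠ j := by
      rcases j with _ | j
      · exact ⟨some l₀, Option.some_ne_none _⟩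
      · exact ⟨none, (Option.some_ne_none _).symm⟩
    refine ⟨dj j i l₀, fun s => mvE i (s, s), ?_⟩
    intro s z
    beta_reduce
    rw [mvE_apply, sl_add]
    have : (if i ∈ ω then ((s, s) : ZMod N × ZMod N).2 else ((s, s) : ZMod N × ZMod N).1) = s := by
      split_ifs <;> rfl
    rw [this]
    exact P_move l₀ j i hij _ s

/-- the box systems -/
theorem fam_box (r N : ℕ) (hr : 1 ≤ r) (S : Finset (Finset (Fin r × Option (Fin r)))) :
    Fam (fun (t : S) (z : (Fin r × Option (Fin r)) → ZMod N × ZMod N) => Th r N (sl t.1 z)) := by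
  classical
  have l₀ : Fin r := ⟨0, by omega⟩
  constructor
  · rintro ⟨ω, ht⟩ ⟨ω', ht'⟩ hne
    simp only
    have hω : ω ≠ ω' := fun h => hne (by subst h; rfl)
    obtain ⟨i, hi⟩ : ∃ i, ¬ (i ∈ ω ↔ i ∈ ω') := by
      by_contra hcon
      push Not at hcon
      exact hω (Finset.ext hcon)
    by_cases hiω : i ∈ ω
    · have hiω' : i ∉ ω' := fun h => hi ⟨fun _ => h, fun _ => hiω⟩
      refine ⟨i, fun s => mvE i (s, 0), ?_, ?_⟩
      · intro s z
        beta_reduce
        rw [mvE_apply, sl_add, if_pos hiω]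
        simp
      · intro s z
        beta_reduce
        rw [mvE_apply, sl_add, if_neg hiω']
        exact Th_move _ i s
    · have hiω' : i ∈ ω' := by
        by_contra h
        exact hi ⟨fun h' => absurd h' hiω, fun h' => absurd h' h⟩
      refine ⟨i, fun s => mvE i (0, s), ?_, ?_⟩
      · intro s z
        beta_reduce
        rw [mvE_apply, sl_add, if_neg hiω]
        simp
      · intro s z
        beta_reduce
        rw [mvE_apply, sl_add, if_pos hiω']
        exact Th_move _ i s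
  · rintro ⟨ω, ht⟩
    simp only
    refine ⟨(l₀, none), fun s => mvE (l₀, none) (s, s), ?_⟩
    intro s z
    beta_reduce
    rw [mvE_apply, sl_add]
    have : (if (l₀, (none : Option (Fin r))) ∈ ω then ((s, s) : ZMod N × ZMod N).2 else ((s, s) : ZMod N × ZMod N).1) = s := by
      split_ifs <;> rfl
    rw [this]
    exact Th_move _ _ s

theorem fam_one (r N : ℕ) (hr : 1 ≤ r) : Fam (fun (_ : Unit) (z : Fin r → ZMod N) => z) :=
  ⟨fun i j h => absurd (Subsingleton.elim i j) h,
    fun _ => ⟨(⟨0, by omega⟩, none), fun s => Equiv.addRight (s • dir _), fun _ _ => rfl⟩⟩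

end Pool.Agent.H534.RS
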