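import Pool.Agent.H534.RS.MKs

/-!
# The linear forms conditions for most members of a family of weights on `(ZMod N)^r`, part 3
-/

set_option autoImplicit false

open Finset

namespace Pool.Agent.H534.RS

open Pool.Agent.H602R3.DHJ
open Pool.Agent.Y727.PSP (sw sl Ind LF rp rp_pos rp_le rp_cast rp_of)

/-- the number of the correlations -/
def Mr (r : ℕ) : ℕ := 2 * (Fintype.card (Option (Fin r) × Finset (Option (Fin r))) +
    Fintype.card (Finset (Fin r × Option (Fin r))) + 1)

open Classical in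
theorem mkr (r : ℕ) (hr : 1 ≤ r) (η : ℝ) (hη : 0 < η) : ∃ η' : ℝ, 0 < η' ∧
    ∀ (N : ℕ) [NeZero N] (b : Fin r → ℕ), Function.Injective b → (∀ l, 1 ≤ b l) →
    ∀ (S : Finset ℕ) (g : ℕ → ℕ → ℝ) (T : ℝ), S.Nonempty → 1 ≤ T → (∀ K t, 0 ≤ g K t) →
    (∀ K ∈ S, ∀ t ∈ Po N b, g K t ≤ T) → T ^ Mr r / N ≤ η' →
    (∀ m ≤ Mr r, ∀ u : Fin m → ℕ, Function.Injective u → (∀ i, u i ∈ Po N b) →
      |(∑ K ∈ S, ∏ i, g K (u i)) / S.card - 1| ≤ η') →
    ∑ K ∈ S, |av (fun y : Fin r → ZMod N => g K (tau b y)) - 1| ≤ η * S.card ∧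
    ((S.filter (fun K => ¬ (LF (fun (j : Option (Fin r)) (x : Option (Fin r) → ZMod N) =>
      g K (tau b (P j x))) η ∧ BX (fun y : Fin r → ZMod N => g K (tau b y)) η))).card : ℝ) ≤ η * S.card := by
  obtain ⟨M, hM'⟩ : ∃ M : ℕ, M = Mr r := ⟨_, rfl⟩
  have hM : M = 2 * (Fintype.card (Option (Fin r) × Finset (Option (Fin r))) +
    Fintype.card (Finset (Fin r × Option (Fin r))) + 1) := hM'
  rw [← hM']
  obtain ⟨Q, hQ⟩ : ∃ Q : ℕ, Q = Fintype.card (Finset (Option (Fin r) × Finset (Option (Fin r)))) +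
    Fintype.card (Finset (Finset (Fin r × Option (Fin r)))) := ⟨_, rfl⟩
  have hQ0 : 0 < Q := by
    rw [hQ]
    have : 0 < Fintype.card (Finset (Option (Fin r) × Finset (Option (Fin r)))) := Fintype.card_pos
    omega
  have hQr : (0 : ℝ) < Q := by exact_mod_cast hQ0
  obtain ⟨m₀, hm₀⟩ : ∃ m₀ : ℝ, m₀ = min (η ^ 2) (η ^ 3 / Q) := ⟨_, rfl⟩
  have hm₀' : 0 < m₀ := by rw [hm₀]; exact lt_min (by positivity) (by positivity)
  have hd : (0 : ℝ) < 3 + 4 * (M : ℝ) ^ 2 := by positivity
  obtain ⟨η', hη'⟩ : ∃ η' : ℝ, η' = m₀ / (3 + 4 * (M : ℝ) ^ 2) := ⟨_, rfl⟩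
  have hη'0 : 0 < η' := by rw [hη']; positivity
  refine ⟨η', hη'0, ?_⟩
  intro N _ b hb hb1 S g T hS hT hg0 hgT hTN hcor
  have hN1 : 1 ≤ N := Nat.pos_of_ne_zero (NeZero.ne N)
  have hN : (0 : ℝ) < N := by exact_mod_cast hN1
  have hX' : (0 : ℝ) < S.card := by exact_mod_cast hS.card_pos
  have hMj : Mj g S M (Po N b) η' (T ^ M) := by
    refine ⟨hg0, ?_, ?_⟩
    · intro I _ hI u hu huP
      have e : I ≃ Fin (Fintype.card I) := Fintype.equivFin I
      have h1 := hcor (Fintype.card I) hI (u ∘ e.symm) (hu.comp e.symm.injective) (fun i => huP _)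
      have h2 : ∀ K, ∏ i, g K ((u ∘ e.symm) i) = ∏ i, g K (u i) := by
        intro K
        exact Equiv.prod_comp e.symm (fun i => g K (u i))
      simp_rw [h2] at h1
      exact h1
    · intro I _ hI u huP K hK
      calc ∏ i, g K (u i) ≤ ∏ _i : I, T :=
            prod_le_prod (fun i _ => hg0 _ _) (fun i _ => hgT K hK _ (huP i))
        _ = T ^ Fintype.card I := by rw [prod_const, card_univ]
        _ ≤ T ^ M := pow_le_pow_right₀ hT hI
  have hδ : 3 * η' + 4 * (M : ℝ) ^ 2 * T ^ M / N ≤ m₀ := by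
    have h1 : 4 * (M : ℝ) ^ 2 * T ^ M / N ≤ 4 * (M : ℝ) ^ 2 * η' := by
      rw [mul_div_assoc]
      exact mul_le_mul_of_nonneg_left hTN (by positivity)
    have h2 : (3 + 4 * (M : ℝ) ^ 2) * η' = m₀ := by
      rw [hη']
      field_simp
    calc 3 * η' + 4 * (M : ℝ) ^ 2 * T ^ M / N ≤ 3 * η' + 4 * (M : ℝ) ^ 2 * η' := by linarith
      _ = (3 + 4 * (M : ℝ) ^ 2) * η' := by ring
      _ = m₀ := h2
  have hT1 : 1 ≤ T ^ M := one_le_pow₀ hT
  constructor
  · have h3 := lemC hb hb1 hMj hT1 hη'0.le hS (I := Unit) (by rw [Fintype.card_unit]; omega)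
      (fun _ (z : Fin r → ZMod N) => z) (fam_one r N hr)
    have h4 : ∀ K, av (fun y : Fin r → ZMod N => ∏ _i : Unit, g K (tau b y)) =
        av (fun y : Fin r → ZMod N => g K (tau b y)) := by
      intro K
      congr 1
      funext y
      simp
    simp_rw [h4] at h3
    have h5 : ∀ K ∈ S, |av (fun y : Fin r → ZMod N => g K (tau b y)) - 1| ≤
        η / 2 + (av (fun y : Fin r → ZMod N => g K (tau b y)) - 1) ^ 2 / (2 * η) := by
      intro K _
      generalize av (fun y : Fin r → ZMod N => g K (tau b y)) - 1 = x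
      have h6 : η / 2 + x ^ 2 / (2 * η) = (η ^ 2 + x ^ 2) / (2 * η) := by
        field_simp
      rw [h6, le_div_iff₀ (by positivity)]
      nlinarith [sq_nonneg (|x| - η), sq_abs x]
    refine (sum_le_sum h5).trans ?_
    rw [sum_add_distrib, sum_const, nsmul_eq_mul, ← sum_div]
    have h6 : (∑ K ∈ S, (av (fun y : Fin r → ZMod N => g K (tau b y)) - 1) ^ 2) / (2 * η) ≤ η / 2 * S.card := by
      rw [div_le_iff₀ (by positivity)]
      calc ∑ K ∈ S, (av (fun y : Fin r → ZMod N => g K (tau b y)) - 1) ^ 2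
          ≤ (3 * η' + 4 * (M : ℝ) ^ 2 * T ^ M / N) * S.card := h3
        _ ≤ η ^ 2 * S.card := mul_le_mul_of_nonneg_right (hδ.trans (by rw [hm₀]; exact min_le_left _ _)) hX'.le
        _ = η / 2 * S.card * (2 * η) := by ring
    linarith
  · -- the exceptional sets
    obtain ⟨TT, hTT⟩ : ∃ TT : Finset (Finset (Option (Fin r) × Finset (Option (Fin r)))),
      TT = univ.filter (fun T => ∀ t ∈ T, t.1 ∉ t.2) := ⟨_, rfl⟩
    let bad1 : Finset (Option (Fin r) × Finset (Option (Fin r))) → Finset ℕ := fun T =>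
      S.filter (fun K => η < |av (fun z : Option (Fin r) → ZMod N × ZMod N =>
        ∏ t : T, g K (tau b (P t.1.1 (sl t.1.2 z)))) - 1|)
    let bad2 : Finset (Finset (Fin r × Option (Fin r))) → Finset ℕ := fun S' =>
      S.filter (fun K => η < |av (fun z : (Fin r × Option (Fin r)) → ZMod N × ZMod N =>
        ∏ t : S', g K (tau b (Th r N (sl t.1 z)))) - 1|)
    have hsub : S.filter (fun K => ¬ (LF (fun (j : Option (Fin r)) (x : Option (Fin r) → ZMod N) =>
        g K (tau b (P j x))) η ∧ BX (fun y : Fin r → ZMod N => g K (tau b y)) η)) ⊆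
        TT.biUnion bad1 ∪ (univ : Finset (Finset (Finset (Fin r × Option (Fin r))))).biUnion bad2 := by
      intro K hK
      rw [mem_filter] at hK
      have h3 := hK.2
      rw [not_and_or] at h3
      rw [mem_union, mem_biUnion, mem_biUnion]
      rcases h3 with h3 | h3
      · left
        unfold LF at h3
        push Not at h3
        obtain ⟨T, hT, h4⟩ := h3
        refine ⟨T, by rw [hTT, mem_filter]; exact ⟨mem_univ _, hT⟩, ?_⟩
        rw [mem_filter]
        refine ⟨hK.1, ?_⟩
        have e : (fun z : Option (Fin r) → ZMod N × ZMod N => ∏ t : T, g K (tau b (P t.1.1 (sl t.1.2 z)))) =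
            fun z => ∏ t ∈ T, g K (tau b (P t.1 (sl t.2 z))) := by
          funext z
          exact prod_coe_sort T (fun t => g K (tau b (P t.1 (sl t.2 z))))
        rw [e]
        exact h4
      · right
        unfold BX at h3
        push Not at h3
        obtain ⟨S', h4⟩ := h3
        refine ⟨S', mem_univ _, ?_⟩
        rw [mem_filter]
        refine ⟨hK.1, ?_⟩
        have e : (fun z : (Fin r × Option (Fin r)) → ZMod N × ZMod N => ∏ t : S', g K (tau b (Th r N (sl t.1 z)))) =
            fun z => ∏ t ∈ S', g K (tau b (Th r N (sl t z))) := by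
          funext z
          exact prod_coe_sort S' (fun t => g K (tau b (Th r N (sl t z))))
        rw [e]
        exact h4
    have hfin : ∀ x : ℝ, x * η ^ 2 ≤ (3 * η' + 4 * (M : ℝ) ^ 2 * T ^ M / N) * S.card → x * Q ≤ η * S.card := by
      intro x hx
      have h6 : x * Q * η ^ 2 ≤ η * S.card * η ^ 2 := by
        calc x * Q * η ^ 2 = Q * (x * η ^ 2) := by ring
          _ ≤ Q * ((3 * η' + 4 * (M : ℝ) ^ 2 * T ^ M / N) * S.card) :=
              mul_le_mul_of_nonneg_left hx (by positivity)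
          _ ≤ Q * ((η ^ 3 / Q) * S.card) := by
              have := hδ.trans (le_of_eq hm₀ |>.trans (min_le_right _ _))
              gcongr
          _ = η * S.card * η ^ 2 := by
              field_simp
      exact le_of_mul_le_mul_right h6 (by positivity)
    have hone1 : ∀ T ∈ TT, ((bad1 T).card : ℝ) * Q ≤ η * S.card := by
      intro T hT
      rw [hTT, mem_filter] at hT
      apply hfin
      have hcT : Fintype.card T ≤ Fintype.card (Option (Fin r) × Finset (Option (Fin r))) := by
        rw [Fintype.card_coe]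
        exact card_le_univ _
      exact badK hb hb1 hMj hT1 hη'0.le hS (I := T) (by rw [hM]; omega)
        (fun (t : T) (z : Option (Fin r) → ZMod N × ZMod N) => P t.1.1 (sl t.1.2 z))
        (fam_corner r N hr T hT.2) η hη
    have hone2 : ∀ S' ∈ (univ : Finset (Finset (Finset (Fin r × Option (Fin r))))),
        ((bad2 S').card : ℝ) * Q ≤ η * S.card := by
      intro S' _
      apply hfin
      have hcT : Fintype.card S' ≤ Fintype.card (Finset (Fin r × Option (Fin r))) := by
        rw [Fintype.card_coe]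
        exact card_le_univ _
      exact badK hb hb1 hMj hT1 hη'0.le hS (I := S') (by rw [hM]; omega)
        (fun (t : S') (z : (Fin r × Option (Fin r)) → ZMod N × ZMod N) => Th r N (sl t.1 z))
        (fam_box r N hr S') η hη
    have h7 : ((S.filter (fun K => ¬ (LF (fun (j : Option (Fin r)) (x : Option (Fin r) → ZMod N) =>
        g K (tau b (P j x))) η ∧ BX (fun y : Fin r → ZMod N => g K (tau b y)) η))).card : ℝ) ≤
        ∑ T ∈ TT, ((bad1 T).card : ℝ) + ∑ S' ∈ (univ : Finset (Finset (Finset (Fin r × Option (Fin r))))),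
          ((bad2 S').card : ℝ) := by
      have := (card_le_card hsub).trans ((card_union_le _ _).trans (add_le_add card_biUnion_le card_biUnion_le))
      exact_mod_cast this
    have h8 : (∑ T ∈ TT, ((bad1 T).card : ℝ) + ∑ S' ∈ (univ : Finset (Finset (Finset (Fin r × Option (Fin r))))),
          ((bad2 S').card : ℝ)) * Q ≤ η * S.card * Q := by
      rw [add_mul, sum_mul, sum_mul]
      refine (add_le_add (sum_le_sum hone1) (sum_le_sum hone2)).trans ?_
      rw [sum_const, sum_const, nsmul_eq_mul, nsmul_eq_mul, ← add_mul, mul_comm (η * _)]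
      apply mul_le_mul_of_nonneg_right _ (by positivity)
      have h9 : TT.card ≤ Fintype.card (Finset (Option (Fin r) × Finset (Option (Fin r)))) := card_le_univ _
      have h10 : TT.card + (univ : Finset (Finset (Finset (Fin r × Option (Fin r))))).card ≤ Q := by
        rw [hQ, card_univ]
        omega
      exact_mod_cast h10
    exact h7.trans (le_of_mul_le_mul_right h8 hQr)

end Pool.Agent.H534.RS
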