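import Pool.Graph.R_seed8.Y814.RSZ.Mj3
import Pool.Graph.R_seed8.Y814.RSZ.Mj4
import Pool.Graph.R_seed8.Y833.RSZ.CLS

/-!
# The tuples of moduli with a common prime factor, for a large modulus `W`
-/

set_option autoImplicit false

open Finset

namespace Pool.Agent.H534.RS

open Pool.Agent.TH423.SH (PS PIj)
open Pool.Agent.Y917.PSP (TT Dl wt mem_TT Dl_pos div_bound)
open Pool.Agent.Y677.RSZ
open Pool.Agent.Y814.RSZ (ds ds_eq ds_sq cn Dl_primes Dl_sqf mem_PS Cl cn_eq per_dvd)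
open Pool.Agent.Y833.RSZ (card_shift)

theorem V_split' (F : ℤ → ℤ) (W z R : ℕ) (hWz : ∀ p : ℕ, p.Prime → p ∣ W → p ≤ z) (hzR : z ≤ R) :
    V F W R = V F W z * PR (rt F) z R := by
  have e : PS W R = PS W z ∪ (Ioc z R).filter Nat.Prime := by
    ext p
    rw [mem_union, mem_PS, mem_PS, mem_filter, mem_Ioc]
    constructor
    · rintro ⟨⟨h1, h2⟩, h3, h4⟩
      rcases le_or_gt p z with h | h
      · exact Or.inl ⟨⟨h1, h⟩, h3, h4⟩
      · exact Or.inr ⟨⟨h, h2⟩, h3⟩
    · rintro (⟨⟨h1, h2⟩, h3, h4⟩ | ⟨⟨h1, h2⟩, h3⟩)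
      · exact ⟨⟨h1, h2.trans hzR⟩, h3, h4⟩
      · refine ⟨⟨by omega, h2⟩, h3, fun h => ?_⟩
        have := hWz p h3 h
        omega
  have hd : Disjoint (PS W z) ((Ioc z R).filter Nat.Prime) := by
    rw [disjoint_left]
    intro p hp hp2
    rw [mem_PS] at hp
    rw [mem_filter, mem_Ioc] at hp2
    omega
  unfold V PR
  rw [e, prod_union hd]

theorem card_mod (p M₀ L r : ℕ) :
    ((Ioc M₀ (M₀ + L)).filter (fun K => K % p = r)).card ≤ L / p + 1 := by
  rw [← card_range (L / p + 1)]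
  apply card_le_card_of_injOn (fun K => (K - M₀ - 1) / p)
  · intro K hK
    rw [mem_coe, mem_filter, mem_Ioc] at hK
    rw [mem_coe, mem_range]
    have : (K - M₀ - 1) / p ≤ L / p := Nat.div_le_div_right (by omega)
    exact Nat.lt_succ_of_le this
  · intro K hK K' hK' h
    rw [mem_coe, mem_filter, mem_Ioc] at hK hK'
    simp only at h
    have h1 : (K - M₀ - 1) + (M₀ + 1) ≡ (K' - M₀ - 1) + (M₀ + 1) [MOD p] := by
      rw [show K - M₀ - 1 + (M₀ + 1) = K by omega, show K' - M₀ - 1 + (M₀ + 1) = K' by omega]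
      exact hK.2.trans hK'.2.symm
    have h2 : (K - M₀ - 1) % p = (K' - M₀ - 1) % p := Nat.ModEq.add_right_cancel' _ h1
    have h3 := Nat.div_add_mod (K - M₀ - 1) p
    have h4 := Nat.div_add_mod (K' - M₀ - 1) p
    rw [h, h2] at h3
    omega

open Classical in
theorem card_per (p : ℕ) (hp : 0 < p) (Pq : ℕ → Prop) (hper : ∀ K, Pq K ↔ Pq (K % p)) (g : ℕ)
    (hg : ((range p).filter Pq).card ≤ g) (M₀ L : ℕ) :
    ((Ioc M₀ (M₀ + L)).filter Pq).card ≤ g * (L / p + 1) := by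
  have h1 : (Ioc M₀ (M₀ + L)).filter Pq ⊆ ((range p).filter Pq).biUnion
      (fun r => (Ioc M₀ (M₀ + L)).filter (fun K => K % p = r)) := by
    intro K hK
    rw [mem_filter] at hK
    rw [mem_biUnion]
    refine ⟨K % p, ?_, ?_⟩
    · rw [mem_filter, mem_range]
      exact ⟨Nat.mod_lt _ hp, (hper K).1 hK.2⟩
    · rw [mem_filter]
      exact ⟨hK.1, rfl⟩
  refine (card_le_card h1).trans (card_biUnion_le.trans ?_)
  refine (sum_le_sum fun r _ => card_mod p M₀ L r).trans ?_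
  rw [sum_const, smul_eq_mul]
  exact Nat.mul_le_mul_right _ hg

theorem cond_per {F : ℤ → ℤ} {p : ℕ} (hper : ∀ n : ℤ, (p : ℤ) ∣ F (n + p) - F n) (W b t K : ℕ) :
    ((p : ℤ) ∣ F ((W * (K + t) + b : ℕ) : ℤ)) ↔ ((p : ℤ) ∣ F ((W * (K % p + t) + b : ℕ) : ℤ)) := by
  apply per_dvd hper
  refine ⟨((W * (K / p) : ℕ) : ℤ), ?_⟩
  have h2 : W * (K + t) + b = W * (K % p + t) + b + p * (W * (K / p)) := by
    have := Nat.div_add_mod K p
    calc W * (K + t) + b = W * (p * (K / p) + K % p + t) + b := by rw [this]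
      _ = _ := by ring
  rw [h2]
  push_cast
  ring

open Classical in
/-- the `K` for which two of the values have a common prime factor `> z` -/
noncomputable def bdK (F : ℤ → ℤ) (W z b M₀ L : ℕ) {m : ℕ} (t : Fin m → ℕ) : Finset ℕ :=
  (Ioc M₀ (M₀ + L)).filter (fun K => ∃ i j, i ≠ j ∧ ∃ p : ℕ, p.Prime ∧ z < p ∧
    (p : ℤ) ∣ F ((W * (K + t i) + b : ℕ) : ℤ) ∧ (p : ℤ) ∣ F ((W * (K + t j) + b : ℕ) : ℤ))

theorem bad_card (g W z N b M₀ L m : ℕ) (F : ℤ → ℤ) (hS : Sys g F) (t : Fin m → ℕ)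
    (hinj : Function.Injective t) (hgW : g ≤ W) (hWz : ∀ p : ℕ, p.Prime → p ∣ W → p ≤ z)
    (ht : ∀ i, 1 ≤ t i ∧ t i ≤ N) (E : ℕ) (hE : ∀ n, z ^ n ≤ (W * N) ^ g → n ≤ E) :
    (bdK F W z b M₀ L t).card ≤ m ^ 2 * (E * (g * (L / z + 1))) := by
  classical
  obtain ⟨Δ, hΔ⟩ := hS.coll
  set hh : Fin m × Fin m → ℕ := fun q => W * ((t q.1 : ℤ) - (t q.2 : ℤ)).natAbs with hhh
  have hhpos : ∀ q ∈ (univ : Finset (Fin m)).offDiag, g ≤ hh q ∧ hh q ≤ W * N := by
    intro q hq
    rw [mem_offDiag] at hq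
    have h1 : 1 ≤ ((t q.1 : ℤ) - (t q.2 : ℤ)).natAbs := by
      rw [Nat.one_le_iff_ne_zero]
      intro h
      apply hq.2.2
      apply hinj
      omega
    have h2 : ((t q.1 : ℤ) - (t q.2 : ℤ)).natAbs ≤ N := by
      have := ht q.1
      have := ht q.2
      omega
    refine ⟨?_, ?_⟩
    · calc g ≤ W := hgW
        _ = W * 1 := (mul_one W).symm
        _ ≤ _ := Nat.mul_le_mul_left W h1
    · exact Nat.mul_le_mul_left W h2
  have hsub : bdK F W z b M₀ L t ⊆ (univ : Finset (Fin m)).offDiag.biUnion (fun q =>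
      ((Δ (hh q)).primeFactors.filter (fun p => z < p)).biUnion (fun p =>
        (Ioc M₀ (M₀ + L)).filter (fun K => (p : ℤ) ∣ F ((W * (K + t q.1) + b : ℕ) : ℤ)))) := by
    intro K hK
    unfold bdK at hK
    rw [mem_filter] at hK
    obtain ⟨hK1, i, j, hij, p, hp, hzp, h1, h2⟩ := hK
    have hq : (i, j) ∈ (univ : Finset (Fin m)).offDiag := by
      rw [mem_offDiag]; exact ⟨mem_univ _, mem_univ _, hij⟩
    rw [mem_biUnion]
    refine ⟨(i, j), hq, ?_⟩
    rw [mem_biUnion]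
    refine ⟨p, ?_, ?_⟩
    · rw [mem_filter, Nat.mem_primeFactors]
      obtain ⟨q1, q3⟩ := hhpos (i, j) hq
      obtain ⟨h4, _, h3⟩ := hΔ (hh (i, j)) q1
      refine ⟨⟨hp, ?_, by omega⟩, hzp⟩
      rcases le_total (t i) (t j) with hle | hle
      · apply h3 p hp _ h1
        have e : ((W * (K + t i) + b : ℕ) : ℤ) + (hh (i, j) : ℤ) =
            ((W * (K + t j) + b : ℕ) : ℤ) := by
          simp only [hhh]
          have e1 : ((((t i : ℤ) - (t j : ℤ)).natAbs : ℕ) : ℤ) = (t j : ℤ) - t i := by omega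
          push_cast [e1]
          ring
        rw [e]
        exact h2
      · apply h3 p hp _ h2
        have e : ((W * (K + t j) + b : ℕ) : ℤ) + (hh (i, j) : ℤ) =
            ((W * (K + t i) + b : ℕ) : ℤ) := by
          simp only [hhh]
          have e1 : ((((t i : ℤ) - (t j : ℤ)).natAbs : ℕ) : ℤ) = (t i : ℤ) - t j := by omega
          push_cast [e1]
          ring
        rw [e]
        exact h1
    · rw [mem_filter]
      exact ⟨hK1, h1⟩
  refine (card_le_card hsub).trans (card_biUnion_le.trans ?_)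
  have hone : ∀ q ∈ (univ : Finset (Fin m)).offDiag,
      (((Δ (hh q)).primeFactors.filter (fun p => z < p)).biUnion (fun p =>
        (Ioc M₀ (M₀ + L)).filter (fun K => (p : ℤ) ∣ F ((W * (K + t q.1) + b : ℕ) : ℤ)))).card ≤
      E * (g * (L / z + 1)) := by
    intro q hq
    obtain ⟨q1, q3⟩ := hhpos q hq
    obtain ⟨h4, h5, _⟩ := hΔ (hh q) q1
    refine card_biUnion_le.trans ?_
    have h6 : ∀ p ∈ (Δ (hh q)).primeFactors.filter (fun p => z < p),
        ((Ioc M₀ (M₀ + L)).filter (fun K => (p : ℤ) ∣ F ((W * (K + t q.1) + b : ℕ) : ℤ))).card ≤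
        g * (L / z + 1) := by
      intro p hp
      rw [mem_filter] at hp
      have hpp := Nat.prime_of_mem_primeFactors hp.1
      have hpW : ¬ p ∣ W := fun h => by
        have := hWz p hpp h
        omega
      have h7 := card_per p hpp.pos (fun K => (p : ℤ) ∣ F ((W * (K + t q.1) + b : ℕ) : ℤ))
        (fun K => cond_per (hS.per p hpp) W b (t q.1) K) g (by
          have := card_shift hpp (hS.per p hpp) W b (t q.1) hpW
          have h8 := (hS.root p hpp).1
          rw [← this] at h8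
          convert h8) M₀ L
      refine le_trans (le_of_eq ?_) (h7.trans ?_)
      · congr!
      · apply Nat.mul_le_mul_left
        have : L / p ≤ L / z ∨ z = 0 := by
          rcases Nat.eq_zero_or_pos z with h | h
          · exact Or.inr h
          · exact Or.inl (Nat.div_le_div_left hp.2.le h)
        rcases this with h | h
        · omega
        · exfalso
          have := hE (E + 1) (by rw [h, zero_pow (by omega)]; exact Nat.zero_le _)
          omega
    refine (sum_le_sum h6).trans ?_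
    rw [sum_const, smul_eq_mul]
    apply Nat.mul_le_mul_right
    apply hE
    calc z ^ ((Δ (hh q)).primeFactors.filter (fun p => z < p)).card =
          ∏ p ∈ (Δ (hh q)).primeFactors.filter (fun p => z < p), z := by rw [prod_const]
      _ ≤ ∏ p ∈ (Δ (hh q)).primeFactors.filter (fun p => z < p), p :=
          prod_le_prod' fun p hp => (mem_filter.1 hp).2.le
      _ ≤ Δ (hh q) := by
          apply Nat.le_of_dvd h4
          exact (prod_dvd_prod_of_subset _ _ (fun p => p) (filter_subset _ _)).trans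
            (Nat.prod_primeFactors_dvd _)
      _ ≤ (W * N) ^ g := h5.trans (Nat.pow_le_pow_left q3 g)
  refine (sum_le_sum hone).trans ?_
  rw [sum_const, smul_eq_mul]
  apply Nat.mul_le_mul_right
  rw [offDiag_card, card_univ, Fintype.card_fin, pow_two]
  exact Nat.sub_le _ _

open Classical in
/-- the number of the pairs of moduli dividing a number -/
theorem tt_count (R z : ℕ) (lam : ℕ → ℝ)
    (hlam : ∀ d, lam d ≠ 0 → Squarefree d ∧ 1 ≤ d ∧ d ≤ R ∧ ∀ p : ℕ, p.Prime → p ∣ d → z < p)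
    (y : ℤ) (hy : y ≠ 0) : ∃ k : ℕ, z ^ k ≤ y.natAbs ∧
      (((TT R lam).filter (fun x => (Dl x : ℤ) ∣ y)).card : ℝ) ≤ 4 ^ k := by
  set lam' : ℕ → ℝ := fun d => if lam d = 0 then 0 else 1 with hlam'
  have hne : ∀ d, lam' d ≠ 0 ↔ lam d ≠ 0 := by
    intro d
    simp only [hlam']
    split_ifs with h <;> simp [h]
  have hTT : TT R lam' = TT R lam := by
    ext x
    rw [mem_TT, mem_TT, hne, hne]
  obtain ⟨k, hk1, hk2⟩ := div_bound R z lam' (fun d hd => hlam d ((hne d).1 hd)) (by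
    intro d
    simp only [hlam']
    split_ifs <;> simp) y.natAbs (Int.natAbs_pos.2 hy)
  refine ⟨k, hk1, ?_⟩
  rw [← ds_eq R lam' (fun d hd => by
    have := hlam d ((hne d).1 hd)
    exact ⟨this.2.1, this.2.2.1⟩) y hy, ds_sq, hTT] at hk2
  refine le_trans (le_of_eq ?_) hk2
  rw [card_filter]
  push_cast
  apply sum_congr rfl
  intro x hx
  rw [mem_TT] at hx
  split_ifs with h
  · unfold wt
    simp only [hlam']
    rw [if_neg hx.2.1, if_neg hx.2.2, one_mul]
  · rfl

open Classical in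
/-- the contribution of the tuples with a common prime factor -/
theorem ncop_sum (F : ℤ → ℤ) (W z b M₀ L m R : ℕ) (lam : ℕ → ℝ) (t : Fin m → ℕ) (k : ℕ)
    (hlam : ∀ d, lam d ≠ 0 → ∀ p : ℕ, p.Prime → p ∣ d → z < p)
    (hK : ∀ K ∈ Ioc M₀ (M₀ + L), ∀ i,
      ((TT R lam).filter (fun x => (Dl x : ℤ) ∣ F ((W * (K + t i) + b : ℕ) : ℤ))).card ≤ 4 ^ k) :
    ∑ x ∈ Fintype.piFinset (fun _ : Fin m => TT R lam),
      (if ∀ i j, i ≠ j → Nat.Coprime (Dl (x i)) (Dl (x j)) then 0 else cn F W z b M₀ L t x) ≤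
      ((bdK F W z b M₀ L t).card : ℝ) * (4 ^ k) ^ m := by
  have h1 : ∀ x ∈ Fintype.piFinset (fun _ : Fin m => TT R lam),
      (if ∀ i j, i ≠ j → Nat.Coprime (Dl (x i)) (Dl (x j)) then 0 else cn F W z b M₀ L t x) ≤
      ∑ K ∈ bdK F W z b M₀ L t, (if ∀ i, (Dl (x i) : ℤ) ∣ F ((W * (K + t i) + b : ℕ) : ℤ) then (1 : ℝ) else 0) := by
    intro x hx
    rw [Fintype.mem_piFinset] at hx
    split_ifs with hc
    · exact sum_nonneg fun K _ => by split_ifs <;> norm_num
    · rw [← sum_filter, sum_const, nsmul_eq_mul, mul_one]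
      unfold cn
      have : ((Ioc M₀ (M₀ + L)).filter
          (fun K => ∀ p ∈ PS W z, ∀ i, ¬ (p : ℤ) ∣ F ((W * (K + t i) + b : ℕ) : ℤ))).filter
          (fun K => ∀ i, (Dl (x i) : ℤ) ∣ F ((W * (K + t i) + b : ℕ) : ℤ)) ⊆
          (bdK F W z b M₀ L t).filter (fun K => ∀ i, (Dl (x i) : ℤ) ∣ F ((W * (K + t i) + b : ℕ) : ℤ)) := by
        intro K hK'
        rw [mem_filter, mem_filter] at hK'
        rw [mem_filter]
        refine ⟨?_, hK'.2⟩
        unfold bdK
        rw [mem_filter]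
        refine ⟨hK'.1.1, ?_⟩
        push Not at hc
        obtain ⟨i, j, hij, hc⟩ := hc
        obtain ⟨p, hp, hpi, hpj⟩ := Nat.Prime.not_coprime_iff_dvd.1 hc
        exact ⟨i, j, hij, p, hp, Dl_primes hlam (hx i) p hp hpi,
          (Int.natCast_dvd_natCast.2 hpi).trans (hK'.2 i), (Int.natCast_dvd_natCast.2 hpj).trans (hK'.2 j)⟩
      exact_mod_cast card_le_card this
  refine (sum_le_sum h1).trans ?_
  rw [sum_comm]
  have h2 : ∀ K ∈ bdK F W z b M₀ L t, ∑ x ∈ Fintype.piFinset (fun _ : Fin m => TT R lam),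
      (if ∀ i, (Dl (x i) : ℤ) ∣ F ((W * (K + t i) + b : ℕ) : ℤ) then (1 : ℝ) else 0) ≤ (4 ^ k) ^ m := by
    intro K hKb
    have hKI : K ∈ Ioc M₀ (M₀ + L) := by
      unfold bdK at hKb
      exact (mem_filter.1 hKb).1
    rw [← sum_filter, sum_const, nsmul_eq_mul, mul_one]
    have e : (Fintype.piFinset (fun _ : Fin m => TT R lam)).filter
        (fun x => ∀ i, (Dl (x i) : ℤ) ∣ F ((W * (K + t i) + b : ℕ) : ℤ)) =
        Fintype.piFinset (fun i : Fin m => (TT R lam).filter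
          (fun x => (Dl x : ℤ) ∣ F ((W * (K + t i) + b : ℕ) : ℤ))) := by
      ext x
      simp only [mem_filter, Fintype.mem_piFinset]
      constructor
      · rintro ⟨h3, h4⟩ i
        exact ⟨h3 i, h4 i⟩
      · intro h
        exact ⟨fun i => (h i).1, fun i => (h i).2⟩
    rw [e, Fintype.card_piFinset]
    have h3 : ∏ i : Fin m, ((TT R lam).filter
          (fun x => (Dl x : ℤ) ∣ F ((W * (K + t i) + b : ℕ) : ℤ))).card ≤ (4 ^ k) ^ m := by
      calc ∏ i : Fin m, ((TT R lam).filter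
          (fun x => (Dl x : ℤ) ∣ F ((W * (K + t i) + b : ℕ) : ℤ))).card ≤ ∏ _i : Fin m, 4 ^ k :=
            prod_le_prod' fun i _ => hK K hKI i
        _ = _ := by rw [prod_const, card_univ, Fintype.card_fin]
    exact_mod_cast h3
  refine (sum_le_sum h2).trans ?_
  rw [sum_const, nsmul_eq_mul]

end Pool.Agent.H534.RS
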