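import Pool.Agent.H534.RS.VarG
import Pool.Graph.R_seed8.Y674.PSP.CS
import Pool.Graph.R_seed8.Y317.PSP.SLF
import Pool.Graph.R_seed8.Y814.PSP.CNT
import Pool.Graph.R_seed8.Y500.PSP.Dmt

/-!
# The relative multidimensional Szemerédi theorem for corners in `(ZMod N)^r`
-/

set_option autoImplicit false

open Finset

namespace Pool.Agent.H534.RS

open Pool.Agent.H602R3.DHJ
open Pool.Agent.Y727.PSP (sw sl Ind LF Cut S_CS S_SLF S_CNT S_DMT av_sl)

variable {r N : ℕ}

/-- the corner points: the face `j` -/
def P (j : Option (Fin r)) (x : Option (Fin r) → ZMod N) : Fin r → ZMod N := fun l =>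
  if some l = j then x none - ∑ l' ∈ univ.erase l, x (some l') else x (some l)

/-- the directions `e_l` and `e_l - e_m` -/
def dir (v : Fin r × Option (Fin r)) : Fin r → ZMod N := fun i =>
  (if i = v.1 then 1 else 0) - (if some i = v.2 ∧ i ≠ v.1 then 1 else 0)

/-- the direction in which the face `j` moves with the coordinate `i` -/
def dj (j i : Option (Fin r)) (l₀ : Fin r) : Fin r × Option (Fin r) :=
  match j, i with
  | none, some l => (l, none)
  | none, none => (l₀, none)
  | some m, none => (m, none)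
  | some m, some l => (l, some m)

theorem P_update_self (j : Option (Fin r)) (x : Option (Fin r) → ZMod N) (v : ZMod N) :
    P j (Function.update x j v) = P j x := by
  funext l
  unfold P
  by_cases h : some l = j
  · rw [if_pos h, if_pos h]
    have e1 : (Function.update x j v) none = x none := by
      rw [Function.update_of_ne]
      rw [← h]; exact (Option.some_ne_none l).symm
    rw [e1]
    congr 1
    apply sum_congr rfl
    intro l' hl'
    rw [mem_erase] at hl'
    rw [Function.update_of_ne]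
    rw [← h]
    intro h2
    exact hl'.1 (Option.some_injective _ h2)
  · rw [if_neg h, if_neg h, Function.update_of_ne h]

theorem P_move (l₀ : Fin r) (j i : Option (Fin r)) (hij : i ≠ j) (x : Option (Fin r) → ZMod N) (s : ZMod N) :
    P j (Function.update x i (x i + s)) = P j x + s • dir (dj j i l₀) := by
  classical
  funext l
  rw [Pi.add_apply, Pi.smul_apply, smul_eq_mul]
  unfold P
  rcases j with _ | m
  · rcases i with _ | l1
    · exact absurd rfl hij
    · have h0 : ¬ (some l = (none : Option (Fin r))) := Option.some_ne_none l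
      rw [if_neg h0, if_neg h0]
      unfold dj dir
      by_cases h : l = l1
      · subst h
        simp
      · rw [Function.update_of_ne (by
          intro h2
          exact h (Option.some_injective _ h2))]
        simp [h]
  · rcases i with _ | l1
    · unfold dj dir
      by_cases h : some l = some m
      · have h' : l = m := Option.some_injective _ h
        subst h'
        rw [if_pos rfl, if_pos rfl, Function.update_self]
        have e : ∀ l' ∈ univ.erase l, (Function.update x none (x none + s)) (some l') = x (some l') := by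
          intro l' _
          rw [Function.update_of_ne (Option.some_ne_none l')]
        rw [sum_congr rfl e]
        simp
        ring
      · have h' : ¬ l = m := fun h2 => h (by rw [h2])
        rw [if_neg h, if_neg h, Function.update_of_ne (Option.some_ne_none l)]
        simp [h']
    · have hlm : l1 ≠ m := fun h => hij (by rw [h])
      unfold dj dir
      by_cases h : some l = some m
      · have h' : l = m := Option.some_injective _ h
        subst h'
        rw [if_pos rfl, if_pos rfl, Function.update_of_ne (Option.some_ne_none l1).symm]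
        have hmem : l1 ∈ univ.erase l := mem_erase.2 ⟨hlm, mem_univ _⟩
        rw [← add_sum_erase _ _ hmem, ← add_sum_erase (univ.erase l) (fun l' => x (some l')) hmem,
          Function.update_self]
        have e : ∀ l' ∈ (univ.erase l).erase l1, (Function.update x (some l1) (x (some l1) + s)) (some l') = x (some l') := by
          intro l' hl'
          rw [mem_erase] at hl'
          rw [Function.update_of_ne (fun h2 => hl'.1 (Option.some_injective _ h2))]
        rw [sum_congr rfl e]
        simp [hlm.symm]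
        ring
      · have h' : ¬ l = m := fun h2 => h (by rw [h2])
        rw [if_neg h, if_neg h]
        by_cases h2 : l = l1
        · subst h2
          simp
        · rw [Function.update_of_ne (fun h3 => h2 (Option.some_injective _ h3))]
          simp [h2, h']

theorem Ind_P (j : Option (Fin r)) (F : (Fin r → ZMod N) → ℝ) :
    Ind j (fun x : Option (Fin r) → ZMod N => F (P j x)) := by
  intro x v
  show F _ = F _
  rw [P_update_self]

/-- the inverse of `x ↦ (P j x, x j)` -/
def Q (j : Option (Fin r)) (y : Fin r → ZMod N) (t : ZMod N) : Option (Fin r) → ZMod N := fun i =>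
  if i = j then t else
    match i with
    | none => ∑ l, y l
    | some l => y l

theorem P_Q (j : Option (Fin r)) (y : Fin r → ZMod N) (t : ZMod N) : P j (Q j y t) = y := by
  funext l
  unfold P Q
  by_cases h : some l = j
  · rw [if_pos h, if_neg (by rw [← h]; exact (Option.some_ne_none l).symm)]
    have e : ∀ l' ∈ univ.erase l, (if (some l' : Option (Fin r)) = j then t else y l') = y l' := by
      intro l' hl'
      rw [mem_erase] at hl'
      rw [if_neg]
      rw [← h]
      exact fun h2 => hl'.1 (Option.some_injective _ h2)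
    simp only
    rw [sum_congr rfl e, ← add_sum_erase univ y (mem_univ l)]
    ring
  · rw [if_neg h, if_neg h]

theorem Q_self (j : Option (Fin r)) (y : Fin r → ZMod N) (t : ZMod N) : Q j y t j = t := by
  unfold Q
  rw [if_pos rfl]

theorem Q_P (j : Option (Fin r)) (x : Option (Fin r) → ZMod N) : Q j (P j x) (x j) = x := by
  funext i
  unfold Q
  by_cases h : i = j
  · rw [if_pos h, h]
  · rw [if_neg h]
    rcases i with _ | l
    · simp only
      rcases j with _ | m
      · exact absurd rfl h
      · unfold P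
        rw [← add_sum_erase univ _ (mem_univ m), if_pos rfl]
        have e : ∀ l' ∈ univ.erase m, (if (some l' : Option (Fin r)) = some m then
            x none - ∑ l'' ∈ univ.erase l', x (some l'') else x (some l')) = x (some l') := by
          intro l' hl'
          rw [mem_erase] at hl'
          rw [if_neg (fun h2 => hl'.1 (Option.some_injective _ h2))]
        rw [sum_congr rfl e]
        ring
    · simp only
      unfold P
      rw [if_neg h]

/-- the change of variables -/
def eQ (j : Option (Fin r)) : ((Fin r → ZMod N) × ZMod N) ≃ (Option (Fin r) → ZMod N) where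
  toFun p := Q j p.1 p.2
  invFun x := (P j x, x j)
  left_inv p := by
    show (P j (Q j p.1 p.2), Q j p.1 p.2 j) = p
    rw [P_Q, Q_self]
  right_inv x := Q_P j x

theorem av_eQ [NeZero N] (j : Option (Fin r)) (F : (Option (Fin r) → ZMod N) → ℝ) :
    av F = av (fun t : ZMod N => av (fun y : Fin r → ZMod N => F (Q j y t))) := by
  rw [← av_equiv (eQ j) F, av_prod, av_comm]
  rfl

theorem Q_move (l₀ : Fin r) (j i : Option (Fin r)) (hij : i ≠ j) (y : Fin r → ZMod N) (t s : ZMod N) :
    Q j (y + s • dir (dj j i l₀)) t = Function.update (Q j y t) i (Q j y t i + s) := by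
  have h1 : P j (Function.update (Q j y t) i (Q j y t i + s)) = y + s • dir (dj j i l₀) := by
    rw [P_move l₀ j i hij, P_Q]
  have h2 : (Function.update (Q j y t) i (Q j y t i + s)) j = t := by
    rw [Function.update_of_ne hij.symm, Q_self]
  have h3 := Q_P j (Function.update (Q j y t) i (Q j y t i + s))
  rw [h1, h2] at h3
  exact h3

/-- the products of bounded functions invariant in the directions -/
def Fi (r N : ℕ) : Set ((Fin r → ZMod N) → ℝ) :=
  {φ | ∃ (c : ℝ) (U : Fin r × Option (Fin r) → (Fin r → ZMod N) → ℝ), |c| ≤ 1 ∧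
    (∀ v y (s : ZMod N), U v (y + s • dir v) = U v y) ∧ (∀ v y, |U v y| ≤ 1) ∧
    φ = fun y => c * ∏ v, U v y}

theorem Fi_bdd (φ : (Fin r → ZMod N) → ℝ) (h : φ ∈ Fi r N) (y : Fin r → ZMod N) : |φ y| ≤ 1 := by
  obtain ⟨c, U, hc, _, hU, rfl⟩ := h
  rw [abs_mul, abs_prod]
  exact mul_le_one₀ hc (prod_nonneg fun _ _ => abs_nonneg _)
    (prod_le_one (fun _ _ => abs_nonneg _) (fun v _ => hU v y))

theorem Fi_one : (fun _ => 1) ∈ Fi r N :=
  ⟨1, fun _ _ => 1, by simp, fun _ _ _ => rfl, fun _ _ => by simp, by simp⟩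

theorem Fi_neg (φ : (Fin r → ZMod N) → ℝ) (h : φ ∈ Fi r N) : -φ ∈ Fi r N := by
  obtain ⟨c, U, hc, hI, hU, rfl⟩ := h
  refine ⟨-c, U, by rwa [abs_neg], hI, hU, ?_⟩
  funext y
  simp

theorem Fi_mul (φ ψ : (Fin r → ZMod N) → ℝ) (h : φ ∈ Fi r N) (h' : ψ ∈ Fi r N) : φ * ψ ∈ Fi r N := by
  obtain ⟨c, U, hc, hI, hU, rfl⟩ := h
  obtain ⟨c', U', hc', hI', hU', rfl⟩ := h'
  refine ⟨c * c', fun v y => U v y * U' v y, ?_, ?_, ?_, ?_⟩
  · rw [abs_mul]; exact mul_le_one₀ hc (abs_nonneg _) hc'
  · intro v y s
    show U v (y + s • dir v) * U' v (y + s • dir v) = _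
    rw [hI, hI']
  · intro v y
    show |U v y * U' v y| ≤ 1
    rw [abs_mul]; exact mul_le_one₀ (hU v y) (abs_nonneg _) (hU' v y)
  · funext y
    rw [Pi.mul_apply, prod_mul_distrib]
    ring

/-- the cut norm of each face is controlled by `Fi` -/
theorem cut_of_Fi [NeZero N] (l₀ : Fin r) (h : (Fin r → ZMod N) → ℝ) (ε : ℝ)
    (hh : ∀ φ ∈ Fi r N, |av (fun y => h y * φ y)| ≤ ε) (j : Option (Fin r)) :
    Cut j (fun x => h (P j x)) ε := by
  classical
  intro u hu hu1
  rw [av_eQ j]
  have key : ∀ t : ZMod N, |av (fun y : Fin r → ZMod N => h (P j (Q j y t)) *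
      ∏ i ∈ univ.erase j, u i (Q j y t))| ≤ ε := by
    intro t
    have h1 : (fun y : Fin r → ZMod N => ∏ i ∈ univ.erase j, u i (Q j y t)) ∈ Fi r N := by
      refine ⟨1, fun v y => ∏ i ∈ (univ.erase j).filter (fun i => dj j i l₀ = v), u i (Q j y t), by simp, ?_, ?_, ?_⟩
      · intro v y s
        apply prod_congr rfl
        intro i hi
        rw [mem_filter, mem_erase] at hi
        rw [← hi.2, Q_move l₀ j i hi.1.1 y t s]
        exact hu i (Q j y t) _
      · intro v y
        rw [abs_prod]
        exact prod_le_one (fun _ _ => abs_nonneg _) (fun i _ => hu1 i _)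
      · funext y
        rw [one_mul]
        exact (prod_fiberwise (univ.erase j) (fun i => dj j i l₀) (fun i => u i (Q j y t))).symm
    have h2 := hh _ h1
    refine le_trans (le_of_eq ?_) h2
    simp only [P_Q]
  have h3 : ∀ G : ZMod N → ℝ, (∀ t, |G t| ≤ ε) → |av G| ≤ ε := by
    intro G hG
    rw [abs_le]
    constructor
    · rw [← av_const (X := ZMod N) (-ε)]
      exact av_mono fun t => (abs_le.1 (hG t)).1
    · conv_rhs => rw [← av_const (X := ZMod N) ε]
      exact av_mono fun t => (abs_le.1 (hG t)).2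
  exact h3 _ key

/-- the homomorphism with the directions -/
def Th (r N : ℕ) : ((Fin r × Option (Fin r)) → ZMod N) →+ (Fin r → ZMod N) where
  toFun x := ∑ v, x v • dir v
  map_zero' := by simp
  map_add' x y := by
    rw [← sum_add_distrib]
    exact sum_congr rfl fun v _ => by rw [Pi.add_apply, add_smul]

theorem Th_move (x : (Fin r × Option (Fin r)) → ZMod N) (v : Fin r × Option (Fin r)) (s : ZMod N) :
    Th r N (Function.update x v (x v + s)) = Th r N x + s • dir v := by
  show ∑ v', _ = (∑ v', x v' • dir v') + _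
  rw [← add_sum_erase univ _ (mem_univ v), ← add_sum_erase univ (fun v' => x v' • dir v') (mem_univ v),
    Function.update_self]
  have e : ∀ v' ∈ univ.erase v, (Function.update x v (x v + s)) v' • (dir v' : Fin r → ZMod N) = x v' • dir v' := by
    intro v' hv'
    rw [mem_erase] at hv'
    rw [Function.update_of_ne hv'.1]
  rw [sum_congr rfl e, add_smul]
  abel

theorem Th_surj (r N : ℕ) : Function.Surjective (Th r N) := by
  intro y
  refine ⟨fun v => if v.2 = none then y v.1 else 0, ?_⟩
  show ∑ v : Fin r × Option (Fin r), (if v.2 = none then y v.1 else 0) • dir v = y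
  funext i
  rw [Finset.sum_apply, Fintype.sum_prod_type]
  have e : ∀ l : Fin r, ∑ o : Option (Fin r), ((if (l, o).2 = none then y (l, o).1 else 0) • (dir (l, o) : Fin r → ZMod N)) i =
      if i = l then y l else 0 := by
    intro l
    rw [Fintype.sum_option]
    simp [dir]
  rw [sum_congr rfl fun l _ => e l, Finset.sum_ite_eq]
  simp

/-- the box condition -/
def BX [NeZero N] (ν : (Fin r → ZMod N) → ℝ) (η : ℝ) : Prop :=
  ∀ S : Finset (Finset (Fin r × Option (Fin r))),
    |av (fun z : (Fin r × Option (Fin r)) → ZMod N × ZMod N => ∏ ω ∈ S, ν (Th r N (sl ω z))) - 1| ≤ η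

theorem sl_sw {J V : Type} [DecidableEq J] (ω : Finset J) (z : J → V × V) : sl ∅ (sw ω z) = sl ω z := by
  funext i
  unfold sl sw
  by_cases h : i ∈ ω
  · simp [h]
  · simp [h]

/-- pseudorandomness against `Fi` -/
theorem Fi_small [NeZero N] (hCS : S_CS) (ν : (Fin r → ZMod N) → ℝ) (η : ℝ) (hη : 0 ≤ η) (hBX : BX ν η)
    (φ : (Fin r → ZMod N) → ℝ) (hφ : φ ∈ Fi r N) :
    |av (fun y => (ν y - 1) * φ y)| ^ (2 ^ (r * (r + 1))) ≤ 2 ^ 2 ^ (r * (r + 1)) * η := by
  classical
  obtain ⟨c, U, hc, hI, hU, rfl⟩ := hφ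
  have hcard : (univ : Finset (Fin r × Option (Fin r))).card = r * (r + 1) := by
    rw [card_univ, Fintype.card_prod, Fintype.card_option, Fintype.card_fin]
  have e1 : av (fun y => (ν y - 1) * (c * ∏ v, U v y)) = c * av (fun y => (ν y - 1) * ∏ v, U v y) := by
    rw [← av_mul]
    congr 1
    funext y
    ring
  have e2 : av (fun y => (ν y - 1) * ∏ v, U v y) =
      av (fun x : (Fin r × Option (Fin r)) → ZMod N => (ν (Th r N x) - 1) * ∏ v, U v (Th r N x)) :=
    (Pool.Agent.Y727.PSP.av_hom (Th r N) (Th_surj r N) (fun y => (ν y - 1) * ∏ v, U v y)).symm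
  have e3 := av_sl (J := Fin r × Option (Fin r)) (V := ZMod N) (fun x => (ν (Th r N x) - 1) * ∏ v, U v (Th r N x))
  have hup : ∀ (v : Fin r × Option (Fin r)) (x : (Fin r × Option (Fin r)) → ZMod N) (w : ZMod N), U v (Th r N (Function.update x v w)) = U v (Th r N x) := by
    intro v x w
    have : Function.update x v w = Function.update x v (x v + (w - x v)) := by
      congr 1; ring
    rw [this, Th_move, hI]
  have hcs := hCS (Fin r × Option (Fin r)) (ZMod N) univ (fun z => ν (Th r N (sl ∅ z)) - 1) (fun v z => U v (Th r N (sl ∅ z)))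
    (fun _ _ => 1) 1 le_rfl
    (by
      intro i _ z v
      have : sl ∅ (Function.update z i ((z i).1, v)) = sl ∅ z := by
        funext k
        unfold sl
        by_cases hk : k = i
        · subst hk; simp
        · simp [Function.update_of_ne hk]
      simp only [this])
    (by
      intro j _ i _ z v
      have : sl ∅ (Function.update z i ((z i).1, v)) = sl ∅ z := by
        funext k
        unfold sl
        by_cases hk : k = i
        · subst hk; simp
        · simp [Function.update_of_ne hk]
      simp only [this])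
    (fun _ _ _ _ _ _ => rfl)
    (by
      intro j _ z w
      have : sl ∅ (Function.update z j w) = Function.update (sl ∅ z) j w.1 := by
        funext k
        unfold sl
        by_cases hk : k = j
        · subst hk; simp
        · simp [Function.update_of_ne hk]
      simp only [this]
      exact hup j _ _)
    (fun _ _ _ _ => rfl)
    (fun j _ z => hU j _)
    (by
      intro j _ D' _
      simp only [prod_const_one]
      rw [av_const])
  rw [e1]
  have hA : av (fun y => (ν y - 1) * ∏ v, U v y) =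
      av (fun z : (Fin r × Option (Fin r)) → ZMod N × ZMod N => (ν (Th r N (sl ∅ z)) - 1) * ∏ j ∈ univ, U j (Th r N (sl ∅ z))) := by
    rw [e2, ← e3]
  rw [hA, abs_mul, mul_pow]
  rw [hcard, one_pow, one_mul] at hcs
  have h4 : |c| ^ 2 ^ (r * (r + 1)) ≤ 1 := pow_le_one₀ (abs_nonneg _) hc
  refine (mul_le_of_le_one_left (by positivity) h4).trans (hcs.trans ?_)
  simp only [prod_const_one, mul_one, sl_sw]
  -- expansion
  set Ω : Finset (Finset (Fin r × Option (Fin r))) := univ.powerset with hΩ
  have hΩc : Ω.card = 2 ^ (r * (r + 1)) := by rw [hΩ, card_powerset, hcard]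
  have e5 : ∀ z : (Fin r × Option (Fin r)) → ZMod N × ZMod N, ∏ ω ∈ Ω, (ν (Th r N (sl ω z)) - 1) =
      ∑ S ∈ Ω.powerset, (-1 : ℝ) ^ (Ω \ S).card * ∏ ω ∈ S, ν (Th r N (sl ω z)) := by
    intro z
    have := prod_add (fun ω => ν (Th r N (sl ω z))) (fun _ => (-1 : ℝ)) Ω
    simp only [← sub_eq_add_neg] at this
    rw [this]
    apply sum_congr rfl
    intro S _
    rw [prod_const, mul_comm]
  have e6 : ∑ S ∈ Ω.powerset, (-1 : ℝ) ^ (Ω \ S).card = 0 := by
    have := prod_add (fun _ : Finset (Fin r × Option (Fin r)) => (1 : ℝ)) (fun _ => (-1 : ℝ)) Ω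
    simp only [prod_const, one_pow, one_mul] at this
    rw [← this, add_neg_cancel, zero_pow]
    rw [hΩc]; positivity
  have e7 : av (fun z : (Fin r × Option (Fin r)) → ZMod N × ZMod N => ∏ ω ∈ Ω, (ν (Th r N (sl ω z)) - 1)) =
      ∑ S ∈ Ω.powerset, (-1 : ℝ) ^ (Ω \ S).card * (av (fun z : (Fin r × Option (Fin r)) → ZMod N × ZMod N =>
        ∏ ω ∈ S, ν (Th r N (sl ω z))) - 1) := by
    rw [show (fun z : (Fin r × Option (Fin r)) → ZMod N × ZMod N => ∏ ω ∈ Ω, (ν (Th r N (sl ω z)) - 1)) = fun z =>
      ∑ S ∈ Ω.powerset, (-1 : ℝ) ^ (Ω \ S).card * ∏ ω ∈ S, ν (Th r N (sl ω z)) from funext e5, av_sum]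
    rw [show ∑ S ∈ Ω.powerset, (-1 : ℝ) ^ (Ω \ S).card * (av (fun z : (Fin r × Option (Fin r)) → ZMod N × ZMod N =>
        ∏ ω ∈ S, ν (Th r N (sl ω z))) - 1) = (∑ S ∈ Ω.powerset, (-1 : ℝ) ^ (Ω \ S).card * av (fun z : (Fin r × Option (Fin r)) → ZMod N × ZMod N =>
        ∏ ω ∈ S, ν (Th r N (sl ω z)))) - ∑ S ∈ Ω.powerset, (-1 : ℝ) ^ (Ω \ S).card by
        rw [← sum_sub_distrib]
        exact sum_congr rfl fun S _ => by ring]
    rw [e6, sub_zero]
    exact sum_congr rfl fun S _ => av_mul _ _
  rw [e7]
  refine (abs_sum_le_sum_abs _ _).trans ?_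
  calc ∑ S ∈ Ω.powerset, |(-1 : ℝ) ^ (Ω \ S).card * (av (fun z : (Fin r × Option (Fin r)) → ZMod N × ZMod N =>
        ∏ ω ∈ S, ν (Th r N (sl ω z))) - 1)| ≤ ∑ S ∈ Ω.powerset, η := by
        apply sum_le_sum
        intro S _
        rw [abs_mul, abs_pow, abs_neg, abs_one, one_pow, one_mul]
        exact hBX S
    _ = 2 ^ 2 ^ (r * (r + 1)) * η := by
        rw [sum_const, nsmul_eq_mul, card_powerset, hΩc]
        push_cast
        rfl

/-- the single coordinate homomorphisms -/
def ch (r N : ℕ) (a : Fin (r + 1)) : ZMod N →+ (Fin r → ZMod N) :=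
  Fin.cases 0 (fun l => AddMonoidHom.single (fun _ : Fin r => ZMod N) l) a

/-- the homomorphism `x ↦ (P none x, x none - ∑ x (some l))` -/
def Sh (r N : ℕ) : (Option (Fin r) → ZMod N) →+ (Fin r → ZMod N) × ZMod N where
  toFun x := (fun l => x (some l), x none - ∑ l, x (some l))
  map_zero' := by simp; rfl
  map_add' x y := by
    ext
    · rfl
    · simp only [Pi.add_apply, sum_add_distrib, Prod.snd_add]
      ring

theorem Sh_surj (r N : ℕ) : Function.Surjective (Sh r N) := by
  rintro ⟨y, d⟩
  refine ⟨fun i => match i with | none => d + ∑ l, y l | some l => y l, ?_⟩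
  show ((fun l => _), _) = _
  simp

theorem P_eq (l : Fin r) (x : Option (Fin r) → ZMod N) :
    P (some l) x = (Sh r N x).1 + ch r N l.succ (Sh r N x).2 := by
  classical
  funext i
  show _ = x (some i) + (Pi.single l (x none - ∑ l, x (some l)) : Fin r → ZMod N) i
  unfold P
  by_cases h : i = l
  · subst h
    rw [if_pos rfl, Pi.single_eq_same, ← add_sum_erase univ (fun l => x (some l)) (mem_univ i)]
    ring
  · rw [if_neg (fun h2 => h (Option.some_injective _ h2)), Pi.single_eq_of_ne h, add_zero]

theorem prod_P (x : Option (Fin r) → ZMod N) (F : (Fin r → ZMod N) → ℝ) :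
    ∏ j, F (P j x) = ∏ a : Fin (r + 1), F ((Sh r N x).1 + ch r N a (Sh r N x).2) := by
  rw [Fintype.prod_option, Fin.prod_univ_succ]
  congr 1
  · congr 1
    have : ch r N 0 = 0 := rfl
    rw [this, AddMonoidHom.zero_apply, add_zero]
    funext l
    show (if some l = none then _ else x (some l)) = x (some l)
    rw [if_neg (Option.some_ne_none l)]
  · exact prod_congr rfl fun l _ => by rw [P_eq]

/-- the relative multidimensional Szemerédi theorem -/
theorem rc (r : ℕ) (hr : 1 ≤ r) (δ : ℝ) (hδ : 0 < δ) : ∃ c η : ℝ, 0 < c ∧ 0 < η ∧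
    ∀ (N : ℕ) [NeZero N], ∀ ν f : (Fin r → ZMod N) → ℝ, (∀ a, 0 ≤ f a ∧ f a ≤ ν a) →
      LF (fun (j : Option (Fin r)) (x : Option (Fin r) → ZMod N) => ν (P j x)) η → BX ν η →
      δ ≤ av f → c ≤ av (fun x : Option (Fin r) → ZMod N => ∏ j, f (P j x)) := by
  have hCS : S_CS := Pool.Agent.Y674.PSP.cs
  have hCNT : S_CNT := Pool.Agent.Y814.PSP.cnt (Pool.Agent.Y317.PSP.slf hCS)
  have hDMT : S_DMT := Pool.Agent.Y500.PSP.DMT
  obtain ⟨c0, hc0, hV⟩ := varG r (δ / 2) (by positivity)
  obtain ⟨η1, hη1, hC⟩ := hCNT (Option (Fin r)) (c0 / 2) (by positivity)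
  obtain ⟨ε', hε', hD⟩ := hDMT (min η1 (δ / 2)) (by positivity)
  obtain ⟨η2, hη2d⟩ : ∃ η2 : ℝ, η2 = ε' ^ (2 ^ (r * (r + 1))) / 2 ^ 2 ^ (r * (r + 1)) := ⟨_, rfl⟩
  have hη2 : 0 < η2 := by rw [hη2d]; positivity
  refine ⟨c0 / 2, min η1 η2, by positivity, by positivity, ?_⟩
  intro N _ ν f hf hLF hBX hδf
  have hLF1 : LF (fun (j : Option (Fin r)) (x : Option (Fin r) → ZMod N) => ν (P j x)) η1 :=
    fun T hT => (hLF T hT).trans (min_le_left _ _)
  have hBX2 : BX ν η2 := fun S => (hBX S).trans (min_le_right _ _)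
  have h2 : ∀ φ ∈ Fi r N, |av (fun a => (ν a - 1) * φ a)| ≤ ε' := by
    intro φ hφ
    have h3 := Fi_small hCS ν η2 hη2.le hBX2 φ hφ
    have h4 : 2 ^ 2 ^ (r * (r + 1)) * η2 = ε' ^ (2 ^ (r * (r + 1))) := by
      rw [hη2d]; field_simp
    rw [h4] at h3
    exact (pow_le_pow_iff_left₀ (abs_nonneg _) hε'.le (by positivity)).1 h3
  obtain ⟨g, hg, hg2⟩ := hD (Fin r → ZMod N) (Fi r N) Fi_bdd Fi_one Fi_neg
    (fun φ hφ ψ hψ => subset_convexHull ℝ _ (Fi_mul φ ψ hφ hψ)) ν f hf h2
  have h3 := cut_of_Fi (⟨0, by omega⟩ : Fin r) (fun a => f a - g a) _ hg2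
  have h4 : δ / 2 ≤ av g := by
    have h5 := hg2 _ Fi_one
    simp only [mul_one] at h5
    rw [av_sub] at h5
    have h6 := (abs_le.1 h5).2
    have h7 := min_le_right η1 (δ / 2)
    linarith
  have h5 := hV (Fin r → ZMod N) (ZMod N) (ch r N) g hg h4
  have h6 := hC (ZMod N) (fun j x => ν (P j x)) (fun j x => f (P j x)) (fun j x => g (P j x))
    (fun j => Ind_P j ν) (fun j => Ind_P j f) (fun j => Ind_P j g) hLF1
    (fun j x => hf _) (fun j x => hg _)
    (fun j u hu hu1 => (h3 j u hu hu1).trans (min_le_left _ _))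
  have h8 : av (fun x : Option (Fin r) → ZMod N => ∏ j, g (P j x)) =
      av (fun p : (Fin r → ZMod N) × ZMod N => ∏ a : Fin (r + 1), g (p.1 + ch r N a p.2)) := by
    rw [← Pool.Agent.Y727.PSP.av_hom (Sh r N) (Sh_surj r N)]
    congr 1
    funext x
    exact prod_P x g
  rw [h8] at h6
  have h7 := (abs_le.1 h6).1
  linarith

end Pool.Agent.H534.RS
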