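import Pool.Agent.H534.RS.EngA

/-!
# The relative multidimensional Szemerédi theorem with a positive difference
-/

set_option autoImplicit false

open Finset

namespace Pool.Agent.H534.RS

open Pool.Agent.H602R3.DHJ
open Pool.Agent.Y727.PSP (sw sl Ind LF Cut S_CS S_SLF S_CNT S_DMT av_sl rp rp_pos rp_le rp_cast rp_of)

variable {r N : ℕ}

theorem Fi_coord (hr : 2 ≤ r) (i : Fin r) (u : ZMod N → ℝ) (hu : ∀ t, |u t| ≤ 1) :
    (fun y : Fin r → ZMod N => u (y i)) ∈ Fi r N := by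
  classical
  obtain ⟨l, hl⟩ : ∃ l : Fin r, l ≠ i := by
    by_cases h : i = ⟨0, by omega⟩
    · refine ⟨⟨1, by omega⟩, ?_⟩
      rw [h]
      intro h2
      have := congrArg Fin.val h2
      simp at this
    · exact ⟨⟨0, by omega⟩, fun h2 => h h2.symm⟩
  refine ⟨1, fun v y => if v = (l, none) then u (y i) else 1, by simp, ?_, ?_, ?_⟩
  · intro v y s
    beta_reduce
    by_cases hv : v = (l, none)
    · rw [if_pos hv, if_pos hv]
      congr 1
      rw [Pi.add_apply, Pi.smul_apply, smul_eq_mul, hv]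
      unfold dir
      simp [Ne.symm hl]
    · rw [if_neg hv, if_neg hv]
  · intro v y
    beta_reduce
    split_ifs
    · exact hu _
    · simp
  · funext y
    rw [one_mul, prod_ite_eq' univ ((l, none) : Fin r × Option (Fin r)) (fun _ => u (y i)), if_pos (mem_univ _)]

theorem Fi_prod {ι : Type} (s : Finset ι) (φ : ι → (Fin r → ZMod N) → ℝ) (h : ∀ i ∈ s, φ i ∈ Fi r N) :
    (fun y => ∏ i ∈ s, φ i y) ∈ Fi r N := by
  have h1 : (∏ i ∈ s, φ i) ∈ Fi r N :=
    Finset.prod_induction φ (· ∈ Fi r N) (fun a b ha hb => Fi_mul a b ha hb) Fi_one h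
  have e : (fun y => ∏ i ∈ s, φ i y) = ∏ i ∈ s, φ i := by
    funext y
    rw [Finset.prod_apply]
  rw [e]
  exact h1

/-- the cell of a residue -/
def cell (N K : ℕ) (u : ZMod N) : ℕ := (rp u - 1) / (N / K + 1)

theorem cell_lt (K : ℕ) (hK : 1 ≤ K) [NeZero N] (u : ZMod N) : cell N K u < K := by
  unfold cell
  rw [Nat.div_lt_iff_lt_mul (Nat.succ_pos _)]
  have h1 := rp_le u
  have h2 := rp_pos u
  have h3 : N < K * (N / K + 1) := Nat.lt_mul_div_succ N hK
  have h4 : rp u - 1 < N := by omega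
  exact h4.trans h3

open Classical in
/-- the indicator of a cell -/
noncomputable def iq {K : ℕ} (q : Fin r → Fin K) (y : Fin r → ZMod N) : ℝ :=
  ∏ i, if cell N K (y i) = q i then 1 else 0

open Classical in
/-- the indicator of the points beyond a cell -/
noncomputable def psi {K : ℕ} (q : Fin r → Fin K) (l : Fin r) (y : Fin r → ZMod N) : ℝ :=
  if (q l : ℕ) < cell N K (y l) then 1 else 0

open Classical in
/-- the indicator of the box -/
noncomputable def bxi (y : Fin r → ZMod N) : ℝ :=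
  ∏ i, if N < 3 * rp (y i) ∧ 3 * rp (y i) ≤ 2 * N then 1 else 0

theorem iq_mem (hr : 2 ≤ r) {K : ℕ} (q : Fin r → Fin K) : (iq q : (Fin r → ZMod N) → ℝ) ∈ Fi r N := by
  classical
  unfold iq
  exact Fi_prod univ (fun (i : Fin r) (y : Fin r → ZMod N) => if cell N K (y i) = q i then (1 : ℝ) else 0)
    (fun i _ => Fi_coord hr i (fun t => if cell N K t = q i then (1 : ℝ) else 0) (fun t => by split_ifs <;> simp))

theorem psi_mem (hr : 2 ≤ r) {K : ℕ} (q : Fin r → Fin K) (l : Fin r) :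
    (psi q l : (Fin r → ZMod N) → ℝ) ∈ Fi r N := by
  classical
  unfold psi
  exact Fi_coord hr l (fun t => if (q l : ℕ) < cell N K t then (1 : ℝ) else 0) (fun t => by split_ifs <;> simp)

theorem bxi_mem (hr : 2 ≤ r) : (bxi : (Fin r → ZMod N) → ℝ) ∈ Fi r N := by
  classical
  unfold bxi
  exact Fi_prod univ (fun (i : Fin r) (y : Fin r → ZMod N) => if N < 3 * rp (y i) ∧ 3 * rp (y i) ≤ 2 * N then (1 : ℝ) else 0)
    (fun i _ => Fi_coord hr i (fun t => if N < 3 * rp t ∧ 3 * rp t ≤ 2 * N then (1 : ℝ) else 0)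
      (fun t => by split_ifs <;> simp))

theorem iq_eq {K : ℕ} (q : Fin r → Fin K) (y : Fin r → ZMod N) :
    iq q y = 0 ∨ iq q y = 1 ∧ ∀ i, cell N K (y i) = q i := by
  classical
  unfold iq
  by_cases h : ∀ i, cell N K (y i) = q i
  · right
    exact ⟨prod_eq_one fun i _ => if_pos (h i), h⟩
  · left
    push Not at h
    obtain ⟨i, hi⟩ := h
    exact prod_eq_zero (mem_univ i) (if_neg hi)

theorem iq_sum {K : ℕ} (hK : 1 ≤ K) [NeZero N] (y : Fin r → ZMod N) :
    ∑ q : Fin r → Fin K, (iq q y : ℝ) = 1 := by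
  classical
  rw [sum_eq_single (fun i => (⟨cell N K (y i), cell_lt K hK _⟩ : Fin K))]
  · unfold iq
    exact prod_eq_one fun i _ => if_pos rfl
  · intro q _ hq
    rcases iq_eq q y with h | h
    · exact h
    · exfalso
      apply hq
      funext i
      exact Fin.ext (h.2 i).symm
  · intro h
    exact absurd (mem_univ _) h

theorem psi_eq {K : ℕ} (q : Fin r → Fin K) (l : Fin r) (y : Fin r → ZMod N) :
    psi q l y = 0 ∨ psi q l y = 1 ∧ (q l : ℕ) < cell N K (y l) := by
  classical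
  unfold psi
  split_ifs with h
  · exact Or.inr ⟨rfl, h⟩
  · exact Or.inl rfl

theorem bxi_eq (y : Fin r → ZMod N) : bxi y = 0 ∧ ¬ bx y ∨ bxi y = 1 ∧ bx y := by
  classical
  unfold bxi
  by_cases h : bx y
  · right
    exact ⟨prod_eq_one fun i _ => if_pos (h i), h⟩
  · left
    refine ⟨?_, h⟩
    unfold bx at h
    rw [not_forall] at h
    obtain ⟨i, hi⟩ := h
    exact prod_eq_zero (mem_univ i) (if_neg hi)

/-- the product of different functions -/
theorem prod_P' (x : Option (Fin r) → ZMod N) (F : Option (Fin r) → (Fin r → ZMod N) → ℝ) :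
    ∏ j, F j (P j x) = F none (Sh r N x).1 * ∏ l : Fin r, F (some l) ((Sh r N x).1 + ch r N l.succ (Sh r N x).2) := by
  rw [Fintype.prod_option]
  congr 1
  exact prod_congr rfl fun l _ => by rw [P_eq]

theorem av_P' [NeZero N] (F : Option (Fin r) → (Fin r → ZMod N) → ℝ) :
    av (fun x : Option (Fin r) → ZMod N => ∏ j, F j (P j x)) =
      av (fun p : (Fin r → ZMod N) × ZMod N => F none p.1 * ∏ l : Fin r, F (some l) (p.1 + ch r N l.succ p.2)) := by
  rw [← Pool.Agent.Y727.PSP.av_hom (Sh r N) (Sh_surj r N)]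
  congr 1
  funext x
  exact prod_P' x F

theorem av_negSnd [NeZero N] (F : (Fin r → ZMod N) × ZMod N → ℝ) :
    av (fun p : (Fin r → ZMod N) × ZMod N => F (p.1, -p.2)) = av F :=
  av_equiv (Equiv.prodCongr (Equiv.refl _) (Equiv.neg (ZMod N))) F

/-- the absolute theorem with a positive difference -/
theorem absP (r : ℕ) (δ : ℝ) (hδ : 0 < δ) : ∃ c : ℝ, 0 < c ∧ ∀ (N : ℕ) [NeZero N]
    (h : (Fin r → ZMod N) → ℝ), (∀ y, 0 ≤ h y ∧ h y ≤ 1) → δ ≤ av h →
    c ≤ av (fun p : (Fin r → ZMod N) × ZMod N => (if 0 ≤ p.2.valMinAbs then (1 : ℝ) else 0) *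
      ∏ a : Fin (r + 1), h (p.1 + ch r N a p.2)) := by
  classical
  obtain ⟨c, hc, hV⟩ := varG ((r + 1) + r) δ hδ
  refine ⟨c / 2, by positivity, ?_⟩
  intro N _ h hh hav
  let e : Fin (r + 1) ⊕ Fin (r + 1) ≃ Fin ((r + 1) + r + 1) := finSumFinEquiv
  have h1 := hV (Fin r → ZMod N) (ZMod N) (fun a => Sum.elim (fun a => ch r N a) (fun a => -ch r N a) (e.symm a)) h hh hav
  have h2 : ∀ p : (Fin r → ZMod N) × ZMod N,
      ∏ a : Fin ((r + 1) + r + 1), h (p.1 + (Sum.elim (fun a => ch r N a) (fun a => -ch r N a) (e.symm a)) p.2) =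
      (∏ a : Fin (r + 1), h (p.1 + ch r N a p.2)) * ∏ a : Fin (r + 1), h (p.1 + ch r N a (-p.2)) := by
    intro p
    rw [← Equiv.prod_comp e, Fintype.prod_sum_type]
    congr 1
    · apply prod_congr rfl
      intro a _
      rw [Equiv.symm_apply_apply]
      rfl
    · apply prod_congr rfl
      intro a _
      rw [Equiv.symm_apply_apply]
      show h (p.1 + (-ch r N a) p.2) = _
      rw [AddMonoidHom.neg_apply, map_neg]
  simp only [h2] at h1
  obtain ⟨G, hG⟩ : ∃ G : (Fin r → ZMod N) × ZMod N → ℝ, G = fun p => (if 0 ≤ p.2.valMinAbs then (1 : ℝ) else 0) *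
      ∏ a : Fin (r + 1), h (p.1 + ch r N a p.2) := ⟨_, rfl⟩
  have hpr : ∀ (y : Fin r → ZMod N) (d : ZMod N), 0 ≤ ∏ a : Fin (r + 1), h (y + ch r N a d) ∧
      ∏ a : Fin (r + 1), h (y + ch r N a d) ≤ 1 := fun y d =>
    ⟨prod_nonneg fun a _ => (hh _).1, prod_le_one (fun a _ => (hh _).1) (fun a _ => (hh _).2)⟩
  have h3 : ∀ p : (Fin r → ZMod N) × ZMod N,
      (∏ a : Fin (r + 1), h (p.1 + ch r N a p.2)) * ∏ a : Fin (r + 1), h (p.1 + ch r N a (-p.2)) ≤
      G p + G (p.1, -p.2) := by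
    intro p
    rw [hG]
    beta_reduce
    obtain ⟨a1, a2⟩ := hpr p.1 p.2
    obtain ⟨b1, b2⟩ := hpr p.1 (-p.2)
    by_cases hp : 0 ≤ p.2.valMinAbs
    · rw [if_pos hp, one_mul]
      have : 0 ≤ (if 0 ≤ (-p.2).valMinAbs then (1 : ℝ) else 0) * ∏ a : Fin (r + 1), h (p.1 + ch r N a (-p.2)) := by
        exact mul_nonneg (by split_ifs <;> norm_num) b1
      have h4 : (∏ a : Fin (r + 1), h (p.1 + ch r N a p.2)) * ∏ a : Fin (r + 1), h (p.1 + ch r N a (-p.2)) ≤
        ∏ a : Fin (r + 1), h (p.1 + ch r N a p.2) := mul_le_of_le_one_right a1 b2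
      show _ ≤ _ + (if 0 ≤ (-p.2).valMinAbs then (1 : ℝ) else 0) * ∏ a : Fin (r + 1), h (p.1 + ch r N a (-p.2))
      linarith
    · have h5 : (-p.2).valMinAbs = -p.2.valMinAbs := by
        rw [ZMod.valMinAbs_spec]
        have := ZMod.valMinAbs_mem_Ioc p.2
        rw [Set.mem_Ioc] at this ⊢
        refine ⟨by simp, ?_, ?_⟩ <;> omega
      rw [if_neg hp, zero_mul, zero_add]
      show _ ≤ (if 0 ≤ (-p.2).valMinAbs then (1 : ℝ) else 0) * ∏ a : Fin (r + 1), h (p.1 + ch r N a (-p.2))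
      rw [if_pos (by omega), one_mul]
      exact mul_le_of_le_one_left b1 a2
  have h4 := h1.trans (av_mono h3)
  rw [av_add, av_negSnd G] at h4
  rw [← hG]
  linarith

/-- the relative theorem with a positive difference -/
theorem rcP (r : ℕ) (hr : 2 ≤ r) (δ : ℝ) (hδ : 0 < δ) : ∃ (c η : ℝ) (N₀ : ℕ), 0 < c ∧ 0 < η ∧
    ∀ (N : ℕ) [NeZero N], N₀ ≤ N → ∀ ν f : (Fin r → ZMod N) → ℝ, (∀ a, 0 ≤ f a ∧ f a ≤ ν a) →
      (∀ a, ¬ bx a → f a = 0) →
      LF (fun (j : Option (Fin r)) (x : Option (Fin r) → ZMod N) => ν (P j x)) η → BX ν η →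
      δ ≤ av f → c ≤ av (fun p : (Fin r → ZMod N) × ZMod N => (if 0 < p.2.valMinAbs then (1 : ℝ) else 0) *
        ∏ a : Fin (r + 1), f (p.1 + ch r N a p.2)) := by
  classical
  have hCS : S_CS := Pool.Agent.Y674.PSP.cs
  have hCNT : S_CNT := Pool.Agent.Y814.PSP.cnt (Pool.Agent.Y317.PSP.slf hCS)
  have hDMT : S_DMT := Pool.Agent.Y500.PSP.DMT
  obtain ⟨c0, hc0, hV⟩ := absP r (δ / 2) (by positivity)
  obtain ⟨K, hK⟩ := exists_nat_gt (8 / c0)
  have hK0 : (0 : ℝ) < K := lt_trans (by positivity) hK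
  have hK1 : 1 ≤ K := by exact_mod_cast hK0
  have hKr : (0 : ℝ) < (K : ℝ) ^ r := by positivity
  obtain ⟨η1, hη1, hC⟩ := hCNT (Option (Fin r)) (c0 / 4 / K ^ r) (by positivity)
  obtain ⟨ε', hε', hD⟩ := hDMT (min η1 (δ / 2)) (by positivity)
  obtain ⟨η2, hη2d⟩ : ∃ η2 : ℝ, η2 = ε' ^ (2 ^ (r * (r + 1))) / 2 ^ 2 ^ (r * (r + 1)) := ⟨_, rfl⟩
  have hη2 : 0 < η2 := by rw [hη2d]; positivity
  obtain ⟨N₀, hN₀⟩ := exists_nat_gt (16 / c0)
  refine ⟨c0 / 4, min η1 η2, N₀, by positivity, by positivity, ?_⟩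
  intro N _ hNN ν f hf hfb hLF hBX hδf
  have hN0 : (0 : ℝ) < N := by
    have := Nat.pos_of_ne_zero (NeZero.ne N)
    exact_mod_cast this
  have hLF1 : LF (fun (j : Option (Fin r)) (x : Option (Fin r) → ZMod N) => ν (P j x)) η1 :=
    fun T hT => (hLF T hT).trans (min_le_left _ _)
  have hBX2 : BX ν η2 := fun S => (hBX S).trans (min_le_right _ _)
  have h2 : ∀ φ ∈ Fi r N, |av (fun a => (ν a - 1) * φ a)| ≤ ε' := by
    intro φ hφ
    have h3 := Fi_small hCS ν η2 hη2.le hBX2 φ hφ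
    have h4 : 2 ^ 2 ^ (r * (r + 1)) * η2 = ε' ^ (2 ^ (r * (r + 1))) := by
      rw [hη2d]; field_simp
    rw [h4] at h3
    exact (pow_le_pow_iff_left₀ (abs_nonneg _) hε'.le (by positivity)).1 h3
  obtain ⟨g0, hg0, hg02⟩ := hD (Fin r → ZMod N) (Fi r N) Fi_bdd Fi_one Fi_neg
    (fun φ hφ ψ hψ => subset_convexHull ℝ _ (Fi_mul φ ψ hφ hψ)) ν f hf h2
  -- restriction to the box
  obtain ⟨g, hgd⟩ : ∃ g : (Fin r → ZMod N) → ℝ, g = fun y => g0 y * bxi y := ⟨_, rfl⟩
  have hbx01 : ∀ y : Fin r → ZMod N, 0 ≤ bxi y ∧ bxi y ≤ 1 := by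
    intro y
    rcases bxi_eq y with h | h <;> rw [h.1] <;> norm_num
  have hfbx : ∀ y, f y * bxi y = f y := by
    intro y
    rcases bxi_eq y with h | h
    · rw [hfb y h.2, zero_mul]
    · rw [h.1, mul_one]
  have hg : ∀ a, 0 ≤ g a ∧ g a ≤ 1 := by
    intro a
    rw [hgd]
    exact ⟨mul_nonneg (hg0 a).1 (hbx01 a).1, mul_le_one₀ (hg0 a).2 (hbx01 a).1 (hbx01 a).2⟩
  have hg2 : ∀ φ ∈ Fi r N, |av (fun a => (f a - g a) * φ a)| ≤ min η1 (δ / 2) := by
    intro φ hφ
    have h3 := hg02 (bxi * φ) (Fi_mul _ _ (bxi_mem hr) hφ)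
    refine le_trans (le_of_eq ?_) h3
    congr 2
    funext a
    rw [hgd, Pi.mul_apply]
    beta_reduce
    have e := hfbx a
    linear_combination (-(φ a)) * e
  have h4 : δ / 2 ≤ av g := by
    have h5 := hg2 _ Fi_one
    simp only [mul_one] at h5
    rw [av_sub] at h5
    have h6 := (abs_le.1 h5).2
    have h7 := min_le_right η1 (δ / 2)
    linarith
  have h5 := hV N g hg h4
  -- the cells
  have hcut : ∀ φ ∈ Fi r N, ∀ j : Option (Fin r), Cut j (fun x => f (P j x) * φ (P j x) - g (P j x) * φ (P j x)) η1 := by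
    intro φ hφ j
    have h6 := cut_of_Fi (⟨0, by omega⟩ : Fin r) (fun a => (f a - g a) * φ a) (min η1 (δ / 2)) (by
      intro ψ hψ
      have h7 := hg2 (φ * ψ) (Fi_mul _ _ hφ hψ)
      refine le_trans (le_of_eq ?_) h7
      congr 2
      funext a
      rw [Pi.mul_apply, mul_assoc]) j
    intro u hu hu1
    have h8 := (h6 u hu hu1).trans (min_le_left _ _)
    refine le_trans (le_of_eq ?_) h8
    congr 2
    funext x
    ring
  have hq01 : ∀ (q : Fin r → Fin K) (y : Fin r → ZMod N), 0 ≤ (iq q y : ℝ) ∧ (iq q y : ℝ) ≤ 1 := by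
    intro q y
    rcases iq_eq q y with h | h
    · rw [h]; norm_num
    · rw [h.1]; norm_num
  have hp01 : ∀ (q : Fin r → Fin K) (l : Fin r) (y : Fin r → ZMod N), 0 ≤ (psi q l y : ℝ) ∧ (psi q l y : ℝ) ≤ 1 := by
    intro q l y
    rcases psi_eq q l y with h | h
    · rw [h]; norm_num
    · rw [h.1]; norm_num
  let φq : (Fin r → Fin K) → Option (Fin r) → (Fin r → ZMod N) → ℝ := fun q j =>
    match j with
    | none => iq q
    | some l => psi q l
  have hφ01 : ∀ q j y, 0 ≤ φq q j y ∧ φq q j y ≤ 1 := by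
    intro q j y
    rcases j with _ | l
    · exact hq01 q y
    · exact hp01 q l y
  have hφm : ∀ q j, φq q j ∈ Fi r N := by
    intro q j
    rcases j with _ | l
    · exact iq_mem hr q
    · exact psi_mem hr q l
  have hcnt : ∀ q : Fin r → Fin K,
      |av (fun x : Option (Fin r) → ZMod N => ∏ j, (f (P j x) * φq q j (P j x))) -
        av (fun x : Option (Fin r) → ZMod N => ∏ j, (g (P j x) * φq q j (P j x)))| ≤ c0 / 4 / K ^ r := by
    intro q
    exact hC (ZMod N) (fun j x => ν (P j x)) (fun j x => f (P j x) * φq q j (P j x))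
      (fun j x => g (P j x) * φq q j (P j x)) (fun j => Ind_P j ν) (fun j => Ind_P j (fun y => f y * φq q j y))
      (fun j => Ind_P j (fun y => g y * φq q j y)) hLF1
      (fun j x => ⟨mul_nonneg (hf _).1 (hφ01 q j _).1,
        (mul_le_of_le_one_right (hf _).1 (hφ01 q j _).2).trans (hf _).2⟩)
      (fun j x => ⟨mul_nonneg (hg _).1 (hφ01 q j _).1, mul_le_one₀ (hg _).2 (hφ01 q j _).1 (hφ01 q j _).2⟩)
      (fun j => hcut _ (hφm q j) j)
  -- the product over the faces
  have hav : ∀ (F : (Fin r → ZMod N) → ℝ) (q : Fin r → Fin K),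
      av (fun x : Option (Fin r) → ZMod N => ∏ j, (F (P j x) * φq q j (P j x))) =
      av (fun p : (Fin r → ZMod N) × ZMod N => (∏ a : Fin (r + 1), F (p.1 + ch r N a p.2)) *
        (iq q p.1 * ∏ l : Fin r, psi q l (p.1 + ch r N l.succ p.2))) := by
    intro F q
    rw [av_P' (fun j y => F y * φq q j y)]
    congr 1
    funext p
    rw [Fin.prod_univ_succ, prod_mul_distrib]
    have e1 : ch r N 0 = 0 := rfl
    rw [e1, AddMonoidHom.zero_apply, add_zero]
    show F p.1 * iq q p.1 * ((∏ l : Fin r, F (p.1 + ch r N l.succ p.2)) * ∏ l : Fin r, psi q l (p.1 + ch r N l.succ p.2)) = _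
    ring
  -- the dense side
  have hs : ∀ p : (Fin r → ZMod N) × ZMod N, (if 0 ≤ p.2.valMinAbs then (1 : ℝ) else 0) *
      ∏ a : Fin (r + 1), g (p.1 + ch r N a p.2) ≤
      (if p.2.val < N / K + 2 then (1 : ℝ) else 0) + ∑ q : Fin r → Fin K,
        (∏ a : Fin (r + 1), g (p.1 + ch r N a p.2)) * (iq q p.1 * ∏ l : Fin r, psi q l (p.1 + ch r N l.succ p.2)) := by
    intro p
    have hpr0 : 0 ≤ ∏ a : Fin (r + 1), g (p.1 + ch r N a p.2) := prod_nonneg fun a _ => (hg _).1
    have hpr1 : ∏ a : Fin (r + 1), g (p.1 + ch r N a p.2) ≤ 1 := prod_le_one (fun a _ => (hg _).1) (fun a _ => (hg _).2)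
    have hS0 : 0 ≤ ∑ q : Fin r → Fin K, (∏ a : Fin (r + 1), g (p.1 + ch r N a p.2)) *
        (iq q p.1 * ∏ l : Fin r, psi q l (p.1 + ch r N l.succ p.2)) :=
      sum_nonneg fun q _ => mul_nonneg hpr0 (mul_nonneg (hq01 q _).1 (prod_nonneg fun l _ => (hp01 q l _).1))
    by_cases h0 : 0 ≤ p.2.valMinAbs
    swap
    · rw [if_neg h0, zero_mul]
      have : (0 : ℝ) ≤ (if p.2.val < N / K + 2 then (1 : ℝ) else 0) := by split_ifs <;> norm_num
      linarith
    rw [if_pos h0, one_mul]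
    by_cases h1 : p.2.val < N / K + 2
    · rw [if_pos h1]
      linarith
    rw [if_neg h1, zero_add]
    by_cases hall : ∀ a : Fin (r + 1), bx (p.1 + ch r N a p.2)
    swap
    · rw [not_forall] at hall
      obtain ⟨a, ha⟩ := hall
      have : g (p.1 + ch r N a p.2) = 0 := by
        rw [hgd]
        beta_reduce
        rcases bxi_eq (p.1 + ch r N a p.2) with h | h
        · rw [h.1, mul_zero]
        · exact absurd h.2 ha
      rw [prod_eq_zero (mem_univ a) this] at hS0 ⊢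
      exact hS0
    have hval : (p.2.valMinAbs : ℤ) = p.2.val := by
      rw [ZMod.valMinAbs_def_pos]
      rw [ZMod.valMinAbs_def_pos] at h0
      split_ifs at h0 ⊢ with h
      · rfl
      · have := ZMod.val_lt p.2
        omega
    have hy : bx p.1 := by
      have := hall 0
      have e : ch r N 0 = 0 := rfl
      rwa [e, AddMonoidHom.zero_apply, add_zero] at this
    rw [← mul_sum]
    suffices h2 : 1 ≤ ∑ q : Fin r → Fin K, iq q p.1 * ∏ l : Fin r, psi q l (p.1 + ch r N l.succ p.2) from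
      le_mul_of_one_le_right hpr0 h2
    let q₀ : Fin r → Fin K := fun i => ⟨cell N K (p.1 i), cell_lt K hK1 _⟩
    have h3 : iq q₀ p.1 * ∏ l : Fin r, psi q₀ l (p.1 + ch r N l.succ p.2) = 1 := by
      have e1 : (iq q₀ p.1 : ℝ) = 1 := by
        unfold iq
        exact prod_eq_one fun i _ => if_pos rfl
      rw [e1, one_mul]
      apply prod_eq_one
      intro l _
      unfold psi
      rw [if_pos]
      show cell N K (p.1 l) < cell N K ((p.1 + ch r N l.succ p.2) l)
      have e2 : (p.1 + ch r N l.succ p.2) l = p.1 l + p.2 := by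
        show p.1 l + (Pi.single l p.2 : Fin r → ZMod N) l = _
        simp
      rw [e2]
      have h4 := hall l.succ l
      rw [e2] at h4
      have h5 := vma (p.1 l) p.2 (hy l).1 (hy l).2 h4.1 h4.2
      rw [hval] at h5
      unfold cell
      have h6 : rp (p.1 l + p.2) = rp (p.1 l) + p.2.val := by exact_mod_cast h5
      rw [h6]
      have h7 := rp_pos (p.1 l)
      have h8 : (rp (p.1 l) - 1) / (N / K + 1) + 1 = (rp (p.1 l) - 1 + (N / K + 1)) / (N / K + 1) :=
        (Nat.add_div_right _ (Nat.succ_pos _)).symm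
      have h9 : (rp (p.1 l) - 1 + (N / K + 1)) / (N / K + 1) ≤ (rp (p.1 l) + p.2.val - 1) / (N / K + 1) :=
        Nat.div_le_div_right (by omega)
      omega
    rw [← h3]
    exact single_le_sum (f := fun q => iq q p.1 * ∏ l : Fin r, psi q l (p.1 + ch r N l.succ p.2))
      (fun q _ => mul_nonneg (hq01 q _).1 (prod_nonneg fun l _ => (hp01 q l _).1)) (mem_univ q₀)
  have h6 := h5.trans (av_mono hs)
  rw [av_add, av_sum] at h6
  have h7 : av (fun p : (Fin r → ZMod N) × ZMod N => (if p.2.val < N / K + 2 then (1 : ℝ) else 0)) ≤ c0 / 4 := by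
    rw [av_prod]
    show av (fun _ : Fin r → ZMod N => av (fun u : ZMod N => (if u.val < N / K + 2 then (1 : ℝ) else 0))) ≤ _
    rw [av_const]
    unfold av
    rw [ZMod.card, div_le_iff₀ hN0, ← sum_filter, sum_const, nsmul_eq_mul, mul_one]
    have e1 : (univ.filter (fun u : ZMod N => u.val < N / K + 2)).card ≤ N / K + 2 := by
      have h10 := card_le_card_of_injOn (s := univ.filter (fun u : ZMod N => u.val < N / K + 2))
        (t := range (N / K + 2)) (fun u => u.val) (by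
          intro u hu
          rw [mem_coe, mem_filter] at hu
          rw [mem_coe, mem_range]
          exact hu.2) (by
          intro u _ v _ huv
          exact ZMod.val_injective N huv)
      rwa [card_range] at h10
    have e2 : ((univ.filter (fun u : ZMod N => u.val < N / K + 2)).card : ℝ) ≤ ((N / K : ℕ) : ℝ) + 2 := by
      exact_mod_cast e1
    have e3 : ((N / K : ℕ) : ℝ) ≤ N / K := Nat.cast_div_le
    have e4 : (N : ℝ) / K ≤ c0 / 8 * N := by
      rw [div_le_iff₀ hK0]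
      rw [div_lt_iff₀ hc0] at hK
      nlinarith
    have e5 : 2 ≤ c0 / 8 * N := by
      have : (N₀ : ℝ) ≤ N := by exact_mod_cast hNN
      rw [div_lt_iff₀ hc0] at hN₀
      nlinarith
    linarith
  -- the comparison
  have h8 : ∑ q : Fin r → Fin K, av (fun p : (Fin r → ZMod N) × ZMod N => (∏ a : Fin (r + 1), g (p.1 + ch r N a p.2)) *
        (iq q p.1 * ∏ l : Fin r, psi q l (p.1 + ch r N l.succ p.2))) ≤
      ∑ q : Fin r → Fin K, (av (fun p : (Fin r → ZMod N) × ZMod N => (∏ a : Fin (r + 1), f (p.1 + ch r N a p.2)) *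
        (iq q p.1 * ∏ l : Fin r, psi q l (p.1 + ch r N l.succ p.2))) + c0 / 4 / K ^ r) := by
    apply sum_le_sum
    intro q _
    have h9 := hcnt q
    rw [hav f q, hav g q] at h9
    have := (abs_le.1 h9).1
    linarith
  rw [sum_add_distrib, sum_const, card_univ, Fintype.card_fun, Fintype.card_fin, Fintype.card_fin, nsmul_eq_mul] at h8
  have e6 : ((K ^ r : ℕ) : ℝ) * (c0 / 4 / K ^ r) = c0 / 4 := by
    push_cast
    field_simp
  rw [e6] at h8
  have h9 : av (fun p : (Fin r → ZMod N) × ZMod N => ∑ q : Fin r → Fin K, (∏ a : Fin (r + 1), f (p.1 + ch r N a p.2)) *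
        (iq q p.1 * ∏ l : Fin r, psi q l (p.1 + ch r N l.succ p.2))) ≤
      av (fun p : (Fin r → ZMod N) × ZMod N => (if 0 < p.2.valMinAbs then (1 : ℝ) else 0) *
        ∏ a : Fin (r + 1), f (p.1 + ch r N a p.2)) := by
    apply av_mono
    intro p
    rw [← mul_sum, mul_comm]
    have hpr0 : 0 ≤ ∏ a : Fin (r + 1), f (p.1 + ch r N a p.2) := prod_nonneg fun a _ => (hf _).1
    have hle1 : ∑ q : Fin r → Fin K, iq q p.1 * ∏ l : Fin r, psi q l (p.1 + ch r N l.succ p.2) ≤ 1 := by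
      rw [← iq_sum hK1 p.1]
      apply sum_le_sum
      intro q _
      exact mul_le_of_le_one_right (hq01 q _).1 (prod_le_one (fun l _ => (hp01 q l _).1) (fun l _ => (hp01 q l _).2))
    by_cases h0 : 0 < p.2.valMinAbs
    · rw [if_pos h0]
      gcongr
    rw [if_neg h0, zero_mul]
    apply le_of_eq
    rw [mul_eq_zero]
    by_cases hz : ∏ a : Fin (r + 1), f (p.1 + ch r N a p.2) = 0
    · exact Or.inr hz
    left
    have hall : ∀ a : Fin (r + 1), bx (p.1 + ch r N a p.2) := by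
      intro a
      by_contra ha
      exact hz (prod_eq_zero (mem_univ a) (hfb _ ha))
    have hy : bx p.1 := by
      have := hall 0
      have e : ch r N 0 = 0 := rfl
      rwa [e, AddMonoidHom.zero_apply, add_zero] at this
    apply sum_eq_zero
    intro q _
    rcases iq_eq q p.1 with h | h
    · rw [h, zero_mul]
    rw [h.1, one_mul]
    let l : Fin r := ⟨0, by omega⟩
    rw [prod_eq_zero (mem_univ l)]
    rcases psi_eq q l (p.1 + ch r N l.succ p.2) with h1 | h1
    · exact h1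
    exfalso
    have e2 : (p.1 + ch r N l.succ p.2) l = p.1 l + p.2 := by
      show p.1 l + (Pi.single l p.2 : Fin r → ZMod N) l = _
      simp
    have h2 := h1.2
    rw [e2, ← h.2 l] at h2
    have h4 := hall l.succ l
    rw [e2] at h4
    have h5 := vma (p.1 l) p.2 (hy l).1 (hy l).2 h4.1 h4.2
    unfold cell at h2
    have h6 : rp (p.1 l + p.2) ≤ rp (p.1 l) := by omega
    have h7 : (rp (p.1 l + p.2) - 1) / (N / K + 1) ≤ (rp (p.1 l) - 1) / (N / K + 1) :=
      Nat.div_le_div_right (by omega)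
    omega
  rw [av_sum] at h9
  linarith

end Pool.Agent.H534.RS
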